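import Mathlib
import Pool.Agent.Lib.MP_021685_ag.Main

/-!
# Linear algebra of `V ⊗ ⋀^e H`
-/

set_option autoImplicit false
set_option linter.unusedVariables false

open Polynomial Pool.Agent.Lib.MP_021685_ag

open scoped TensorProduct

namespace Pool.Agent.Lib.MP_021685_agG

/-- A simultaneous eigenvector in `V ⊗ U` is a sum of tensors of eigenvectors. -/
theorem linA {K : Type*} [Field K] {V U : Type*} [AddCommGroup V] [Module K V] [AddCommGroup U] [Module K U]
    (f : Module.End K V) (g : Module.End K U) (a b : K) (ω : V ⊗[K] U)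
    (h1 : TensorProduct.map f LinearMap.id ω = a • ω) (h2 : TensorProduct.map LinearMap.id g ω = b • ω) :
    ω ∈ Submodule.span K {ω' | ∃ (v : V) (u : U), f v = a • v ∧ g u = b • u ∧ ω' = v ⊗ₜ[K] u} := by
  classical
  let B := Module.Basis.ofVectorSpace K V
  obtain ⟨c, hc⟩ := TensorProduct.eq_repr_basis_left B ω
  let W : Submodule K U := LinearMap.ker (g - b • LinearMap.id)
  have hW : ∀ u : U, u ∈ W ↔ g u = b • u := by
    intro u
    rw [LinearMap.mem_ker, LinearMap.sub_apply, LinearMap.smul_apply, LinearMap.id_apply,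
      sub_eq_zero]
  -- the coefficients of `ω` are in `W`
  have hcW : ∀ i, c i ∈ W := by
    have h3 : (c.mapRange (fun u => g u - b • u) (by simp)).sum
        (fun i n => B i ⊗ₜ[K] n) = 0 := by
      rw [Finsupp.sum_mapRange_index (by simp)]
      simp only [TensorProduct.tmul_sub, TensorProduct.tmul_smul]
      rw [Finsupp.sum_sub, ← Finsupp.smul_sum, hc, ← h2, ← hc, map_finsuppSum]
      simp
    have h4 := TensorProduct.sum_tmul_basis_left_eq_zero B _ h3
    intro i
    rw [hW]
    have h5 := DFunLike.congr_fun h4 i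
    rw [Finsupp.mapRange_apply, Finsupp.zero_apply, sub_eq_zero] at h5
    exact h5
  obtain ⟨ω', hω'⟩ : ∃ ω' : V ⊗[K] W, LinearMap.lTensor V W.subtype ω' = ω := by
    refine ⟨c.sum fun i _ => B i ⊗ₜ[K] (⟨c i, hcW i⟩ : W), ?_⟩
    rw [map_finsuppSum]
    simp only [LinearMap.lTensor_tmul, Submodule.subtype_apply]
    exact hc
  let C := Module.Basis.ofVectorSpace K W
  obtain ⟨d, hd⟩ := TensorProduct.eq_repr_basis_right C ω'
  have h6 : LinearMap.rTensor W f ω' = a • ω' := by
    apply Module.Flat.lTensor_preserves_injective_linearMap (M := V) W.subtype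
      (Submodule.subtype_injective W)
    rw [map_smul, hω', ← h1, ← hω']
    change (LinearMap.lTensor V W.subtype ∘ₗ LinearMap.rTensor W f) ω' =
      (TensorProduct.map f LinearMap.id ∘ₗ LinearMap.lTensor V W.subtype) ω'
    congr 1
    apply TensorProduct.ext'
    intro x y
    simp
  have h7 : ∀ i, f (d i) = a • d i := by
    have h3 : (d.mapRange (fun v => f v - a • v) (by simp)).sum
        (fun i n => n ⊗ₜ[K] C i) = 0 := by
      rw [Finsupp.sum_mapRange_index (by simp)]
      simp only [TensorProduct.sub_tmul, ← TensorProduct.smul_tmul']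
      rw [Finsupp.sum_sub, ← Finsupp.smul_sum, hd, ← h6, ← hd, map_finsuppSum]
      simp
    have h4 := TensorProduct.sum_tmul_basis_right_eq_zero C _ h3
    intro i
    have h5 := DFunLike.congr_fun h4 i
    rw [Finsupp.mapRange_apply, Finsupp.zero_apply, sub_eq_zero] at h5
    exact h5
  rw [← hω', ← hd, map_finsuppSum]
  refine Submodule.sum_mem _ fun i _ => Submodule.subset_span ?_
  exact ⟨d i, C i, h7 i, (hW _).1 (C i).2, by simp⟩

/-- A separable polynomial with the only possible root `t` divides `X - t`. -/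
theorem dvd_X_sub_C_of_roots {K : Type} [Field K] {E : K[X]} (hE : E.Separable) (t : K)
    (h : ∀ l : AlgebraicClosure K, aeval l E = 0 → l = algebraMap K (AlgebraicClosure K) t) :
    E ∣ X - C t := by
  rw [← map_dvd_map' (algebraMap K (AlgebraicClosure K))]
  have hE0 : E.map (algebraMap K (AlgebraicClosure K)) ≠ 0 := by
    rw [Polynomial.map_ne_zero_iff (algebraMap K (AlgebraicClosure K)).injective]
    exact hE.ne_zero
  rw [(IsAlgClosed.splits _).dvd_iff_roots_le_roots hE0 (by
    rw [Polynomial.map_ne_zero_iff (algebraMap K (AlgebraicClosure K)).injective]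
    exact X_sub_C_ne_zero t)]
  rw [Polynomial.map_sub, Polynomial.map_X, Polynomial.map_C, roots_X_sub_C]
  rw [Multiset.le_iff_subset (nodup_roots hE.map)]
  intro l hl
  rw [Multiset.mem_singleton]
  apply h
  rw [mem_roots hE0, IsRoot.def, eval_map_algebraMap] at hl
  exact hl

/-- Let `A` and `Z` commute and `A Z ω = c ω`. If `R` kills `ω` under `A` and `G` kills `ω` under
`Z`, and if `cY` is the only root `α` of `R` such that `c / α` is a root of `G`, then
`A ω = cY ω`. -/
theorem linB {K : Type} [Field K] {W : Type*} [AddCommGroup W] [Module K W] (A Z : Module.End K W)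
    (hAZ : Commute A Z) (c : K) (hc : c ≠ 0) (ω : W) (h : A (Z ω) = c • ω) (R G : K[X])
    (hR : aeval A R ω = 0) (hG : aeval Z G ω = 0) (hR0 : R ≠ 0) (hsep : G.Separable) (hG0 : G.coeff 0 ≠ 0) (cY : K)
    (hroots : ∀ α l : AlgebraicClosure K, aeval α R = 0 → aeval l G = 0 →
      α * l = algebraMap K (AlgebraicClosure K) c → α = algebraMap K (AlgebraicClosure K) cY) :
    A ω = cY • ω := by
  classical
  -- the reversed polynomial
  set D := R.natDegree with hD
  set R' : K[X] := ∑ k ∈ Finset.range (D + 1), C (R.coeff k * c ^ k) * X ^ (D - k) with hR'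
  -- `A ^ k Z ^ k ω = c ^ k ω`
  have h1 : ∀ k : ℕ, (A ^ k * Z ^ k) ω = c ^ k • ω := by
    intro k
    induction k with
    | zero => simp
    | succ k ih =>
      have e1 : A ^ (k + 1) * Z ^ (k + 1) = (A ^ k * Z ^ k) * (A * Z) := by
        rw [pow_succ, pow_succ, mul_assoc, mul_assoc]
        congr 1
        rw [← mul_assoc, ← mul_assoc, (hAZ.pow_right k).eq, mul_assoc]
      rw [e1, Module.End.mul_apply, Module.End.mul_apply A Z, h, map_smul, ih, smul_smul, pow_succ,
        mul_comm]
  have h2 : aeval Z R' ω = 0 := by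
    have h3 : aeval Z R' ω = (Z ^ D * aeval A R) ω := by
      conv_rhs => rw [R.as_sum_range' (D + 1) (Nat.lt_succ_self _)]
      rw [hR', map_sum, map_sum, Finset.mul_sum, LinearMap.sum_apply, LinearMap.sum_apply]
      refine Finset.sum_congr rfl fun k hk => ?_
      have hkD : k ≤ D := Nat.lt_succ_iff.1 (Finset.mem_range.1 hk)
      rw [aeval_monomial, map_mul, aeval_C, map_pow, aeval_X]
      rw [map_mul, map_pow, mul_assoc]
      have e2 : Z ^ D = Z ^ (D - k) * Z ^ k := by rw [← pow_add, Nat.sub_add_cancel hkD]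
      have e3 : (Z ^ D * ((algebraMap K (Module.End K W)) (R.coeff k) * A ^ k)) =
          (algebraMap K (Module.End K W)) (R.coeff k) * (Z ^ (D - k) * (A ^ k * Z ^ k)) := by
        rw [← mul_assoc, ← Algebra.commutes, mul_assoc]
        congr 1
        rw [e2, mul_assoc]
        congr 1
        exact ((hAZ.pow_left k).pow_right k).eq.symm
      have e4 : (Z ^ (D - k) * (A ^ k * Z ^ k)) ω = c ^ k • (Z ^ (D - k)) ω := by
        rw [Module.End.mul_apply, h1 k, map_smul]
      rw [e3, Module.End.mul_apply, Module.End.mul_apply, ← map_pow,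
        Module.End.mul_apply ((algebraMap K (Module.End K W)) (R.coeff k)), e4]
      rfl
    rw [h3, Module.End.mul_apply, hR, map_zero]
  -- the gcd
  set E := EuclideanDomain.gcd G R' with hE
  have hEω : aeval Z E ω = 0 := by
    rw [hE, EuclideanDomain.gcd_eq_gcd_ab, map_add, mul_comm G, mul_comm R', map_mul, map_mul,
      LinearMap.add_apply, Module.End.mul_apply, Module.End.mul_apply, hG, h2, map_zero, map_zero,
      add_zero]
  have hEG : E ∣ G := EuclideanDomain.gcd_dvd_left _ _
  have hER : E ∣ R' := EuclideanDomain.gcd_dvd_right _ _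
  have hEsep : E.Separable := hsep.of_dvd hEG
  have hroot : ∀ l : AlgebraicClosure K, aeval l E = 0 →
      ∃ α : AlgebraicClosure K, aeval α R = 0 ∧ aeval l G = 0 ∧
        α * l = algebraMap K (AlgebraicClosure K) c := by
    intro l hl
    have hlG : aeval l G = 0 := by
      obtain ⟨x, hx⟩ := hEG
      rw [hx, map_mul, hl, zero_mul]
    have hlR : aeval l R' = 0 := by
      obtain ⟨x, hx⟩ := hER
      rw [hx, map_mul, hl, zero_mul]
    have hl0 : l ≠ 0 := by
      rintro rfl
      rw [aeval_def, eval₂_at_zero, map_eq_zero] at hlG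
      exact hG0 hlG
    refine ⟨algebraMap K (AlgebraicClosure K) c / l, ?_, hlG, div_mul_cancel₀ _ hl0⟩
    have h4 : aeval l R' = l ^ D * aeval (algebraMap K (AlgebraicClosure K) c / l) R := by
      conv_rhs => rw [R.as_sum_range' (D + 1) (Nat.lt_succ_self _)]
      rw [hR', map_sum, map_sum, Finset.mul_sum]
      refine Finset.sum_congr rfl fun k hk => ?_
      have hkD : k ≤ D := Nat.lt_succ_iff.1 (Finset.mem_range.1 hk)
      rw [aeval_monomial, map_mul, aeval_C, map_pow, aeval_X, map_mul, map_pow, div_pow]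
      have e2 : l ^ D = l ^ (D - k) * l ^ k := by rw [← pow_add, Nat.sub_add_cancel hkD]
      rw [e2]
      field_simp
    rw [hlR] at h4
    exact (mul_eq_zero.1 h4.symm).resolve_left (pow_ne_zero _ hl0)
  by_cases hex : ∃ l : AlgebraicClosure K, aeval l E = 0
  · obtain ⟨l₀, hl₀⟩ := hex
    obtain ⟨α₀, ha, hb, hab⟩ := hroot l₀ hl₀
    have hα₀ := hroots α₀ l₀ ha hb hab
    have hcY : cY ≠ 0 := by
      rintro rfl
      rw [map_zero] at hα₀
      rw [hα₀, zero_mul] at hab
      exact hc ((map_eq_zero _).1 hab.symm)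
    have hdvd : E ∣ X - C (c / cY) := by
      apply dvd_X_sub_C_of_roots hEsep
      intro l hl
      obtain ⟨α, ha, hb, hab⟩ := hroot l hl
      have hα := hroots α l ha hb hab
      rw [map_div₀, ← hab, ← hα, mul_div_cancel_left₀]
      rw [hα]
      exact (_root_.map_ne_zero _).2 hcY
    have h5 : Z ω = (c / cY) • ω := by
      obtain ⟨x, hx⟩ := hdvd
      have h6 : aeval Z (X - C (c / cY)) ω = 0 := by
        rw [hx, mul_comm, map_mul, Module.End.mul_apply, hEω, map_zero]
      rw [map_sub, aeval_X, aeval_C, LinearMap.sub_apply, Module.algebraMap_end_apply,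
        sub_eq_zero] at h6
      exact h6
    rw [h5, map_smul] at h
    have h7 := congrArg (fun z => (cY / c) • z) h
    simp only [smul_smul] at h7
    rw [div_mul_div_cancel₀ hc, div_self hcY, one_smul, div_mul_cancel₀ _ hc] at h7
    exact h7
  · -- `E` is a unit
    have hunit : IsUnit E := by
      rw [Polynomial.isUnit_iff_degree_eq_zero]
      by_contra hdeg
      apply hex
      obtain ⟨l, hl⟩ := IsAlgClosed.exists_aeval_eq_zero (AlgebraicClosure K) E hdeg
      exact ⟨l, hl⟩
    have hω0 : ω = 0 := by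
      obtain ⟨u, hu⟩ := hunit
      have h8 : aeval Z ((↑u⁻¹ : K[X]) * E) ω = 0 := by
        rw [map_mul, Module.End.mul_apply, hEω, map_zero]
      rw [← hu, Units.inv_mul, map_one, Module.End.one_apply] at h8
      exact h8
    rw [hω0, map_zero, smul_zero]

/-- The `n`-th powers of the products of `e` roots of `P` are the roots of a separable polynomial
over `ℚ`. -/
theorem linC {P : ℚ[X]} {S : Type} [Field S] [Algebra ℚ S] [Normal ℚ S] (hP : P ≠ 0) (n e : ℕ) :
    ∃ G : ℚ[X], G.Separable ∧ (G.map (algebraMap ℚ S)).Splits ∧ ∀ l : S, aeval l G = 0 ↔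
      ∃ d : P.rootSet S → ℕ, ∑ x, d x = e ∧ l = (∏ x : P.rootSet S, (x : S) ^ (d x)) ^ n := by
  classical
  set L : Finset S := (Finset.piAntidiag (Finset.univ : Finset (P.rootSet S)) e).image
    fun d => (∏ x : P.rootSet S, (x : S) ^ (d x)) ^ n with hL
  have hmem : ∀ l : S, l ∈ L ↔
      ∃ d : P.rootSet S → ℕ, ∑ x, d x = e ∧ l = (∏ x : P.rootSet S, (x : S) ^ (d x)) ^ n := by
    intro l
    rw [hL, Finset.mem_image]
    constructor
    · rintro ⟨d, hd, rfl⟩
      rw [Finset.mem_piAntidiag] at hd
      exact ⟨d, hd.1, rfl⟩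
    · rintro ⟨d, hd, rfl⟩
      exact ⟨d, Finset.mem_piAntidiag.2 ⟨hd, fun i _ => Finset.mem_univ i⟩, rfl⟩
  have hint : ∀ l : S, IsIntegral ℚ l := fun l => (inferInstance : Normal ℚ S).isIntegral l
  -- `L` is stable
  have hstab : ∀ (σ : S ≃ₐ[ℚ] S), ∀ l ∈ L, σ l ∈ L := by
    intro σ l hl
    rw [hmem] at hl ⊢
    obtain ⟨d, hd, rfl⟩ := hl
    let π : P.rootSet S ≃ P.rootSet S := MulAction.toPerm σ
    refine ⟨fun x => d (π.symm x), ?_, ?_⟩
    · rw [← hd]
      exact Equiv.sum_comp π.symm d
    · rw [map_pow, map_prod]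
      congr 1
      rw [← Equiv.prod_comp π (fun x : P.rootSet S => (x : S) ^ (d (π.symm x)))]
      refine Finset.prod_congr rfl fun x _ => ?_
      rw [Equiv.symm_apply_apply, map_pow]
      rfl
  refine ⟨∏ p ∈ L.image (minpoly ℚ), p, ?_, ?_, ?_⟩
  · apply separable_prod'
    · intro p hp r hr hpr
      obtain ⟨a, _, rfl⟩ := Finset.mem_image.1 hp
      obtain ⟨b, _, rfl⟩ := Finset.mem_image.1 hr
      rw [(minpoly.irreducible (hint a)).coprime_iff_not_dvd]
      intro hdvd
      apply hpr
      exact eq_of_monic_of_associated (minpoly.monic (hint a)) (minpoly.monic (hint b))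
        ((minpoly.irreducible (hint a)).associated_of_dvd (minpoly.irreducible (hint b)) hdvd)
    · intro p hp
      obtain ⟨a, _, rfl⟩ := Finset.mem_image.1 hp
      exact (minpoly.irreducible (hint a)).separable
  · rw [Polynomial.map_prod]
    apply Splits.prod
    intro p hp
    obtain ⟨a, _, rfl⟩ := Finset.mem_image.1 hp
    exact (inferInstance : Normal ℚ S).splits a
  · intro l
    rw [← hmem, map_prod, Finset.prod_eq_zero_iff]
    constructor
    · rintro ⟨p, hp, hl⟩
      obtain ⟨a, ha, rfl⟩ := Finset.mem_image.1 hp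
      obtain ⟨σ, hσ⟩ := minpoly.exists_algEquiv_of_root' (hint a).isAlgebraic hl
      rw [← hσ]
      exact hstab σ a ha
    · intro hl
      exact ⟨minpoly ℚ l, Finset.mem_image_of_mem _ hl, minpoly.aeval ℚ l⟩

/-- The exterior power as a submodule of the exterior algebra. -/
theorem linE {K : Type*} [Field K] {H : Type*} [AddCommGroup H] [Module K H] (f : Module.End K H) (e : ℕ)
    (u : ⋀[K]^e H) : ((exteriorPower.map e f u : ⋀[K]^e H) : ExteriorAlgebra K H) = ExteriorAlgebra.map f u := by
  have h1 : (Submodule.subtype _) ∘ₗ (exteriorPower.map e f : (⋀[K]^e H) →ₗ[K] (⋀[K]^e H)) =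
      (ExteriorAlgebra.map f).toLinearMap ∘ₗ (Submodule.subtype (⋀[K]^e H)) := by
    apply exteriorPower.linearMap_ext
    ext v
    simp only [LinearMap.compAlternatingMap_apply, LinearMap.comp_apply,
      exteriorPower.map_apply_ιMulti, Submodule.subtype_apply, AlgHom.toLinearMap_apply,
      exteriorPower.ιMulti_apply_coe, ExteriorAlgebra.map_apply_ιMulti]
  exact LinearMap.congr_fun h1 u

/-- The eigenvalues of `⋀^e F ^ n`. -/
theorem linD {P T : ℚ[X]} {S : Type} [Field S] [Algebra ℚ S] [IsSplittingField ℚ S T] (hP : P.Separable) (hPT : P ∣ T) (hT : T ≠ 0)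
    (n e : ℕ) (G : ℚ[X])
    (hG : ∀ l : S, (∃ d : P.rootSet S → ℕ, ∑ x, d x = e ∧ l = (∏ x : P.rootSet S, (x : S) ^ (d x)) ^ n) → aeval l G = 0)
    {K : Type} [Field K] [CharZero K] {H : Type} [AddCommGroup H] [Module K H]
    (F : Module.End K H) (hF : aeval F (P.map (algebraMap ℚ K)) = 0) :
    aeval (exteriorPower.map e (F ^ n)) (G.map (algebraMap ℚ K)) = 0 := by
  classical
  obtain ⟨K', hK'1, hK'2, hK'3, hsplitT⟩ : ∃ (K' : Type) (_ : Field K') (_ : Algebra K K')
      (_ : FiniteDimensional K K'), ((T.map (algebraMap ℚ K)).map (algebraMap K K')).Splits :=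
    ⟨(T.map (algebraMap ℚ K)).SplittingField, inferInstance, inferInstance, inferInstance,
      SplittingField.splits _⟩
  have hchar : CharZero K' := charZero_of_injective_algebraMap (algebraMap K K').injective
  have hmap : ∀ P : ℚ[X], P.map (algebraMap ℚ K') =
      (P.map (algebraMap ℚ K)).map (algebraMap K K') := by
    intro P
    rw [Polynomial.map_map]
    congr 1
    exact Subsingleton.elim _ _
  rw [← hmap] at hsplitT
  have hP0 : P ≠ 0 := hP.ne_zero
  let i : S →ₐ[ℚ] K' := IsSplittingField.lift S T hsplitT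
  have hTK : T.map (algebraMap ℚ K') ≠ 0 :=
    (Polynomial.map_ne_zero_iff (algebraMap ℚ K').injective).2 hT
  have hTS : T.map (algebraMap ℚ S) ≠ 0 :=
    (Polynomial.map_ne_zero_iff (algebraMap ℚ S).injective).2 hT
  have hsplit : (P.map (algebraMap ℚ K')).Splits :=
    hsplitT.of_dvd hTK (Polynomial.map_dvd _ hPT)
  have hsplitS : (P.map (algebraMap ℚ S)).Splits :=
    (IsSplittingField.splits S T).of_dvd hTS (Polynomial.map_dvd _ hPT)
  -- `K' ⊗ H` is spanned by eigenvectors
  have hspan : ∀ v : K' ⊗[K] H, v ∈ Submodule.span K' {u : K' ⊗[K] H |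
      ∃ x : P.rootSet S, F.baseChange K' u = (i : S →+* K') x • u} := by
    intro v
    have h2 := span_eigenvectors (F.baseChange K') (P.map (algebraMap ℚ K')) hsplit
      hP.map (by
        rw [hmap, aeval_baseChange, hF, LinearMap.baseChange_zero]) v
    refine Submodule.span_mono ?_ h2
    rintro u ⟨x, hx, hu⟩
    have hx2 : x ∈ P.rootSet K' := by
      rw [rootSet, aroots, Finset.mem_coe, Multiset.mem_toFinset]
      exact hx
    rw [← hsplitS.image_rootSet i] at hx2
    obtain ⟨y, hy, rfl⟩ := hx2
    exact ⟨⟨y, hy⟩, hu⟩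
  -- iteration
  have hiter : ∀ (k : ℕ) (u : ⋀[K]^e H),
      (((exteriorPower.map e (F ^ n)) ^ k) u : ExteriorAlgebra K H) =
        (((ExteriorAlgebra.map (F ^ n)).toLinearMap : Module.End K (ExteriorAlgebra K H)) ^ k)
          (u : ExteriorAlgebra K H) := by
    intro k
    induction k with
    | zero => intro u; simp
    | succ k ih =>
      intro u
      rw [pow_succ, pow_succ, Module.End.mul_apply, Module.End.mul_apply, ih, linE]
      rfl
  apply LinearMap.ext
  intro u
  apply Subtype.ext
  rw [LinearMap.zero_apply, Submodule.coe_zero]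
  have h1 : ((aeval (exteriorPower.map e (F ^ n)) (G.map (algebraMap ℚ K)) u : ⋀[K]^e H) :
      ExteriorAlgebra K H) = aeval ((ExteriorAlgebra.map (F ^ n)).toLinearMap :
        Module.End K (ExteriorAlgebra K H)) (G.map (algebraMap ℚ K)) (u : ExteriorAlgebra K H) := by
    generalize G.map (algebraMap ℚ K) = g
    induction g using Polynomial.induction_on' with
    | add p q hp hq =>
      rw [map_add, LinearMap.add_apply, Submodule.coe_add, hp, hq, map_add, LinearMap.add_apply]
    | monomial k a =>
      rw [aeval_monomial, aeval_monomial, Module.End.mul_apply, Module.End.mul_apply,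
        Module.algebraMap_end_apply, Module.algebraMap_end_apply, Submodule.coe_smul, hiter]
  rw [h1]
  -- base change
  have hinj : Function.Injective (fun x : ExteriorAlgebra K H => (1 : K') ⊗ₜ[K] x) := by
    intro x y hxy
    exact Algebra.TensorProduct.includeRight_injective (algebraMap K K').injective hxy
  apply hinj
  change (1 : K') ⊗ₜ[K] _ = (1 : K') ⊗ₜ[K] (0 : ExteriorAlgebra K H)
  rw [TensorProduct.tmul_zero]
  have hiter2 : ∀ (k : ℕ) (x : ExteriorAlgebra K H),
      (1 : K') ⊗ₜ[K] (((ExteriorAlgebra.map (F ^ n)).toLinearMap :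
        Module.End K (ExteriorAlgebra K H)) ^ k) x =
      (((extMap K K' (F ^ n)).toLinearMap : Module.End K' (K' ⊗[K] ExteriorAlgebra K H)) ^ k)
        ((1 : K') ⊗ₜ[K] x) := by
    intro k
    induction k with
    | zero => intro x; simp
    | succ k ih =>
      intro x
      rw [pow_succ, pow_succ, Module.End.mul_apply, Module.End.mul_apply, ih]
      rfl
  have h2 : (1 : K') ⊗ₜ[K] (aeval ((ExteriorAlgebra.map (F ^ n)).toLinearMap :
        Module.End K (ExteriorAlgebra K H)) (G.map (algebraMap ℚ K)) (u : ExteriorAlgebra K H)) =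
      aeval ((extMap K K' (F ^ n)).toLinearMap : Module.End K' (K' ⊗[K] ExteriorAlgebra K H))
        (G.map (algebraMap ℚ K')) ((1 : K') ⊗ₜ[K] (u : ExteriorAlgebra K H)) := by
    rw [hmap]
    generalize G.map (algebraMap ℚ K) = g
    induction g using Polynomial.induction_on' with
    | add p q hp hq =>
      rw [map_add, LinearMap.add_apply, TensorProduct.tmul_add, hp, hq, Polynomial.map_add,
        map_add, LinearMap.add_apply]
    | monomial k a =>
      rw [Polynomial.map_monomial, aeval_monomial, aeval_monomial, Module.End.mul_apply,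
        Module.End.mul_apply, Module.algebraMap_end_apply, Module.algebraMap_end_apply,
        ← hiter2, TensorProduct.tmul_smul, algebraMap_smul]
  rw [h2]
  -- evaluate on the products of eigenvectors
  have h3 := one_tmul_mem_span F P (i : S →+* K') hspan e u u.2
  generalize (1 : K') ⊗ₜ[K] (u : ExteriorAlgebra K H) = w at h3 ⊢
  induction h3 using Submodule.span_induction with
  | zero => rw [map_zero]
  | add x y _ _ hx hy => rw [map_add, hx, hy, add_zero]
  | smul c x _ hx => rw [map_smul, hx, smul_zero]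
  | mem x hx =>
    obtain ⟨⟨l, hl, hl2⟩, rfl⟩ := hx
    have h4 := extMap_list F (i : S →+* K') n l hl2
    set μ : K' := ((i : S →+* K') (l.map fun p => (p.2 : S)).prod) ^ n with hμ
    have h5 : ∀ k : ℕ, (((extMap K K' (F ^ n)).toLinearMap :
        Module.End K' (K' ⊗[K] ExteriorAlgebra K H)) ^ k) (l.map Prod.fst).prod =
          μ ^ k • (l.map Prod.fst).prod := by
      intro k
      induction k with
      | zero => simp
      | succ k ih =>
        rw [pow_succ, Module.End.mul_apply, AlgHom.toLinearMap_apply, h4, map_smul, ih, smul_smul,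
          pow_succ, mul_comm]
    have h6 : aeval ((extMap K K' (F ^ n)).toLinearMap :
        Module.End K' (K' ⊗[K] ExteriorAlgebra K H)) (G.map (algebraMap ℚ K'))
          (l.map Prod.fst).prod = (aeval μ (G.map (algebraMap ℚ K'))) • (l.map Prod.fst).prod := by
      generalize G.map (algebraMap ℚ K') = g
      induction g using Polynomial.induction_on' with
      | add p q hp hq => rw [map_add, LinearMap.add_apply, hp, hq, map_add, add_smul]
      | monomial k a =>
        rw [aeval_monomial, Module.End.mul_apply, h5, Module.algebraMap_end_apply, aeval_monomial,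
          smul_smul]
        rfl
    dsimp only
    rw [h6]
    have h7 : aeval μ (G.map (algebraMap ℚ K')) = 0 := by
      rw [aeval_map_algebraMap]
      have h8 : μ = i (((l.map fun p => (p.2 : S)).prod) ^ n) := by
        rw [hμ, map_pow]; rfl
      rw [h8, aeval_algHom_apply, hG, map_zero]
      have h9 := sum_count_fintype (l.map Prod.snd)
      have h10 := prod_list_fintype (fun x : P.rootSet S => (x : S)) (l.map Prod.snd)
      rw [List.length_map, hl] at h9
      rw [List.map_map] at h10
      refine ⟨_, h9.symm, ?_⟩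
      exact congrArg (fun z => z ^ n) h10
    rw [h7, zero_smul]

end Pool.Agent.Lib.MP_021685_agG
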