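import Mathlib
import Pool.Agent.Lib.MP_021685_agD.Rel

/-!
# Relations with foreign numbers

Let `S` be a finite Galois extension of `ℚ` which contains the roots of `R` and suppose that the
Galois group contains the sign changes of `R`. We show that a multiplicative relation between the
roots of `R` and numbers `b`, such that `x` and `q / x` are conjugate over `ℚ(b)` for every root
`x` of `R`, is trivial. The proof uses the operator
`z ↦ ∏ s, s z ^ ε s`, where `s` runs through the automorphisms that stabilise the pair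
`{x, q / x}` and `ε s = ± 1` is the sign of the permutation.
-/

set_option autoImplicit false

open Polynomial Pool.Agent.Lib.MP_021685_agD

namespace Pool.Agent.Lib.MP_021685_agG

section operator

variable {S : Type*} [Field S] [Algebra ℚ S] [FiniteDimensional ℚ S]

open Classical in
/-- The automorphisms that map `x` to `x` or `y`. -/
noncomputable def pairStab (x y : S) : Finset (S ≃ₐ[ℚ] S) :=
  Finset.univ.filter fun s => s x = x ∨ s x = y

open Classical in
/-- The sign. -/
noncomputable def pairSgn (x : S) (s : S ≃ₐ[ℚ] S) : ℤ := if s x = x then 1 else -1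

/-- The operator. -/
noncomputable def pairOp (x y : S) : S →* S where
  toFun z := ∏ s ∈ pairStab x y, s z ^ pairSgn x s
  map_one' := by simp
  map_mul' a b := by
    simp only [map_mul, mul_zpow, Finset.prod_mul_distrib]

theorem pairOp_apply (x y z : S) :
    pairOp x y z = ∏ s ∈ pairStab x y, s z ^ pairSgn x s := rfl

theorem mem_pairStab {x y : S} {s : S ≃ₐ[ℚ] S} : s ∈ pairStab x y ↔ s x = x ∨ s x = y := by
  simp [pairStab]

theorem pairOp_ne_zero (x y : S) {z : S} (hz : z ≠ 0) : pairOp x y z ≠ 0 := by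
  rw [pairOp_apply]
  exact Finset.prod_ne_zero_iff.2 fun s _ => zpow_ne_zero _ (by rwa [Ne, map_eq_zero])

omit [FiniteDimensional ℚ S] in
theorem swap_of_map {q : ℕ} {x y : S} (hx : x ≠ 0) (hxy : x * y = q) {s : S ≃ₐ[ℚ] S}
    (h : s x = y) : s y = x := by
  have hy : y ≠ 0 := by
    rw [← h, Ne, map_eq_zero]
    exact hx
  have h1 : s x * s y = x * y := by rw [← map_mul, hxy, map_natCast]
  rw [h] at h1
  apply mul_left_cancel₀ hy
  rw [h1, mul_comm]

omit [FiniteDimensional ℚ S] in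
theorem fix_of_map {q : ℕ} {x y : S} (hx : x ≠ 0) (hxy : x * y = q) {s : S ≃ₐ[ℚ] S}
    (h : s x = x) : s y = y := by
  have h1 : s x * s y = x * y := by rw [← map_mul, hxy, map_natCast]
  rw [h] at h1
  exact mul_left_cancel₀ hx h1

theorem pairSgn_mul {q : ℕ} {x y : S} (hx : x ≠ 0) (hxy : x * y = q) (hne : x ≠ y)
    {s h : S ≃ₐ[ℚ] S} (hs : s ∈ pairStab x y) (hh : h ∈ pairStab x y) :
    s * h ∈ pairStab x y ∧ pairSgn x (s * h) = pairSgn x s * pairSgn x h := by
  rw [mem_pairStab] at hs hh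
  rcases hh with hh | hh <;> rcases hs with hs | hs
  · have h1 : (s * h) x = x := by rw [AlgEquiv.mul_apply, hh, hs]
    exact ⟨mem_pairStab.2 (Or.inl h1), by simp [pairSgn, hh, hs, h1]⟩
  · have h1 : (s * h) x = y := by rw [AlgEquiv.mul_apply, hh, hs]
    exact ⟨mem_pairStab.2 (Or.inr h1), by simp [pairSgn, hh, hs, h1, hne.symm]⟩
  · have h1 : (s * h) x = y := by rw [AlgEquiv.mul_apply, hh, fix_of_map hx hxy hs]
    exact ⟨mem_pairStab.2 (Or.inr h1), by simp [pairSgn, hh, hs, h1, hne.symm]⟩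
  · have h1 : (s * h) x = x := by rw [AlgEquiv.mul_apply, hh, swap_of_map hx hxy hs]
    exact ⟨mem_pairStab.2 (Or.inl h1), by simp [pairSgn, hh, hs, h1, hne.symm]⟩

theorem inv_mem_pairStab {q : ℕ} {x y : S} (hx : x ≠ 0) (hxy : x * y = q)
    {h : S ≃ₐ[ℚ] S} (hh : h ∈ pairStab x y) : h⁻¹ ∈ pairStab x y := by
  rw [mem_pairStab] at hh ⊢
  rcases hh with hh | hh
  · left
    change h.symm x = x
    rw [AlgEquiv.symm_apply_eq, hh]
  · right
    change h.symm x = y
    rw [AlgEquiv.symm_apply_eq, swap_of_map hx hxy hh]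

omit [FiniteDimensional ℚ S] in
theorem pairSgn_sq (x : S) (s : S ≃ₐ[ℚ] S) : pairSgn x s * pairSgn x s = 1 := by
  unfold pairSgn
  split_ifs <;> norm_num

/-- The operator changes by the sign under substitution. -/
theorem pairOp_comp {q : ℕ} {x y : S} (hx : x ≠ 0) (hxy : x * y = q) (hne : x ≠ y)
    {h : S ≃ₐ[ℚ] S} (hh : h ∈ pairStab x y) (z : S) :
    pairOp x y (h z) = pairOp x y z ^ pairSgn x h := by
  rw [pairOp_apply, pairOp_apply, ← Finset.prod_zpow]
  refine Finset.prod_nbij' (fun s => s * h) (fun s => s * h⁻¹) ?_ ?_ ?_ ?_ ?_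
  · intro s hs
    exact (pairSgn_mul hx hxy hne hs hh).1
  · intro s hs
    exact (pairSgn_mul hx hxy hne hs (inv_mem_pairStab hx hxy hh)).1
  · intro s _
    exact mul_inv_cancel_right s h
  · intro s _
    exact inv_mul_cancel_right s h
  · intro s hs
    rw [AlgEquiv.mul_apply, (pairSgn_mul hx hxy hne hs hh).2, ← zpow_mul, mul_assoc, pairSgn_sq,
      mul_one]

theorem pairOp_sq_of_flip {q : ℕ} {x y : S} (hx : x ≠ 0) (hxy : x * y = q) (hne : x ≠ y)
    {h : S ≃ₐ[ℚ] S} (hh : h x = y) {z : S} (hz : z ≠ 0) (hhz : h z = z) :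
    pairOp x y z ^ 2 = 1 := by
  have h1 := pairOp_comp hx hxy hne (mem_pairStab.2 (Or.inr hh)) z
  have h2 : pairSgn x h = -1 := by
    unfold pairSgn
    rw [if_neg]
    rw [hh]
    exact hne.symm
  rw [hhz, h2, zpow_neg_one] at h1
  have h3 := pairOp_ne_zero x y hz
  rw [pow_two]
  nth_rewrite 2 [h1]
  exact mul_inv_cancel₀ h3

theorem pairOp_self {q : ℕ} {x y : S} (hx : x ≠ 0) (hxy : x * y = q) :
    pairOp x y (x / y) = (x / y) ^ (pairStab x y).card := by
  rw [pairOp_apply, ← Finset.prod_const]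
  refine Finset.prod_congr rfl fun s hs => ?_
  rw [mem_pairStab] at hs
  by_cases h : s x = x
  · rw [map_div₀, h, fix_of_map hx hxy h]
    simp [pairSgn, h]
  · have h2 : s x = y := hs.resolve_left h
    rw [map_div₀, h2, swap_of_map hx hxy h2]
    simp [pairSgn, h]

/-- **Relations with foreign numbers are trivial.** -/
theorem eq_of_relation {q : ℕ} (hq : q ≠ 0) {R : ℚ[X]}
    (bar : R.rootSet S → R.rootSet S)
    (hmul : ∀ x : R.rootSet S, (x : S) * (bar x : S) = q)
    (hT : ∀ x ∈ R.rootSet S, ∃ σ, SignChange q R x σ)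
    (hNU : ∀ x ∈ R.rootSet S, ∀ n : ℕ, n ≠ 0 → x ^ (2 * n) ≠ (q : S) ^ n)
    (s : Multiset S) (hs0 : ∀ b ∈ s, b ≠ 0)
    (hs : ∀ b ∈ s, ∀ x ∈ R.rootSet S, ∃ h : S ≃ₐ[ℚ] S, h b = b ∧ x * h x = q)
    (d : R.rootSet S → ℕ) (m N : ℕ) (hm : m ≠ 0)
    (hrel : s.prod * (∏ x : R.rootSet S, (x : S) ^ (d x)) ^ m = (q : S) ^ N)
    (x : R.rootSet S) : d x = d (bar x) := by
  classical
  have hchar : CharZero S := charZero_of_injective_algebraMap (algebraMap ℚ S).injective
  have hq0 : (q : S) ≠ 0 := by exact_mod_cast hq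
  have hne : ∀ x : R.rootSet S, (x : S) ≠ 0 := by
    intro x hx
    apply hq0
    rw [← hmul x, hx, zero_mul]
  set X : S := (x : S) with hX
  set Y : S := (bar x : S) with hY
  have hX0 : X ≠ 0 := hne x
  have hY0 : Y ≠ 0 := hne (bar x)
  have hXY : X * Y = q := hmul x
  obtain ⟨σ, hσ1, hσ2, hσ3⟩ := hT X x.2
  have hσX : σ X = Y := mul_left_cancel₀ hX0 (hσ1.trans hXY.symm)
  have hXneY : X ≠ Y := by
    rw [← hσX]
    exact hσ2.symm
  set B := pairOp X Y with hB
  have hBq : B (q : S) ^ 2 = 1 :=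
    pairOp_sq_of_flip hX0 hXY hXneY hσX hq0 (map_natCast σ q)
  have hBs : B s.prod ^ 2 = 1 := by
    have key : ∀ t : Multiset S, (∀ b ∈ t, b ∈ s) → B t.prod ^ 2 = 1 := by
      intro t
      induction t using Multiset.induction_on with
      | empty => intro _; simp
      | cons a t ih =>
        intro ht
        rw [Multiset.prod_cons, map_mul, mul_pow, ih fun b hb => ht b (Multiset.mem_cons_of_mem hb),
          mul_one]
        have ha := ht a (Multiset.mem_cons_self a t)
        obtain ⟨h, h1, h2⟩ := hs a ha X x.2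
        have h3 : h X = Y := mul_left_cancel₀ hX0 (h2.trans hXY.symm)
        exact pairOp_sq_of_flip hX0 hXY hXneY h3 (hs0 a ha) h1
    exact key s fun b hb => hb
  have hBz : ∀ z : R.rootSet S, z ≠ x → z ≠ bar x → B (z : S) ^ 4 = 1 := by
    intro z hzx hzb
    obtain ⟨τ, hτ1, hτ2, hτ3⟩ := hT z z.2
    have h1 : τ X = X := by
      apply hτ3 X x.2
      · intro h
        exact hzx (Subtype.ext h.symm)
      · intro h
        apply hzb
        apply Subtype.ext
        apply mul_right_cancel₀ hX0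
        change (z : S) * X = Y * X
        rw [h, mul_comm Y X, hXY]
    have h2 : τ (z : S) = (bar z : S) := mul_left_cancel₀ (hne z) (hτ1.trans (hmul z).symm)
    have h3 := pairOp_comp hX0 hXY hXneY (mem_pairStab.2 (Or.inl h1)) (z : S)
    have h4 : pairSgn X τ = 1 := by
      unfold pairSgn
      rw [if_pos h1]
    rw [h4, zpow_one, h2] at h3
    have h5 : B (z : S) * B (bar z : S) = B (q : S) := by rw [← map_mul, hmul]
    have h6 : B (bar z : S) = B (z : S) := h3
    rw [h6] at h5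
    have h7 : B (z : S) ^ 4 = (B (z : S) * B (z : S)) ^ 2 := by ring
    rw [h7, h5, hBq]
  have hBY : B Y = (B X)⁻¹ := by
    have h3 := pairOp_comp hX0 hXY hXneY (mem_pairStab.2 (Or.inr hσX)) X
    have h4 : pairSgn X σ = -1 := by
      unfold pairSgn
      rw [if_neg hσ2]
    rw [h4, zpow_neg_one, hσX] at h3
    exact h3
  have hBX0 : B X ≠ 0 := pairOp_ne_zero X Y hX0
  -- apply the operator to the relation
  have h1 : (B X ^ (d x) * B Y ^ (d (bar x))) ^ (4 * m) = 1 := by
    have hbx : bar x ≠ x := by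
      intro h
      apply hXneY
      rw [hX, hY, h]
    have h2 := congrArg (fun z => B z ^ 4) hrel
    simp only [map_mul, map_pow] at h2
    have h3 : B (∏ x : R.rootSet S, (x : S) ^ (d x)) ^ 4 =
        (B X ^ (d x) * B Y ^ (d (bar x))) ^ 4 := by
      rw [map_prod, ← Finset.mul_prod_erase Finset.univ _ (Finset.mem_univ x),
        ← Finset.mul_prod_erase (Finset.univ.erase x) _
          (Finset.mem_erase.2 ⟨hbx, Finset.mem_univ (bar x)⟩), ← mul_assoc, mul_pow,
        ← Finset.prod_pow]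
      have h4 : ∏ z ∈ (Finset.univ.erase x).erase (bar x), B ((z : S) ^ (d z)) ^ 4 = 1 := by
        refine Finset.prod_eq_one fun z hz => ?_
        rw [Finset.mem_erase, Finset.mem_erase] at hz
        rw [map_pow, ← pow_mul, mul_comm, pow_mul, hBz z hz.2.1 hz.1, one_pow]
      rw [h4, mul_one, map_pow, map_pow]
    have h5 : (B s.prod * B (∏ x : R.rootSet S, (x : S) ^ (d x)) ^ m) ^ 4 =
        (B X ^ (d x) * B Y ^ (d (bar x))) ^ (4 * m) := by
      have h6 : B s.prod ^ 4 = 1 := by
        have h7 : B s.prod ^ 4 = (B s.prod ^ 2) ^ 2 := by ring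
        rw [h7, hBs, one_pow]
      rw [mul_pow, h6, one_mul, ← pow_mul, mul_comm m 4, pow_mul, h3, ← pow_mul]
    rw [← h5, h2, ← pow_mul, mul_comm N 4]
    have h6 : B (q : S) ^ (4 * N) = (B (q : S) ^ 2) ^ (2 * N) := by
      rw [← pow_mul]
      congr 1
      ring
    rw [h6, hBq, one_pow]
  by_contra hd
  set k : ℤ := (d x : ℤ) - d (bar x) with hk
  have hk0 : k ≠ 0 := by
    intro h
    apply hd
    omega
  have h2 : B X ^ (k * (4 * m : ℕ)) = 1 := by
    rw [zpow_mul, zpow_natCast]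
    have h3 : B X ^ k = B X ^ (d x) * B Y ^ (d (bar x)) := by
      rw [hk, zpow_sub₀ hBX0, zpow_natCast, zpow_natCast, hBY, inv_pow, div_eq_mul_inv]
    rw [h3, h1]
  have h3 : B (X / Y) = B X ^ 2 := by
    have h4 : B (X / Y) * B Y = B X := by rw [← map_mul, div_mul_cancel₀ _ hY0]
    rw [hBY, ← div_eq_mul_inv, div_eq_iff hBX0] at h4
    rw [h4, pow_two]
  have h4 : (X / Y) ^ ((pairStab X Y).card * (k * (4 * m : ℕ))) = 1 := by
    rw [zpow_mul, zpow_natCast, ← pairOp_self hX0 hXY]
    change B (X / Y) ^ (k * (4 * m : ℕ)) = 1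
    rw [h3, ← zpow_natCast (B X) 2, ← zpow_mul, mul_comm ((2 : ℕ) : ℤ), zpow_mul, h2, one_zpow]
  have hcard : (pairStab X Y).card ≠ 0 := by
    rw [Finset.card_ne_zero]
    exact ⟨1, mem_pairStab.2 (Or.inl rfl)⟩
  set M : ℤ := (pairStab X Y).card * (k * (4 * m : ℕ)) with hM
  have hM0 : M ≠ 0 := by
    rw [hM]
    refine mul_ne_zero (by exact_mod_cast hcard) (mul_ne_zero hk0 ?_)
    have : 4 * m ≠ 0 := by omega
    exact_mod_cast this
  have h5 : (X / Y) ^ M.natAbs = 1 := by
    rcases Int.natAbs_eq M with h | h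
    · rw [h, zpow_natCast] at h4
      exact h4
    · rw [h, zpow_neg, zpow_natCast, inv_eq_one] at h4
      exact h4
  apply hNU X x.2 M.natAbs (Int.natAbs_ne_zero.2 hM0)
  rw [div_pow, div_eq_one_iff_eq (pow_ne_zero _ hY0)] at h5
  rw [two_mul, pow_add]
  nth_rewrite 2 [h5]
  rw [← mul_pow, hXY]

end operator

end Pool.Agent.Lib.MP_021685_agG
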