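import Mathlib
import Pool.Agent.Lib.MP_021685_agD.Defs

/-!
# Tate classes on products with an arbitrary smooth projective variety
-/

set_option autoImplicit false

open Polynomial Pool.Agent.Lib.MP_021685_agD

open scoped TensorProduct

namespace Pool.Agent.Lib.MP_021685_agG

/-- The field generated by the complex roots of `P`. -/
noncomputable def rootField (P : ℤ[X]) : IntermediateField ℚ ℂ :=
  IntermediateField.adjoin ℚ {z : ℂ | aeval z P = 0}

/-- All the members of the family `P` are in `𝒢`, and they have pairwise different splitting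
fields. -/
def AllIn (𝒢 : Set ℤ[X]) {r : ℕ} (P : Fin r → ℤ[X]) : Prop :=
  (∀ k, P k ∈ 𝒢) ∧ ∀ k l, k ≠ l → rootField (P k) ≠ rootField (P l)

/-- The algebraic number `b` is foreign to `P`: its degree is smaller than the degree of `P`, or
`P` does not split over the normal closure of `ℚ(b)` (the field generated by the conjugates of
`b`). -/
def Foreign (P : ℤ[X]) (b : ℂ) : Prop :=
  IsAlgebraic ℚ b ∧ ((minpoly ℚ b).natDegree < P.natDegree ∨
    ¬ rootField P ≤ IntermediateField.adjoin ℚ {z : ℂ | aeval z (minpoly ℚ b) = 0})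

/-- `R ≠ 0`, and every complex root of `R` is a product (of any number of factors) of algebraic
numbers which are foreign to all the `P k`. -/
def RootsForeign {r : ℕ} (P : Fin r → ℤ[X]) (R : ℤ[X]) : Prop :=
  R ≠ 0 ∧ ∀ z : ℂ, aeval z R = 0 →
    ∃ s : Multiset ℂ, s.prod = z ∧ ∀ b ∈ s, ∀ k, Foreign (P k) b

section

variable {K : Type} [Field K] {V : Type} [AddCommGroup V] [Module K V] {H : Type}
  [AddCommGroup H] [Module K H]

/-- The products `v ⊗ u` such that `FY v = Q ^ a * v` with `i = 2 * a` and `u` is a polynomial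
in elements of the exterior square of `H` which are multiplied by `q` by `F`. -/
def productClasses (q Q : ℕ) (FY : Module.End K V) (F : Module.End K H) (i e : ℕ) :
    Set (V ⊗[K] (⋀[K]^e H)) :=
  {ω | ∃ (v : V) (u : ⋀[K]^e H) (a : ℕ), i = 2 * a ∧ FY v = (Q : K) ^ a • v ∧
    (u : ExteriorAlgebra K H) ∈ Algebra.adjoin K (tateClasses q F 1 1) ∧ ω = v ⊗ₜ[K] u}

/-- Every element of `V ⊗ ⋀^e H` with `i + e = 2 * j` which is multiplied by `q ^ (n * j)` by
`FY ⊗ ⋀^e F ^ n` is a sum of products of classes on the two factors. (`V` is the cohomology in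
degree `i` of a smooth projective variety `Y` over the field with `q ^ n` elements, `H` the first
cohomology of an abelian variety over the field with `q` elements.) -/
def SumsOfProducts (q n i : ℕ) (FY : Module.End K V) (F : Module.End K H) : Prop :=
  ∀ (e j : ℕ) (ω : V ⊗[K] (⋀[K]^e H)), i + e = 2 * j →
    TensorProduct.map FY (exteriorPower.map e (F ^ n)) ω = (q : K) ^ (n * j) • ω →
    ω ∈ Submodule.span K (productClasses q (q ^ n) FY F i e)

end

/-- `SumsOfProducts` whenever `n ≠ 0`, `FY` is killed by an `R` with `RootsForeign P R` and `F`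
is killed by the product of the `P k`. -/
def AddsNothing {r : ℕ} (q : ℕ) (P : Fin r → ℤ[X]) : Prop :=
  ∀ (n i : ℕ) (R : ℤ[X]), n ≠ 0 → RootsForeign P R →
    ∀ (K : Type) [Field K] [CharZero K] (V : Type) [AddCommGroup V] [Module K V]
      (H : Type) [AddCommGroup H] [Module K H] (FY : Module.End K V) (F : Module.End K H),
      IsKilledBy FY R → IsKilledBy F (∏ k, P k) → SumsOfProducts q n i FY F

/-- The families in the closed strata which are not `AllIn 𝒢` or have a member which splits
over the (arbitrary) number field `L`. -/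
def badFamilies (𝒢 : Set ℤ[X]) (L : IntermediateField ℚ ℂ) {r : ℕ} (g : Fin r → ℕ) (p q : ℕ)
    (E : (i : Fin r) → Fin (g i) → ℕ) : Set (Fin r → ℤ[X]) :=
  {P | P ∈ closedFamilies g p q E ∧ ¬ (AllIn 𝒢 P ∧ ∀ k, ¬ rootField (P k) ≤ L)}

end Pool.Agent.Lib.MP_021685_agG
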