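import Mathlib
import Pool.Agent.Lib.MP_021685_agD.Alg

/-!
# Sign changes and cycles in a Galois extension containing all the roots
-/

set_option autoImplicit false

open Polynomial NumberField Pool.Agent.Lib.MP_021685_ag Pool.Agent.Lib.MP_021685_agD

namespace Pool.Agent.Lib.MP_021685_agG

theorem haev {A : Type*} [Ring A] [Algebra ℚ A] (x : A) (p : ℤ[X]) :
    aeval x (p.map (Int.castRingHom ℚ)) = aeval x p :=
  aeval_map_algebraMap ℚ x p

theorem mem_rootSet_iff {p : ℤ[X]} (hp : p ≠ 0) {S : Type*} [Field S] [CharZero S] [Algebra ℚ S]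
    (x : S) : x ∈ (p.map (Int.castRingHom ℚ)).rootSet S ↔ aeval x p = 0 := by
  rw [mem_rootSet, haev]
  refine ⟨fun h => h.2, fun h => ⟨?_, h⟩⟩
  rwa [Ne, Polynomial.map_eq_zero_iff Int.cast_injective]

theorem signs {ι : Type} [Fintype ι] [DecidableEq ι] {q : ℕ} (hq : q ≠ 0)
    (g : ι → ℕ) (hg : ∀ i, g i ≠ 0) (P : ι → ℤ[X]) (hP : ∀ i, P i ∈ weilPolys (g i) q)
    (hcyc : ∀ i, ∃ l : ℕ, l.Prime ∧ ¬ l ∣ q ∧ CycleAt q (g i) (P i) l)
    (h1 : ∀ i, g i = 1 → ∀ k : ℕ, k ≤ 4 → (P i).coeff 1 ^ 2 ≠ k * q)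
    (hgood : ∀ i₀, ∃ l : ℕ, l.Prime ∧ l ≠ 2 ∧ ¬ l ∣ q ∧ GoodAt q P i₀ l)
    (S : Type) [Field S] [NumberField S] [IsGalois ℚ S]
    (hspl : ((∏ i, (P i).map (Int.castRingHom ℚ)).map (algebraMap ℚ S)).Splits)
    (e : S →ₐ[ℚ] ℂ) :
    (∏ i, (P i).map (Int.castRingHom ℚ)).Separable ∧
    (∀ i, ∃ τ : S ≃ₐ[ℚ] S, ∀ x y : S, aeval x (P i) = 0 → aeval y (P i) = 0 →
      ∃ n : ℕ, (τ ^ n) x = y ∨ (τ ^ n) x * y = q) ∧
    (∀ x ∈ (∏ i, (P i).map (Int.castRingHom ℚ)).rootSet S,
      ∃ σ, SignChange q (∏ i, (P i).map (Int.castRingHom ℚ)) x σ) ∧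
    (∀ x ∈ (∏ i, (P i).map (Int.castRingHom ℚ)).rootSet S, ∀ n : ℕ, n ≠ 0 →
      x ^ (2 * n) ≠ (q : S) ^ n) := by
  classical
  have hmon : ∀ i, (P i).Monic := fun i => (hP i).1
  set R : ℤ[X] := ∏ i, P i with hR
  have hRmon : R.Monic := monic_prod_of_monic _ _ fun i _ => hmon i
  -- separability
  have hsep : (R.map (Int.castRingHom ℚ)).Separable := by
    by_cases hι : IsEmpty ι
    · have : R = 1 := by rw [hR, Finset.univ_eq_empty, Finset.prod_empty]
      rw [this, Polynomial.map_one]
      exact separable_one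
    · rw [not_isEmpty_iff] at hι
      obtain ⟨i₀⟩ := hι
      obtain ⟨l, hl, -, hql, T, hT1, hT2, hT3, -⟩ := hgood i₀
      have : Fact l.Prime := ⟨hl⟩
      exact separable_of_squarefree_map (k := ZMod l) hRmon
        (map_prod_squarefree P hql T hT1 hT2 hT3 (RingHom.id _))
  have hmapR : ∏ i, (P i).map (Int.castRingHom ℚ) = R.map (Int.castRingHom ℚ) := by
    rw [hR, Polynomial.map_prod]
  have haev : ∀ (A : Type) [Ring A] [Algebra ℚ A] (x : A) (p : ℤ[X]),
      aeval x (p.map (Int.castRingHom ℚ)) = aeval x p := by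
    intro A _ _ x p
    exact aeval_map_algebraMap ℚ x p
  have hneQ : ∀ i, (P i).map (Int.castRingHom ℚ) ≠ 0 := fun i => ((hmon i).map _).ne_zero
  have hW : ∀ i, ∀ z : ℂ, aeval z ((P i).map (Int.castRingHom ℚ)) = 0 → ‖z‖ ^ 2 = q := by
    intro i z hz
    rw [haev] at hz
    exact (hP i).2.2.2 z hz
  have hWR : ∀ z : ℂ, aeval z (R.map (Int.castRingHom ℚ)) = 0 → ‖z‖ ^ 2 = q := by
    intro z hz
    rw [← hmapR, map_prod, Finset.prod_eq_zero_iff] at hz
    obtain ⟨i, -, hi⟩ := hz
    exact hW i z hi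
  have hRne : R.map (Int.castRingHom ℚ) ≠ 0 := hsep.ne_zero
  have hroot : ∀ x : S, x ∈ (R.map (Int.castRingHom ℚ)).rootSet S ↔ ∃ i, aeval x (P i) = 0 := by
    intro x
    rw [mem_rootSet, ← hmapR, map_prod, Finset.prod_eq_zero_iff]
    constructor
    · rintro ⟨-, i, -, hi⟩
      exact ⟨i, by rwa [haev] at hi⟩
    · rintro ⟨i, hi⟩
      refine ⟨by rw [hmapR]; exact hRne, i, Finset.mem_univ i, by rw [haev]; exact hi⟩
  have hbar : ∀ x : S, (∃ i, aeval x (P i) = 0) → ∃ i, aeval ((q : S) / x) (P i) = 0 := by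
    intro x hx
    rw [← hroot] at hx ⊢
    exact div_mem_rootSet hRne hq hWR e hx
  have hroot_i : ∀ i, ∀ x : S, x ∈ ((P i).map (Int.castRingHom ℚ)).rootSet S ↔
      aeval x (P i) = 0 := by
    intro i x
    rw [mem_rootSet, haev]
    exact ⟨fun h => h.2, fun h => ⟨hneQ i, h⟩⟩
  have hcyc' : ∀ i, ∃ τ : S ≃ₐ[ℚ] S, ∀ x y : S, aeval x (P i) = 0 → aeval y (P i) = 0 →
      ∃ n : ℕ, (τ ^ n) x = y ∨ (τ ^ n) x * y = q := by
    intro i
    obtain ⟨l, hl, hql, hc⟩ := hcyc i
    have : Fact l.Prime := ⟨hl⟩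
    exact exists_cycle hq (P i) (hmon i) hql hc S (by
      intro x hx
      rw [← hroot_i] at hx ⊢
      exact div_mem_rootSet (hneQ i) hq (hW i) e hx)
  have hT : ∀ i, ∃ x : S, aeval x (P i) = 0 ∧
      ∃ σ, SignChange q (R.map (Int.castRingHom ℚ)) x σ := by
    intro i₀
    obtain ⟨l, hl, hl2, hql, T, hT1, hT2, hT3, t₀, ht₀, hns, hsq⟩ := hgood i₀
    have : Fact l.Prime := ⟨hl⟩
    have hsplit : ((P i₀).map (Int.castRingHom S)).Splits := by
      have h3 : (R.map (Int.castRingHom S)).Splits := by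
        have h4 := hspl
        rw [hmapR, Polynomial.map_map] at h4
        have h5 : (algebraMap ℚ S).comp (Int.castRingHom ℚ) = Int.castRingHom S :=
          Subsingleton.elim _ _
        rwa [h5] at h4
      refine Splits.of_dvd h3 (hRmon.map _).ne_zero ?_
      exact Polynomial.map_dvd _ (Finset.dvd_prod_of_mem P (Finset.mem_univ i₀))
    obtain ⟨x, hx, σ, hσ1, hσ2, hσ3⟩ := exists_signChange hq P hmon hl2 hql T hT1 hT2 hT3 i₀ t₀
      ht₀ hns hsq S hsplit hbar
    refine ⟨x, hx, σ, hσ1, hσ2, ?_⟩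
    intro y hy hyx hxy
    rw [hroot] at hy
    exact hσ3 y hy hyx hxy
  have hTall : ∀ i, ∀ x : S, aeval x (P i) = 0 →
      ∃ σ, SignChange q (R.map (Int.castRingHom ℚ)) x σ := by
    intro i x hx
    obtain ⟨x₀, hx₀, σ, hσ⟩ := hT i
    obtain ⟨τ, hτ⟩ := hcyc' i
    obtain ⟨n, hn⟩ := hτ x₀ x hx₀ hx
    rcases hn with h | h
    · rw [← h]
      exact ⟨_, hσ.conj (τ ^ n)⟩
    · exact ⟨_, (hσ.conj (τ ^ n)).symm hq h⟩
  have hmaps : ∀ i, ∀ τ : S ≃ₐ[ℚ] S, ∀ x : S, aeval x (P i) = 0 → aeval (τ x) (P i) = 0 := by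
    intro i τ x hx
    rw [← haev] at hx ⊢
    have h1 : aeval (τ x) ((P i).map (Int.castRingHom ℚ)) = τ (aeval x ((P i).map (Int.castRingHom ℚ))) :=
      aeval_algHom_apply (τ : S →ₐ[ℚ] S) x _
    rw [h1, hx, map_zero]
  rw [hmapR]
  refine ⟨hsep, hcyc', ?_, ?_⟩
  · intro x hx
    rw [hroot] at hx
    obtain ⟨i, hi⟩ := hx
    exact hTall i x hi
  · intro x hx n hn
    have hx' := hx
    rw [hroot] at hx
    obtain ⟨i, hi⟩ := hx
    have hx0 : x ≠ 0 := root_ne_zero hq hWR e hx'
    by_cases hgi : g i = 1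
    · have hdeg : (P i).natDegree = 2 := by rw [(hP i).2.1, hgi]
      have hPi : P i = X ^ 2 + C ((P i).coeff 1) * X + C (q : ℤ) := by
        have h2 := (P i).as_sum_range_C_mul_X_pow
        rw [hdeg] at h2
        simp only [Finset.sum_range_succ, Finset.sum_range_zero, zero_add, pow_zero, mul_one,
          pow_one] at h2
        have h3 : (P i).coeff 2 = 1 := by rw [← hdeg]; exact hmon i
        have h4 : (P i).coeff 0 = q := by rw [(hP i).2.2.1, hgi, pow_one]
        rw [h3, h4, C_1, one_mul] at h2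
        conv_lhs => rw [h2]
        ring
      have hroot2 : ∀ (A : Type) [Field A] [Algebra ℚ A] (y : A), aeval y (P i) = 0 →
          y ^ 2 + ((P i).coeff 1 : A) * y + q = 0 := by
        intro A _ _ y hy
        rw [hPi] at hy
        simpa using hy
      -- the bound on the trace
      have hbound : (-(P i).coeff 1) ^ 2 ≤ 4 * (q : ℤ) := by
        set a : ℤ := -(P i).coeff 1 with ha
        obtain ⟨z, hz⟩ : ∃ z : ℂ, aeval z (P i) = 0 :=
          ⟨e x, by
            have h2 : aeval (e x) (P i) = e (aeval x (P i)) := by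
              rw [aeval_def, aeval_def, ← AlgHom.coe_toRingHom, hom_eval₂]
              congr 1
              exact Subsingleton.elim _ _
            rw [h2, hi, map_zero]⟩
        have h2 := hroot2 ℂ z hz
        have h3 := (hP i).2.2.2 z hz
        have h4 : z * (starRingEnd ℂ) z = (q : ℂ) := by
          rw [Complex.mul_conj, Complex.normSq_eq_norm_sq, h3]
          norm_cast
        have hz0 : z ≠ 0 := by
          rintro rfl
          rw [zero_mul] at h4
          exact hq (by exact_mod_cast h4.symm)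
        have h5 : z + (starRingEnd ℂ) z = (a : ℂ) := by
          apply mul_left_cancel₀ hz0
          rw [mul_add, h4, ha]
          push_cast
          linear_combination h2
        have h6 : 2 * z.re = (a : ℝ) := by
          have := congrArg Complex.re h5
          simpa [two_mul] using this
        have h7 : z.re ^ 2 ≤ (q : ℝ) := by
          rw [← h3, ← Complex.normSq_eq_norm_sq, Complex.normSq_apply]
          nlinarith [sq_nonneg z.im]
        have h8 : (a : ℝ) ^ 2 ≤ 4 * q := by
          rw [← h6]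
          nlinarith
        exact_mod_cast h8
      refine notUnity_quadratic hq hx0 (a := -(P i).coeff 1) ?_ hbound ?_ n hn
      · have h2 := hroot2 S x hi
        push_cast
        linear_combination h2
      · intro k hk
        rw [neg_sq]
        exact h1 i hgi k hk
    · have hdegi : 2 < ((P i).map (Int.castRingHom ℚ)).natDegree := by
        rw [(hmon i).natDegree_map, (hP i).2.1]
        have := hg i
        omega
      -- a root in another pair
      obtain ⟨y, hy, hyx, hxy⟩ : ∃ y : S, aeval y (P i) = 0 ∧ y ≠ x ∧ x * y ≠ q := by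
        by_contra hcon
        push Not at hcon
        have h5 : (((P i).map (Int.castRingHom ℚ)).rootSet S).ncard ≤
            ({x, (q : S) / x} : Set S).ncard := by
          apply Set.ncard_le_ncard _ (Set.toFinite _)
          intro y hy
          rw [hroot_i] at hy
          by_cases hyx : y = x
          · left; exact hyx
          · right
            rw [Set.mem_singleton_iff, eq_div_iff hx0, mul_comm]
            exact hcon y hy hyx
        have h6 : ({x, (q : S) / x} : Set S).ncard ≤ 2 := by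
          refine (Set.ncard_insert_le _ _).trans ?_
          rw [Set.ncard_singleton]
        have hsplit : (((P i).map (Int.castRingHom ℚ)).map (algebraMap ℚ S)).Splits := by
          refine Splits.of_dvd hspl ?_ ?_
          · rw [hmapR]
            exact (Polynomial.map_ne_zero hRne)
          · exact Polynomial.map_dvd _ (Finset.dvd_prod_of_mem (fun i => (P i).map (Int.castRingHom ℚ))
              (Finset.mem_univ i))
        have hsepi : ((P i).map (Int.castRingHom ℚ)).Separable := by
          rw [← hmapR] at hsep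
          exact hsep.of_dvd (Finset.dvd_prod_of_mem (fun i => (P i).map (Int.castRingHom ℚ))
              (Finset.mem_univ i))
        have h7 : (((P i).map (Int.castRingHom ℚ)).rootSet S).ncard =
            ((P i).map (Int.castRingHom ℚ)).natDegree := by
          rw [← card_rootSet_eq_natDegree hsepi hsplit, ← Nat.card_eq_fintype_card,
            Nat.card_coe_set_eq]
        omega
      obtain ⟨σ, hσ⟩ := hTall i x hi
      obtain ⟨τ, hτ⟩ := hcyc' i
      obtain ⟨N, hN⟩ := hτ x y hi hy
      have hchar : CharZero S := charZero_of_injective_algebraMap (algebraMap ℚ S).injective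
      have hq0 : (q : S) ≠ 0 := by exact_mod_cast hq
      have hmem : aeval ((τ ^ N) x) (P i) = 0 := hmaps i _ x hi
      refine notUnity_of_signChange hq hx0 hσ ((hroot _).2 ⟨i, hmem⟩) ?_ ?_ rfl n hn
      · rcases hN with h1 | h1
        · rw [h1]; exact hyx
        · intro h2
          rw [h2] at h1
          exact hxy h1
      · rcases hN with h1 | h1
        · rw [h1]; exact hxy
        · intro h2
          apply hyx
          rw [mul_comm] at h2
          have h3 : (τ ^ N) x ≠ 0 := by
            intro h4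
            rw [h4, zero_mul] at h1
            exact hq0 h1.symm
          exact mul_left_cancel₀ h3 (by rw [h1, h2])

end Pool.Agent.Lib.MP_021685_agG
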