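import Mathlib
import Pool.Agent.Lib.MP_021685_agG.Defs
import Pool.Agent.Lib.MP_021685_agD.Alg
import Pool.Agent.Lib.MP_021685_agG.Setup

/-!
# The generic set
-/

set_option autoImplicit false

open Polynomial NumberField Pool.Agent.Lib.MP_021685_ag Pool.Agent.Lib.MP_021685_agD

namespace Pool.Agent.Lib.MP_021685_agG

/-- The generic `q`-Weil polynomials: the irreducible `q`-Weil polynomials `P` of positive degree
such that no root is `√q` times a root of unity and such that for every root `z` there is an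
automorphism of the field generated by the roots which maps `z` to `q / z` and fixes all the roots
different from `z` and `q / z`. -/
def generic (q : ℕ) : Set ℤ[X] :=
  {P | (∃ g : ℕ, g ≠ 0 ∧ P ∈ weilPolys g q) ∧ Irreducible P ∧
    ∀ z : rootField P, aeval (z : ℂ) P = 0 →
      (∀ n : ℕ, n ≠ 0 → (z : ℂ) ^ (2 * n) ≠ (q : ℂ) ^ n) ∧
      ∃ σ : rootField P ≃ₐ[ℚ] rootField P, (z : ℂ) * (σ z : ℂ) = q ∧
        ∀ w : rootField P, aeval (w : ℂ) P = 0 → w ≠ z → (z : ℂ) * (w : ℂ) ≠ q → σ w = w}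

/-- All the members of the family `P` are generic, and they have pairwise different splitting
fields. -/
def AllGeneric (q : ℕ) {r : ℕ} (P : Fin r → ℤ[X]) : Prop := AllIn (generic q) P

/-- Conditions at primes which imply that `P` is generic. -/
def gen (q : ℕ) : Set ℤ[X] :=
  {P | ∃ g : ℕ, g ≠ 0 ∧ P ∈ weilPolys g q ∧ (∃ l : ℕ, l.Prime ∧ ¬ l ∣ q ∧ CycleAt q g P l) ∧
    (g = 1 → ∀ k : ℕ, k ≤ 4 → P.coeff 1 ^ 2 ≠ k * q) ∧
    ∃ l : ℕ, l.Prime ∧ l ≠ 2 ∧ ¬ l ∣ q ∧ GoodAt q (fun _ : Unit => P) () l}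

/-- One member of a good family. -/
theorem goodAt_single {ι : Type} {q : ℕ} {P : ι → ℤ[X]} {i₀ : ι} {l : ℕ} (h : GoodAt q P i₀ l) :
    GoodAt q (fun _ : Unit => P i₀) () l := by
  obtain ⟨T, h1, h2, h3, t₀, ht₀, h4, h5⟩ := h
  exact ⟨fun _ => T i₀, fun _ => h1 i₀, fun i j hij => absurd (Subsingleton.elim i j) hij,
    fun _ => h3 i₀, t₀, ht₀, h4, fun _ => h5 i₀⟩

/-- Members of a good family have different splitting fields: the sign change of a root of `P i`
fixes the roots of `P j`. -/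
theorem rootField_ne {ι : Type} [Fintype ι] [DecidableEq ι] {q : ℕ} (hq : q ≠ 0)
    (g : ι → ℕ) (hg : ∀ i, g i ≠ 0) (P : ι → ℤ[X]) (hP : ∀ i, P i ∈ weilPolys (g i) q)
    (hcyc : ∀ i, ∃ l : ℕ, l.Prime ∧ ¬ l ∣ q ∧ CycleAt q (g i) (P i) l)
    (h1 : ∀ i, g i = 1 → ∀ k : ℕ, k ≤ 4 → (P i).coeff 1 ^ 2 ≠ k * q)
    (hgood : ∀ i₀, ∃ l : ℕ, l.Prime ∧ l ≠ 2 ∧ ¬ l ∣ q ∧ GoodAt q P i₀ l) (i j : ι) (hij : i ≠ j) :
    rootField (P i) ≠ rootField (P j) := by
  classical
  intro heq
  have hmon : ∀ k, (P k).Monic := fun k => (hP k).1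
  obtain ⟨S, _, _, hS⟩ := exists_nf (∏ k, (P k).map (Int.castRingHom ℚ))
  have hnormal : Normal ℚ S := Normal.of_isSplittingField (∏ k, (P k).map (Int.castRingHom ℚ))
  have hgal : IsGalois ℚ S := isGalois_iff.2 ⟨inferInstance, hnormal⟩
  have hspl := IsSplittingField.splits S (∏ k, (P k).map (Int.castRingHom ℚ))
  let e : S →ₐ[ℚ] ℂ := IsSplittingField.lift S (∏ k, (P k).map (Int.castRingHom ℚ))
    (IsAlgClosed.splits _)
  have heinj : Function.Injective e := e.toRingHom.injective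
  obtain ⟨hsep, -, hsign, -⟩ := signs hq g hg P hP hcyc h1 hgood S hspl e
  have hne : (∏ k, (P k).map (Int.castRingHom ℚ)) ≠ 0 := hsep.ne_zero
  have hspli : ∀ k, (((P k).map (Int.castRingHom ℚ)).map (algebraMap ℚ S)).Splits := by
    intro k
    refine Splits.of_dvd hspl (Polynomial.map_ne_zero hne) ?_
    exact Polynomial.map_dvd _ (Finset.dvd_prod_of_mem (fun k => (P k).map (Int.castRingHom ℚ))
      (Finset.mem_univ k))
  -- a root of `P i`
  obtain ⟨z, hz⟩ : ∃ z : ℂ, z ∈ ((P i).map (Int.castRingHom ℚ)).rootSet ℂ := by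
    have hdeg : 0 < ((P i).map (Int.castRingHom ℚ)).degree := by
      rw [← natDegree_pos_iff_degree_pos, (hmon i).natDegree_map, (hP i).2.1]
      have := hg i
      omega
    obtain ⟨z, hz⟩ := IsAlgClosed.exists_aeval_eq_zero ℂ ((P i).map (Int.castRingHom ℚ)) hdeg.ne'
    exact ⟨z, mem_rootSet.2 ⟨((hmon i).map _).ne_zero, hz⟩⟩
  rw [← (hspli i).image_rootSet e] at hz
  obtain ⟨x, hx, rfl⟩ := hz
  have hroot : ∀ k, ∀ y ∈ ((P k).map (Int.castRingHom ℚ)).rootSet S,
      y ∈ (∏ k, (P k).map (Int.castRingHom ℚ)).rootSet S := by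
    intro k y hy
    rw [mem_rootSet]
    refine ⟨hne, ?_⟩
    rw [map_prod]
    exact Finset.prod_eq_zero (Finset.mem_univ k) (mem_rootSet.1 hy).2
  obtain ⟨σ, hσ1, hσ2, hσ3⟩ := hsign x (hroot i x hx)
  -- no common roots
  have hcop : IsCoprime ((P i).map (Int.castRingHom ℚ)) ((P j).map (Int.castRingHom ℚ)) := by
    have h2 : (P i).map (Int.castRingHom ℚ) * (P j).map (Int.castRingHom ℚ) ∣
        ∏ k, (P k).map (Int.castRingHom ℚ) := by
      rw [← Finset.mul_prod_erase Finset.univ _ (Finset.mem_univ i)]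
      exact mul_dvd_mul_left _ (Finset.dvd_prod_of_mem _
        (Finset.mem_erase.2 ⟨hij.symm, Finset.mem_univ j⟩))
    exact (hsep.of_dvd h2).isCoprime
  have hcom : ∀ y : S, y ∈ ((P i).map (Int.castRingHom ℚ)).rootSet S →
      y ∉ ((P j).map (Int.castRingHom ℚ)).rootSet S := by
    intro y hy hy'
    obtain ⟨u, v, huv⟩ := hcop
    have h2 := congrArg (aeval y) huv
    rw [map_add, map_mul, map_mul, (mem_rootSet.1 hy).2, (mem_rootSet.1 hy').2, mul_zero, mul_zero,
      add_zero, map_one] at h2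
    exact zero_ne_one h2
  have hW : ∀ z : ℂ, aeval z ((P i).map (Int.castRingHom ℚ)) = 0 → ‖z‖ ^ 2 = q := by
    intro z hz
    rw [haev] at hz
    exact (hP i).2.2.2 z hz
  have hx0 : x ≠ 0 := root_ne_zero hq hW e hx
  have hbar : (q : S) / x ∈ ((P i).map (Int.castRingHom ℚ)).rootSet S :=
    div_mem_rootSet ((hmon i).map _).ne_zero hq hW e hx
  have hfix : ∀ y ∈ ((P j).map (Int.castRingHom ℚ)).rootSet S, σ y = y := by
    intro y hy
    apply hσ3 y (hroot j y hy)
    · rintro rfl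
      exact hcom y hx hy
    · intro h2
      have h3 : y = (q : S) / x := by
        rw [eq_div_iff hx0, mul_comm, h2]
      rw [h3] at hy
      exact hcom _ hbar hy
  -- the field generated by the roots of `P j`
  have hfield : rootField (P j) =
      (IntermediateField.adjoin ℚ (((P j).map (Int.castRingHom ℚ)).rootSet S)).map e := by
    rw [IntermediateField.adjoin_map, (hspli j).image_rootSet e, rootField]
    congr 1
    ext w
    rw [mem_rootSet_iff (hmon j).ne_zero]
    rfl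
  have hmem : e x ∈ rootField (P j) := by
    rw [← heq]
    apply IntermediateField.subset_adjoin
    have h2 : aeval (e x) ((P i).map (Int.castRingHom ℚ)) = 0 := by
      rw [aeval_algHom_apply, (mem_rootSet.1 hx).2, map_zero]
    rw [haev] at h2
    exact h2
  rw [hfield] at hmem
  obtain ⟨x', hx', hxx'⟩ := hmem
  have hxeq : x' = x := heinj hxx'
  rw [hxeq] at hx'
  apply hσ2
  have key : ∀ y ∈ IntermediateField.adjoin ℚ (((P j).map (Int.castRingHom ℚ)).rootSet S),
      σ y = y := by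
    intro y hy
    induction hy using IntermediateField.adjoin_induction with
    | mem y hy => exact hfix y hy
    | algebraMap y => exact σ.commutes y
    | add y w _ _ hy hw => rw [map_add, hy, hw]
    | inv y _ hy => rw [map_inv₀, hy]
    | mul y w _ _ hy hw => rw [map_mul, hy, hw]
  exact key x hx'

end Pool.Agent.Lib.MP_021685_agG
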