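import Mathlib
import Pool.Agent.Lib.MP_021685_agD.Rel

/-!
# Numbers of small degree and numbers with a small normal closure

Let the Galois group `G` of `S` contain the sign changes of the roots of `P` and be transitive on
these roots. We show that `x` and `q / x` are conjugate over `ℚ(b)` if `b` has fewer conjugates than
`P` has roots (by counting the images of the orbit of `x` under the stabiliser of `b`), or if the
normal closure of `ℚ(b)` does not contain all the roots of `P` (by a commutator).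
-/

set_option autoImplicit false

open Polynomial Pool.Agent.Lib.MP_021685_agD

namespace Pool.Agent.Lib.MP_021685_agG

variable {S : Type*} [Field S] [Algebra ℚ S] [FiniteDimensional ℚ S]

omit [FiniteDimensional ℚ S] in
theorem map_rootSet {P : ℚ[X]} (γ : S ≃ₐ[ℚ] S) {x : S} (hx : x ∈ P.rootSet S) :
    γ x ∈ P.rootSet S := by
  rw [mem_rootSet] at hx ⊢
  refine ⟨hx.1, ?_⟩
  have h1 : aeval (γ x) P = γ (aeval x P) := aeval_algHom_apply (γ : S →ₐ[ℚ] S) x P
  rw [h1, hx.2, map_zero]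

omit [FiniteDimensional ℚ S] in
/-- Transitivity on the pairs and the sign changes give transitivity on the roots. -/
theorem exists_map {q : ℕ} {R P : ℚ[X]} (hne : ∀ x ∈ P.rootSet S, x ≠ 0)
    (hT : ∀ x ∈ P.rootSet S, ∃ σ, SignChange q R x σ)
    {τ : S ≃ₐ[ℚ] S} (hτ : ∀ x ∈ P.rootSet S, ∀ y ∈ P.rootSet S,
      ∃ n : ℕ, (τ ^ n) x = y ∨ (τ ^ n) x * y = q)
    {x y : S} (hx : x ∈ P.rootSet S) (hy : y ∈ P.rootSet S) : ∃ γ : S ≃ₐ[ℚ] S, γ x = y := by
  obtain ⟨n, hn | hn⟩ := hτ x hx y hy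
  · exact ⟨_, hn⟩
  · have h1 : (τ ^ n) x ∈ P.rootSet S := map_rootSet _ hx
    obtain ⟨σ, hσ, -, -⟩ := hT _ h1
    refine ⟨σ * τ ^ n, ?_⟩
    rw [AlgEquiv.mul_apply]
    exact mul_left_cancel₀ (hne _ h1) (hσ.trans hn.symm)

/-- **Numbers of small degree.** -/
theorem flip_of_degree {q : ℕ} (hq : q ≠ 0) {R P : ℚ[X]}
    (hPR : ∀ x ∈ P.rootSet S, x ∈ R.rootSet S)
    (hT : ∀ x ∈ P.rootSet S, ∃ σ, SignChange q R x σ)
    (htr : ∀ x ∈ P.rootSet S, ∀ y ∈ P.rootSet S, ∃ γ : S ≃ₐ[ℚ] S, γ x = y)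
    {b : S} (hb : (minpoly ℚ b).natDegree < (P.rootSet S).ncard)
    {x : S} (hx : x ∈ P.rootSet S) : ∃ h : S ≃ₐ[ℚ] S, h b = b ∧ x * h x = q := by
  classical
  have hchar : CharZero S := charZero_of_injective_algebraMap (algebraMap ℚ S).injective
  have hq0 : (q : S) ≠ 0 := by exact_mod_cast hq
  have hne : ∀ x ∈ P.rootSet S, x ≠ 0 := by
    intro x hx h0
    obtain ⟨σ, h1, -, -⟩ := hT x hx
    rw [h0, zero_mul] at h1
    exact hq0 h1.symm
  by_contra hcon
  push Not at hcon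
  set Z : Finset S := (P.rootSet S).toFinset with hZ
  have hmemZ : ∀ z, z ∈ Z ↔ z ∈ P.rootSet S := fun z => Set.mem_toFinset
  have hZcard : Z.card = (P.rootSet S).ncard := by
    rw [hZ, Set.ncard_eq_toFinset_card']
  -- the orbit of `x` under the stabiliser of `b`
  set Hs : Finset (S ≃ₐ[ℚ] S) := Finset.univ.filter fun h => h b = b with hHs
  have hmemH : ∀ h, h ∈ Hs ↔ h b = b := fun h => by simp [hHs]
  set O : Finset S := Hs.image fun h => h x with hO
  have hmemO : ∀ y, y ∈ O ↔ ∃ h : S ≃ₐ[ℚ] S, h b = b ∧ h x = y := by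
    intro y
    simp [hO, hmemH]
  have hxO : x ∈ O := (hmemO x).2 ⟨1, rfl, rfl⟩
  have hOZ : ∀ y ∈ O, y ∈ P.rootSet S := by
    intro y hy
    obtain ⟨h, -, rfl⟩ := (hmemO y).1 hy
    exact map_rootSet h hx
  have hObar : ∀ y ∈ O, (q : S) / y ∉ O := by
    intro y hy hy2
    obtain ⟨h1, h1b, h1x⟩ := (hmemO y).1 hy
    obtain ⟨h2, h2b, h2x⟩ := (hmemO _).1 hy2
    apply hcon (h1⁻¹ * h2)
    · rw [AlgEquiv.mul_apply, h2b]
      change h1.symm b = b
      rw [AlgEquiv.symm_apply_eq, h1b]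
    · rw [AlgEquiv.mul_apply, h2x]
      change x * h1.symm ((q : S) / y) = q
      have h3 : h1.symm y = x := by rw [AlgEquiv.symm_apply_eq, h1x]
      rw [map_div₀, map_natCast, h3, mul_div_cancel₀ _ (hne x hx)]
  have hOH : ∀ h : S ≃ₐ[ℚ] S, h b = b → O.image h = O := by
    intro h hh
    ext y
    rw [Finset.mem_image]
    constructor
    · rintro ⟨w, hw, rfl⟩
      obtain ⟨k, hk, rfl⟩ := (hmemO w).1 hw
      exact (hmemO _).2 ⟨h * k, by rw [AlgEquiv.mul_apply, hk, hh], rfl⟩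
    · intro hy
      obtain ⟨k, hk, rfl⟩ := (hmemO y).1 hy
      refine ⟨h.symm (k x), (hmemO _).2 ⟨h⁻¹ * k, ?_, rfl⟩, ?_⟩
      · rw [AlgEquiv.mul_apply, hk]
        change h.symm b = b
        rw [AlgEquiv.symm_apply_eq, hh]
      · exact h.apply_symm_apply _
  -- the images of `O`
  set 𝓕 : Finset (Finset S) :=
    (Finset.univ : Finset (S ≃ₐ[ℚ] S)).image (fun γ : S ≃ₐ[ℚ] S => O.image (fun y => γ y)) with h𝓕
  have hmem𝓕 : ∀ F, F ∈ 𝓕 ↔ ∃ γ : S ≃ₐ[ℚ] S, O.image γ = F := by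
    intro F
    simp [h𝓕]
  have hcardF : ∀ F ∈ 𝓕, F.card = O.card := by
    intro F hF
    obtain ⟨γ, rfl⟩ := (hmem𝓕 F).1 hF
    exact Finset.card_image_of_injective _ γ.injective
  have hFZ : ∀ F ∈ 𝓕, ∀ y ∈ F, y ∈ P.rootSet S := by
    intro F hF y hy
    obtain ⟨γ, rfl⟩ := (hmem𝓕 F).1 hF
    obtain ⟨w, hw, rfl⟩ := Finset.mem_image.1 hy
    exact map_rootSet γ (hOZ w hw)
  have hFbar : ∀ F ∈ 𝓕, ∀ y ∈ F, (q : S) / y ∉ F := by
    intro F hF y hy hy2
    obtain ⟨γ, rfl⟩ := (hmem𝓕 F).1 hF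
    obtain ⟨w, hw, rfl⟩ := Finset.mem_image.1 hy
    obtain ⟨w', hw', h1⟩ := Finset.mem_image.1 hy2
    have h2 : w' = (q : S) / w := by
      apply γ.injective
      rw [h1, map_div₀, map_natCast]
    rw [h2] at hw'
    exact hObar w hw hw'
  have hmulF : ∀ F ∈ 𝓕, ∀ γ : S ≃ₐ[ℚ] S, F.image γ ∈ 𝓕 := by
    intro F hF γ
    obtain ⟨δ, rfl⟩ := (hmem𝓕 F).1 hF
    refine (hmem𝓕 _).2 ⟨γ * δ, ?_⟩
    have h1 : (O.image δ).image γ = O.image (γ * δ : S ≃ₐ[ℚ] S) := by
      rw [Finset.image_image]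
      rfl
    exact h1.symm
  -- the number of images is at most the degree of `b`
  have hcard1 : 𝓕.card ≤ (minpoly ℚ b).natDegree := by
    have hch : ∀ F : Finset S, ∃ γ : S ≃ₐ[ℚ] S, F ∈ 𝓕 → O.image γ = F := by
      intro F
      by_cases hF : F ∈ 𝓕
      · obtain ⟨γ, hγ⟩ := (hmem𝓕 F).1 hF
        exact ⟨γ, fun _ => hγ⟩
      · exact ⟨1, fun h => absurd h hF⟩
    choose c hc using hch
    have hbint : IsIntegral ℚ b := IsIntegral.of_finite ℚ b
    have hbne : minpoly ℚ b ≠ 0 := minpoly.ne_zero hbint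
    have h1 : 𝓕.card ≤ ((minpoly ℚ b).rootSet S).toFinset.card := by
      refine Finset.card_le_card_of_injOn (fun F => c F b) ?_ ?_
      · intro F _
        rw [Set.coe_toFinset]
        apply map_rootSet
        rw [mem_rootSet]
        exact ⟨hbne, minpoly.aeval ℚ b⟩
      · intro F hF F' hF' hcc
        rw [← hc F hF, ← hc F' hF']
        have h2 : ((c F')⁻¹ * c F) b = b := by
          rw [AlgEquiv.mul_apply]
          change (c F').symm (c F b) = b
          rw [AlgEquiv.symm_apply_eq]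
          exact hcc
        have h3 := hOH _ h2
        have h4 : (O.image ((c F')⁻¹ * c F : S ≃ₐ[ℚ] S)).image (c F') = O.image (c F) := by
          rw [Finset.image_image]
          congr 1
          funext y
          change c F' ((c F').symm (c F y)) = c F y
          rw [AlgEquiv.apply_symm_apply]
        rw [← h4, h3]
    have h2 : ((minpoly ℚ b).rootSet S).toFinset = ((minpoly ℚ b).aroots S).toFinset := by
      ext y
      rw [Set.mem_toFinset, rootSet_def, Finset.mem_coe]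
    rw [h2] at h1
    exact h1.trans ((Multiset.toFinset_card_le _).trans ((card_roots' _).trans natDegree_map_le))
  -- every root lies in many images
  have hcard2 : ∀ z ∈ Z, O.card ≤ (𝓕.filter fun F => z ∈ F).card := by
    intro z hz
    rw [hmemZ] at hz
    obtain ⟨γ, hγ⟩ := htr x hx z hz
    set F₀ : Finset S := O.image γ with hF₀
    have hF₀m : F₀ ∈ 𝓕 := (hmem𝓕 _).2 ⟨γ, rfl⟩
    have hzF₀ : z ∈ F₀ := Finset.mem_image.2 ⟨x, hxO, hγ⟩
    have hsc : ∀ w : S, ∃ σ : S ≃ₐ[ℚ] S, w ∈ F₀ → SignChange q R w σ := by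
      intro w
      by_cases hw : w ∈ F₀
      · obtain ⟨σ, hσ⟩ := hT w (hFZ F₀ hF₀m w hw)
        exact ⟨σ, fun _ => hσ⟩
      · exact ⟨1, fun h => absurd h hw⟩
    choose σ hσ using hsc
    have hσF : ∀ w ∈ F₀, ∀ y ∈ F₀, y ≠ w → σ w y = y := by
      intro w hw y hy hyw
      have h1 := hσ w hw
      apply h1.2.2 y (hPR y (hFZ F₀ hF₀m y hy)) hyw
      intro h2
      apply hFbar F₀ hF₀m w hw
      have h3 : (q : S) / w = y := by
        rw [div_eq_iff (hne w (hFZ F₀ hF₀m w hw)), ← h2, mul_comm]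
      rw [h3]
      exact hy
    have hσw : ∀ w ∈ F₀, σ w w = (q : S) / w := by
      intro w hw
      rw [eq_div_iff (hne w (hFZ F₀ hF₀m w hw)), mul_comm]
      exact (hσ w hw).1
    have hin : ∀ w ∈ F₀, ∀ y ∈ F₀, y ≠ w → y ∈ F₀.image (σ w) := by
      intro w hw y hy hyw
      exact Finset.mem_image.2 ⟨y, hy, hσF w hw y hy hyw⟩
    have hout : ∀ w ∈ F₀, w ∉ F₀.image (σ w) := by
      intro w hw h1
      obtain ⟨y, hy, hyw⟩ := Finset.mem_image.1 h1
      by_cases hyw' : y = w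
      · rw [hyw', hσw w hw] at hyw
        apply hFbar F₀ hF₀m w hw
        rw [hyw]
        exact hw
      · rw [hσF w hw y hy hyw'] at hyw
        exact hyw' hyw
    rw [← hcardF F₀ hF₀m]
    refine Finset.card_le_card_of_injOn (fun w => if w = z then F₀ else F₀.image (σ w)) ?_ ?_
    · intro w hw
      rw [Finset.mem_coe] at hw
      simp only [Finset.coe_filter, Set.mem_ofPred_eq]
      by_cases hwz : w = z
      · rw [if_pos hwz]
        exact ⟨hF₀m, hzF₀⟩
      · rw [if_neg hwz]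
        exact ⟨hmulF F₀ hF₀m (σ w), hin w hw z hzF₀ (Ne.symm hwz)⟩
    · intro w hw w' hw' hww
      rw [Finset.mem_coe] at hw hw'
      by_contra hne'
      simp only at hww
      by_cases hwz : w = z
      · have hwz' : w' ≠ z := fun h => hne' (hwz.trans h.symm)
        rw [if_pos hwz, if_neg hwz'] at hww
        apply hout w' hw'
        rw [← hww]
        exact hw'
      · rw [if_neg hwz] at hww
        apply hout w hw
        rw [hww]
        split_ifs with h
        · exact hw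
        · exact hin w' hw' w hw hne'
  -- double counting
  have hdc : ∑ F ∈ 𝓕, (Z.filter fun z => z ∈ F).card =
      ∑ z ∈ Z, (𝓕.filter fun F => z ∈ F).card :=
    Finset.sum_card_bipartiteAbove_eq_sum_card_bipartiteBelow (fun (F : Finset S) (z : S) => z ∈ F)
  have hl : ∑ F ∈ 𝓕, (Z.filter fun z => z ∈ F).card = 𝓕.card * O.card := by
    rw [Finset.sum_const_nat (m := O.card)]
    intro F hF
    rw [← hcardF F hF]
    congr 1
    ext z
    rw [Finset.mem_filter, hmemZ]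
    exact ⟨fun h => h.2, fun h => ⟨hFZ F hF z h, h⟩⟩
  have hr : Z.card * O.card ≤ ∑ z ∈ Z, (𝓕.filter fun F => z ∈ F).card := by
    rw [← smul_eq_mul]
    exact Finset.card_nsmul_le_sum Z _ _ hcard2
  have hOpos : 0 < O.card := Finset.card_pos.2 ⟨x, hxO⟩
  have h1 : Z.card * O.card ≤ 𝓕.card * O.card := by
    rw [← hl, hdc]
    exact hr
  have h2 : Z.card ≤ 𝓕.card := Nat.le_of_mul_le_mul_right h1 hOpos
  omega

/-- **Numbers with a small normal closure.** -/
theorem flip_of_normal [IsGalois ℚ S] {q : ℕ} (hq : q ≠ 0) {R P : ℚ[X]}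
    (hPR : ∀ x ∈ P.rootSet S, x ∈ R.rootSet S)
    (hT : ∀ x ∈ P.rootSet S, ∃ σ, SignChange q R x σ)
    (htr : ∀ x ∈ P.rootSet S, ∀ y ∈ P.rootSet S, ∃ γ : S ≃ₐ[ℚ] S, γ x = y)
    {b : S} (hb : ∃ z ∈ P.rootSet S, z ∉ IntermediateField.adjoin ℚ ((minpoly ℚ b).rootSet S))
    {x : S} (hx : x ∈ P.rootSet S) : ∃ h : S ≃ₐ[ℚ] S, h b = b ∧ x * h x = q := by
  classical
  have hchar : CharZero S := charZero_of_injective_algebraMap (algebraMap ℚ S).injective
  have hq0 : (q : S) ≠ 0 := by exact_mod_cast hq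
  have hne : ∀ x ∈ P.rootSet S, x ≠ 0 := by
    intro x hx h0
    obtain ⟨σ, h1, -, -⟩ := hT x hx
    rw [h0, zero_mul] at h1
    exact hq0 h1.symm
  obtain ⟨z, hz, hzM⟩ := hb
  set C : Set S := (minpoly ℚ b).rootSet S with hC
  have hbC : b ∈ C := by
    rw [hC, mem_rootSet]
    exact ⟨minpoly.ne_zero (IsIntegral.of_finite ℚ b), minpoly.aeval ℚ b⟩
  obtain ⟨ν, hνC, hνz⟩ : ∃ ν : S ≃ₐ[ℚ] S, (∀ c ∈ C, ν c = c) ∧ ν z ≠ z := by
    by_contra hcon
    push Not at hcon
    apply hzM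
    have h1 : z ∈ IntermediateField.fixedField
        (IntermediateField.fixingSubgroup (IntermediateField.adjoin ℚ C)) := by
      rw [IntermediateField.mem_fixedField_iff]
      intro f hf
      apply hcon f
      intro c hc
      exact (IntermediateField.mem_fixingSubgroup_iff _ f).1 hf c
        (IntermediateField.subset_adjoin ℚ C hc)
    rwa [IsGalois.fixedField_fixingSubgroup] at h1
  have hinv : ∀ f : S ≃ₐ[ℚ] S, ∀ y : S, f y = y → f.symm y = y := by
    intro f y hy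
    rw [AlgEquiv.symm_apply_eq, hy]
  obtain ⟨h, hhC, hhz⟩ : ∃ h : S ≃ₐ[ℚ] S, (∀ c ∈ C, h c = c) ∧ z * h z = q := by
    by_cases hw : z * ν z = q
    · exact ⟨ν, hνC, hw⟩
    · obtain ⟨τ, hτ1, hτ2, hτ3⟩ := hT z hz
      have hτw : τ (ν z) = ν z := hτ3 (ν z) (hPR _ (map_rootSet ν hz)) hνz hw
      refine ⟨τ * ν⁻¹ * τ⁻¹ * ν, ?_, ?_⟩
      · intro c hc
        change τ (ν.symm (τ.symm (ν c))) = c
        rw [hνC c hc]
        have h1 : τ.symm c ∈ C := map_rootSet τ.symm hc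
        rw [hinv ν _ (hνC _ h1), AlgEquiv.apply_symm_apply]
      · change z * τ (ν.symm (τ.symm (ν z))) = q
        rw [hinv τ _ hτw, AlgEquiv.symm_apply_apply, hτ1]
  obtain ⟨γ, hγ⟩ := htr z hz x hx
  refine ⟨γ * h * γ⁻¹, ?_, ?_⟩
  · change γ (h (γ.symm b)) = b
    rw [hhC _ (map_rootSet γ.symm hbC), AlgEquiv.apply_symm_apply]
  · change x * γ (h (γ.symm x)) = q
    have h1 : γ.symm x = z := by rw [AlgEquiv.symm_apply_eq, hγ]
    rw [h1]
    nth_rewrite 1 [← hγ]
    rw [← map_mul, hhz, map_natCast]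

end Pool.Agent.Lib.MP_021685_agG
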