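import Mathlib
import Pool.Agent.Lib.MP_021685_agD.Alg
import Pool.Agent.Lib.MP_021685_agG.Gen
import Pool.Agent.Lib.MP_021685_agG.Core
import Pool.Agent.Lib.MP_021685_agG.Orb

/-!
# Relations between the roots of a generic family and foreign numbers

A relation between the roots of generic polynomials with pairwise different splitting fields and
numbers that are foreign to them is trivial. The weights of the polynomials may be different.
-/

set_option autoImplicit false

open Polynomial NumberField Pool.Agent.Lib.MP_021685_ag Pool.Agent.Lib.MP_021685_agD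

namespace Pool.Agent.Lib.MP_021685_agG

/-- The family satisfies the conditions at primes used in the density theorem. -/
structure Regular {ι : Type} [Fintype ι] [DecidableEq ι] (q : ℕ) (g : ι → ℕ) (P : ι → ℤ[X]) :
    Prop where
  hq : q ≠ 0
  hg : ∀ i, g i ≠ 0
  hP : ∀ i, P i ∈ weilPolys (g i) q
  hcyc : ∀ i, ∃ l : ℕ, l.Prime ∧ ¬ l ∣ q ∧ CycleAt q (g i) (P i) l
  h1 : ∀ i, g i = 1 → ∀ k : ℕ, k ≤ 4 → (P i).coeff 1 ^ 2 ≠ k * q
  hgood : ∀ i₀, ∃ l : ℕ, l.Prime ∧ l ≠ 2 ∧ ¬ l ∣ q ∧ GoodAt q P i₀ l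

section

variable {ι : Type} [Fintype ι] [DecidableEq ι] {q : ℕ} {g : ι → ℕ} {P : ι → ℤ[X]}

theorem Regular.monic (h : Regular q g P) : (∏ i, P i).Monic :=
  monic_prod_of_monic _ _ fun i _ => (h.hP i).1

theorem Regular.separable (h : Regular q g P) :
    ((∏ i, P i).map (Int.castRingHom ℚ)).Separable := by
  classical
  have hRmon := h.monic
  by_cases hι : IsEmpty ι
  · rw [Finset.univ_eq_empty, Finset.prod_empty, Polynomial.map_one]
    exact separable_one
  · rw [not_isEmpty_iff] at hι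
    obtain ⟨i₀⟩ := hι
    obtain ⟨l, hl, -, hql, T, hT1, hT2, hT3, -⟩ := h.hgood i₀
    have : Fact l.Prime := ⟨hl⟩
    exact separable_of_squarefree_map (k := ZMod l) hRmon
      (map_prod_squarefree P hql T hT1 hT2 hT3 (RingHom.id _))

theorem Regular.norm_root (h : Regular q g P) (z : ℂ)
    (hz : aeval z ((∏ i, P i).map (Int.castRingHom ℚ)) = 0) : ‖z‖ ^ 2 = q := by
  have h1 : aeval z (∏ i, P i) = 0 := by
    rw [← aeval_map_algebraMap ℚ z (∏ i, P i)]
    exact hz
  rw [map_prod, Finset.prod_eq_zero_iff] at h1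
  obtain ⟨i, -, hi⟩ := h1
  exact (h.hP i).2.2.2 z hi

theorem mem_rootSet_map {A : Type*} [Field A] [Algebra ℚ A] {R : ℤ[X]} (hR : R.Monic) (x : A) :
    x ∈ (R.map (Int.castRingHom ℚ)).rootSet A ↔ aeval x R = 0 := by
  have e : aeval x (R.map (Int.castRingHom ℚ)) = aeval x R := aeval_map_algebraMap ℚ x R
  rw [mem_rootSet, e]
  exact ⟨fun h => h.2, fun h => ⟨(hR.map _).ne_zero, h⟩⟩

theorem Regular.mem_rootSet (h : Regular q g P) {A : Type*} [Field A] [Algebra ℚ A] (x : A) :
    x ∈ ((∏ i, P i).map (Int.castRingHom ℚ)).rootSet A ↔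
      ∃ i, x ∈ ((P i).map (Int.castRingHom ℚ)).rootSet A := by
  rw [mem_rootSet_map h.monic, map_prod, Finset.prod_eq_zero_iff]
  simp only [mem_rootSet_map (h.hP _).1, Finset.mem_univ, true_and]

/-- The structure of the Galois group. -/
theorem Regular.struct (h : Regular q g P) (S : Type) [Field S] [NumberField S] [IsGalois ℚ S]
    (hsplit : ((∏ i, P i).map (Int.castRingHom S)).Splits) (e : S →ₐ[ℚ] ℂ) :
    (∀ x ∈ ((∏ i, P i).map (Int.castRingHom ℚ)).rootSet S,
      ∃ σ, SignChange q ((∏ i, P i).map (Int.castRingHom ℚ)) x σ) ∧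
    (∀ x ∈ ((∏ i, P i).map (Int.castRingHom ℚ)).rootSet S, ∀ n : ℕ, n ≠ 0 →
      x ^ (2 * n) ≠ (q : S) ^ n) ∧
    (∀ i, ∀ x ∈ ((P i).map (Int.castRingHom ℚ)).rootSet S,
      ∀ y ∈ ((P i).map (Int.castRingHom ℚ)).rootSet S, ∃ γ : S ≃ₐ[ℚ] S, γ x = y) := by
  classical
  obtain ⟨hq, hg, hP, hcyc, h1, hgood⟩ := id h
  have hmon : ∀ i, (P i).Monic := fun i => (hP i).1
  set R : ℤ[X] := ∏ i, P i with hR
  have hRmon : R.Monic := h.monic
  have hsep : (R.map (Int.castRingHom ℚ)).Separable := h.separable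
  have hmapR : ∏ i, (P i).map (Int.castRingHom ℚ) = R.map (Int.castRingHom ℚ) := by
    rw [hR, Polynomial.map_prod]
  have haev : ∀ (A : Type) [Ring A] [Algebra ℚ A] (x : A) (p : ℤ[X]),
      aeval x (p.map (Int.castRingHom ℚ)) = aeval x p := by
    intro A _ _ x p
    exact aeval_map_algebraMap ℚ x p
  have hneQ : ∀ i, (P i).map (Int.castRingHom ℚ) ≠ 0 := fun i => ((hmon i).map _).ne_zero
  have hW : ∀ i, ∀ z : ℂ, aeval z ((P i).map (Int.castRingHom ℚ)) = 0 → ‖z‖ ^ 2 = q := by
    intro i z hz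
    rw [haev] at hz
    exact (hP i).2.2.2 z hz
  have hWR : ∀ z : ℂ, aeval z (R.map (Int.castRingHom ℚ)) = 0 → ‖z‖ ^ 2 = q :=
    fun z hz => h.norm_root z hz
  have hRne : R.map (Int.castRingHom ℚ) ≠ 0 := hsep.ne_zero
  have hroot : ∀ x : S, x ∈ (R.map (Int.castRingHom ℚ)).rootSet S ↔ ∃ i, aeval x (P i) = 0 := by
    intro x
    rw [h.mem_rootSet]
    exact exists_congr fun i => mem_rootSet_map (hmon i) x
  have hbar : ∀ x : S, (∃ i, aeval x (P i) = 0) → ∃ i, aeval ((q : S) / x) (P i) = 0 := by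
    intro x hx
    rw [← hroot] at hx ⊢
    exact div_mem_rootSet hRne hq hWR e hx
  have hroot_i : ∀ i, ∀ x : S, x ∈ ((P i).map (Int.castRingHom ℚ)).rootSet S ↔
      aeval x (P i) = 0 := fun i x => mem_rootSet_map (hmon i) x
  have hsub : ∀ i, ∀ x ∈ ((P i).map (Int.castRingHom ℚ)).rootSet S,
      x ∈ (R.map (Int.castRingHom ℚ)).rootSet S := by
    intro i x hx
    rw [h.mem_rootSet]
    exact ⟨i, hx⟩
  -- one sign change for each factor
  have hT0 : ∀ i₀, ∃ x ∈ ((P i₀).map (Int.castRingHom ℚ)).rootSet S,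
      ∃ σ, SignChange q (R.map (Int.castRingHom ℚ)) x σ := by
    intro i₀
    obtain ⟨l, hl, hl2, hql, T, hT1, hT2, hT3, t₀, ht₀, hns, hsq⟩ := hgood i₀
    have : Fact l.Prime := ⟨hl⟩
    have hspliti : ((P i₀).map (Int.castRingHom S)).Splits := by
      refine Splits.of_dvd hsplit (hRmon.map _).ne_zero ?_
      exact Polynomial.map_dvd _ (Finset.dvd_prod_of_mem P (Finset.mem_univ i₀))
    obtain ⟨x, hx, σ, hσ1, hσ2, hσ3⟩ := exists_signChange hq P hmon hl2 hql T hT1 hT2 hT3 i₀ t₀
      ht₀ hns hsq S hspliti hbar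
    refine ⟨x, (hroot_i i₀ x).2 hx, σ, hσ1, hσ2, ?_⟩
    intro y hy hyx hxy
    rw [hroot] at hy
    exact hσ3 y hy hyx hxy
  have hτ0 : ∀ i, ∃ τ : S ≃ₐ[ℚ] S, ∀ x ∈ ((P i).map (Int.castRingHom ℚ)).rootSet S,
      ∀ y ∈ ((P i).map (Int.castRingHom ℚ)).rootSet S, ∃ n : ℕ, (τ ^ n) x = y ∨ (τ ^ n) x * y = q := by
    intro i
    obtain ⟨l, hl, hql, hc⟩ := hcyc i
    have : Fact l.Prime := ⟨hl⟩
    obtain ⟨τ, hτ⟩ := exists_cycle hq (P i) (hmon i) hql hc S (by
      intro x hx
      rw [← hroot_i] at hx ⊢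
      exact div_mem_rootSet (hneQ i) hq (hW i) e hx)
    refine ⟨τ, fun x hx y hy => ?_⟩
    rw [hroot_i] at hx hy
    exact hτ x y hx hy
  have hTall : ∀ i, ∀ x ∈ ((P i).map (Int.castRingHom ℚ)).rootSet S,
      ∃ σ, SignChange q (R.map (Int.castRingHom ℚ)) x σ := by
    intro i x hx
    obtain ⟨x₀, hx₀, σ, hσ⟩ := hT0 i
    obtain ⟨τ, hτ⟩ := hτ0 i
    obtain ⟨n, hn⟩ := hτ x₀ hx₀ x hx
    rcases hn with h2 | h2
    · rw [← h2]
      exact ⟨_, hσ.conj (τ ^ n)⟩
    · exact ⟨_, (hσ.conj (τ ^ n)).symm hq h2⟩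
  have hne0 : ∀ x ∈ (R.map (Int.castRingHom ℚ)).rootSet S, x ≠ 0 :=
    fun x hx => root_ne_zero hq hWR e hx
  refine ⟨?_, ?_, ?_⟩
  · intro x hx
    rw [h.mem_rootSet] at hx
    obtain ⟨i, hi⟩ := hx
    exact hTall i x hi
  · intro x hx n hn
    rw [h.mem_rootSet] at hx
    obtain ⟨i, hi⟩ := hx
    have hx0 : x ≠ 0 := hne0 x (hsub i x hi)
    by_cases hgi : g i = 1
    · rw [hroot_i] at hi
      have hdeg : (P i).natDegree = 2 := by rw [(hP i).2.1, hgi]
      have hPi : P i = X ^ 2 + C ((P i).coeff 1) * X + C (q : ℤ) := by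
        have h2 := (P i).as_sum_range_C_mul_X_pow
        rw [hdeg] at h2
        simp only [Finset.sum_range_succ, Finset.sum_range_zero, zero_add, pow_zero, mul_one,
          pow_one] at h2
        have h3 : (P i).coeff 2 = 1 := by rw [← hdeg]; exact hmon i
        have h4 : (P i).coeff 0 = q := by rw [(hP i).2.2.1, hgi, pow_one]
        rw [h3, h4, C_1, one_mul] at h2
        conv_lhs => rw [h2]
        ring
      have hroot2 : ∀ (A : Type) [Field A] [Algebra ℚ A] (y : A), aeval y (P i) = 0 →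
          y ^ 2 + ((P i).coeff 1 : A) * y + q = 0 := by
        intro A _ _ y hy
        rw [hPi] at hy
        simpa using hy
      -- the bound on the trace
      have hbound : (-(P i).coeff 1) ^ 2 ≤ 4 * (q : ℤ) := by
        set a : ℤ := -(P i).coeff 1 with ha
        obtain ⟨z, hz⟩ : ∃ z : ℂ, aeval z (P i) = 0 :=
          ⟨e x, by
            have h2 : aeval (e x) (P i) = e (aeval x (P i)) := by
              rw [aeval_def, aeval_def, ← AlgHom.coe_toRingHom, hom_eval₂]
              congr 1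
              exact Subsingleton.elim _ _
            rw [h2, hi, map_zero]⟩
        have h2 := hroot2 ℂ z hz
        have h3 := (hP i).2.2.2 z hz
        have h4 : z * (starRingEnd ℂ) z = (q : ℂ) := by
          rw [Complex.mul_conj, Complex.normSq_eq_norm_sq, h3]
          norm_cast
        have hz0 : z ≠ 0 := by
          rintro rfl
          rw [zero_mul] at h4
          exact hq (by exact_mod_cast h4.symm)
        have h5 : z + (starRingEnd ℂ) z = (a : ℂ) := by
          apply mul_left_cancel₀ hz0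
          rw [mul_add, h4, ha]
          push_cast
          linear_combination h2
        have h6 : 2 * z.re = (a : ℝ) := by
          have := congrArg Complex.re h5
          simpa [two_mul] using this
        have h7 : z.re ^ 2 ≤ (q : ℝ) := by
          rw [← h3, ← Complex.normSq_eq_norm_sq, Complex.normSq_apply]
          nlinarith [sq_nonneg z.im]
        have h8 : (a : ℝ) ^ 2 ≤ 4 * q := by
          rw [← h6]
          nlinarith
        exact_mod_cast h8
      refine notUnity_quadratic hq hx0 (a := -(P i).coeff 1) ?_ hbound ?_ n hn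
      · have h2 := hroot2 S x hi
        push_cast
        linear_combination h2
      · intro k hk
        rw [neg_sq]
        exact h1 i hgi k hk
    · -- a root in another pair
      have hgi2 : 2 < (P i).natDegree := by
        rw [(hP i).2.1]
        have := hg i
        omega
      obtain ⟨y, hy, hyx, hxy⟩ : ∃ y ∈ ((P i).map (Int.castRingHom ℚ)).rootSet S,
          y ≠ x ∧ x * y ≠ q := by
        by_contra hcon
        push Not at hcon
        have h5 : (((P i).map (Int.castRingHom ℚ)).rootSet S).ncard ≤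
            ({x, (q : S) / x} : Set S).ncard := by
          apply Set.ncard_le_ncard _ (Set.toFinite _)
          intro y hy
          by_cases hyx : y = x
          · left; exact hyx
          · right
            rw [Set.mem_singleton_iff, eq_div_iff hx0, mul_comm]
            exact hcon y hy hyx
        have h6 : ({x, (q : S) / x} : Set S).ncard ≤ 2 := by
          refine (Set.ncard_insert_le _ _).trans ?_
          rw [Set.ncard_singleton]
        have hspl : (((P i).map (Int.castRingHom ℚ)).map (algebraMap ℚ S)).Splits := by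
          rw [Polynomial.map_map]
          have h9 : (algebraMap ℚ S).comp (Int.castRingHom ℚ) = Int.castRingHom S :=
            Subsingleton.elim _ _
          rw [h9]
          refine Splits.of_dvd hsplit (hRmon.map _).ne_zero ?_
          exact Polynomial.map_dvd _ (Finset.dvd_prod_of_mem P (Finset.mem_univ i))
        have hsepi : ((P i).map (Int.castRingHom ℚ)).Separable :=
          hsep.of_dvd (Polynomial.map_dvd _ (Finset.dvd_prod_of_mem P (Finset.mem_univ i)))
        have h7 : (((P i).map (Int.castRingHom ℚ)).rootSet S).ncard = (P i).natDegree := by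
          rw [← (hmon i).natDegree_map (Int.castRingHom ℚ), ← card_rootSet_eq_natDegree hsepi hspl,
            ← Nat.card_eq_fintype_card, Nat.card_coe_set_eq]
        omega
      obtain ⟨σ, hσ⟩ := hTall i x hi
      obtain ⟨τ, hτ⟩ := hτ0 i
      obtain ⟨N, hN⟩ := hτ x hi y hy
      have hchar : CharZero S := charZero_of_injective_algebraMap (algebraMap ℚ S).injective
      have hq0 : (q : S) ≠ 0 := by exact_mod_cast hq
      have hmem : (τ ^ N) x ∈ ((P i).map (Int.castRingHom ℚ)).rootSet S := map_rootSet _ hi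
      refine notUnity_of_signChange hq hx0 hσ (hsub i _ hmem) ?_ ?_ rfl n hn
      · rcases hN with h1 | h1
        · rw [h1]; exact hyx
        · intro h2
          rw [h2] at h1
          exact hxy h1
      · rcases hN with h1 | h1
        · rw [h1]; exact hxy
        · intro h2
          apply hyx
          rw [mul_comm] at h2
          have h3 : (τ ^ N) x ≠ 0 := by
            intro h4
            rw [h4, zero_mul] at h1
            exact hq0 h1.symm
          exact mul_left_cancel₀ h3 (by rw [h1, h2])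
  · intro i x hx y hy
    obtain ⟨τ, hτ⟩ := hτ0 i
    exact exists_map (q := q) (R := R.map (Int.castRingHom ℚ))
      (fun x hx => hne0 x (hsub i x hx)) (hTall i) hτ hx hy

end

theorem gen_regular {q : ℕ} (hq : q ≠ 0) {P : ℤ[X]} (hP : P ∈ gen q) :
    ∃ g : ℕ, Regular q (fun _ : Unit => g) (fun _ : Unit => P) := by
  obtain ⟨g, hg, hW, hc, h1, hgood⟩ := hP
  exact ⟨g, hq, fun _ => hg, fun _ => hW, fun _ => hc, fun _ => h1, fun _ => hgood⟩

theorem aeval_map_int (z : ℂ) (p : ℤ[X]) : aeval z (p.map (Int.castRingHom ℚ)) = aeval z p :=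
  aeval_map_algebraMap ℚ z p

/-! ### The field generated by the roots -/

theorem rootField_eq {P : ℤ[X]} (hP : P.Monic) :
    rootField P = IntermediateField.adjoin ℚ ((P.map (Int.castRingHom ℚ)).rootSet ℂ) := by
  rw [rootField]
  congr 1
  ext z
  exact (mem_rootSet_map hP z).symm

theorem rootField_splitting {P : ℤ[X]} (hP : P.Monic) :
    IsSplittingField ℚ (rootField P) (P.map (Int.castRingHom ℚ)) := by
  rw [rootField_eq hP]
  exact IntermediateField.adjoin_rootSet_isSplittingField (IsAlgClosed.splits _)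

theorem rootField_finite {P : ℤ[X]} (hP : P.Monic) : FiniteDimensional ℚ (rootField P) := by
  have := rootField_splitting hP
  exact IsSplittingField.finiteDimensional _ (P.map (Int.castRingHom ℚ))

theorem rootField_normal {P : ℤ[X]} (hP : P.Monic) : Normal ℚ (rootField P) := by
  have := rootField_splitting hP
  exact Normal.of_isSplittingField (P.map (Int.castRingHom ℚ))

theorem generic_monic {q : ℕ} {P : ℤ[X]} (hP : P ∈ generic q) : P.Monic := by
  obtain ⟨⟨g, hg, hW⟩, -⟩ := hP
  exact hW.1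

theorem generic_irreducible {q : ℕ} {P : ℤ[X]} (hP : P ∈ generic q) :
    Irreducible (P.map (Int.castRingHom ℚ)) :=
  (IsPrimitive.Int.irreducible_iff_irreducible_map_cast (generic_monic hP).isPrimitive).1 hP.2.1

theorem generic_minpoly {q : ℕ} {P : ℤ[X]} (hP : P ∈ generic q) {A : Type*} [Field A]
    [Algebra ℚ A] {x : A} (hx : x ∈ (P.map (Int.castRingHom ℚ)).rootSet A) :
    minpoly ℚ x = P.map (Int.castRingHom ℚ) :=
  (minpoly.eq_of_irreducible_of_monic (generic_irreducible hP) (mem_rootSet.1 hx).2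
    ((generic_monic hP).map _)).symm

theorem generic_norm {q : ℕ} {P : ℤ[X]} (hP : P ∈ generic q) {z : ℂ} (hz : aeval z P = 0) :
    ‖z‖ ^ 2 = q := by
  obtain ⟨⟨g, hg, hW⟩, -⟩ := hP
  exact hW.2.2.2 z hz

/-- The structure of the Galois group of a field that contains the roots of a generic
polynomial. -/
theorem generic_struct {q : ℕ} {P : ℤ[X]} (hP : P ∈ generic q) (S : Type)
    [Field S] [Algebra ℚ S] [Normal ℚ S]
    (hsplit : ((P.map (Int.castRingHom ℚ)).map (algebraMap ℚ S)).Splits) (e : S →ₐ[ℚ] ℂ) :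
    (∀ x ∈ (P.map (Int.castRingHom ℚ)).rootSet S,
      ∃ σ, SignChange q (P.map (Int.castRingHom ℚ)) x σ) ∧
    (∀ x ∈ (P.map (Int.castRingHom ℚ)).rootSet S, ∀ n : ℕ, n ≠ 0 →
      x ^ (2 * n) ≠ (q : S) ^ n) ∧
    (∀ x ∈ (P.map (Int.castRingHom ℚ)).rootSet S,
      ∀ y ∈ (P.map (Int.castRingHom ℚ)).rootSet S, ∃ γ : S ≃ₐ[ℚ] S, γ x = y) := by
  have hmon : P.Monic := generic_monic hP
  have heinj : Function.Injective e := e.toRingHom.injective
  have hroot : ∀ x : S, x ∈ (P.map (Int.castRingHom ℚ)).rootSet S → aeval (e x) P = 0 := by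
    intro x hx
    rw [← aeval_map_int, aeval_algHom_apply, (mem_rootSet.1 hx).2, map_zero]
  have hnu : ∀ x ∈ (P.map (Int.castRingHom ℚ)).rootSet S, ∀ n : ℕ, n ≠ 0 →
      x ^ (2 * n) ≠ (q : S) ^ n := by
    intro x hx n hn h
    have h1 := hroot x hx
    have h2 : e x ∈ rootField P := IntermediateField.subset_adjoin ℚ _ h1
    apply (hP.2.2 ⟨e x, h2⟩ h1).1 n hn
    change e x ^ (2 * n) = (q : ℂ) ^ n
    rw [← map_pow, h, map_pow, map_natCast]
  refine ⟨?_, hnu, ?_⟩
  · intro x hx
    -- the embedding of the field generated by the roots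
    have hle : rootField P ≤ e.fieldRange := by
      rw [rootField, IntermediateField.adjoin_le_iff]
      intro z hz
      have h1 : z ∈ (P.map (Int.castRingHom ℚ)).rootSet ℂ := (mem_rootSet_map hmon z).2 hz
      rw [← hsplit.image_rootSet e] at h1
      obtain ⟨y, -, rfl⟩ := h1
      exact ⟨y, rfl⟩
    let j : rootField P →ₐ[ℚ] S :=
      ((AlgEquiv.ofInjectiveField e).symm : e.range →ₐ[ℚ] S).comp
        ((rootField P).val.codRestrict e.range fun z => hle z.2)
    have hj : ∀ z : rootField P, e (j z) = z := by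
      intro z
      have h1 : (AlgEquiv.ofInjectiveField e) (j z) =
          (rootField P).val.codRestrict e.range (fun z => hle z.2) z :=
        (AlgEquiv.ofInjectiveField e).apply_symm_apply _
      exact congrArg Subtype.val h1
    let _ : Algebra (rootField P) S := j.toRingHom.toAlgebra
    have : IsScalarTower ℚ (rootField P) S := IsScalarTower.of_algebraMap_eq fun x => by
      change algebraMap ℚ S x = j (algebraMap ℚ (rootField P) x)
      rw [AlgHom.commutes]
    have hx1 := hroot x hx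
    have hx2 : e x ∈ rootField P := IntermediateField.subset_adjoin ℚ _ hx1
    obtain ⟨-, σ, hσ1, hσ2⟩ := hP.2.2 ⟨e x, hx2⟩ hx1
    set τ : S ≃ₐ[ℚ] S := σ.liftNormal S with hτ
    have hτj : ∀ z : rootField P, τ (j z) = j (σ z) := fun z => σ.liftNormal_commutes S z
    have hxj : ∀ y : S, ∀ hy : e y ∈ rootField P, j ⟨e y, hy⟩ = y := by
      intro y hy
      apply heinj
      rw [hj]
    have hτx : x * τ x = q := by
      apply heinj
      have h1 : τ x = j (σ ⟨e x, hx2⟩) := by
        rw [← hτj, hxj]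
      rw [map_mul, h1, hj, map_natCast]
      exact hσ1
    refine ⟨τ, hτx, ?_, ?_⟩
    · intro h
      apply hnu x hx 1 one_ne_zero
      rw [h] at hτx
      rw [mul_one, pow_one, pow_two, hτx]
    · intro y hy hyx hxy
      have hy1 := hroot y hy
      have hy2 : e y ∈ rootField P := IntermediateField.subset_adjoin ℚ _ hy1
      have h1 := hσ2 ⟨e y, hy2⟩ hy1 (by
        intro h
        apply hyx
        exact heinj (congrArg Subtype.val h)) (by
        intro h
        apply hxy
        apply heinj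
        rw [map_mul, map_natCast]
        exact h)
      rw [← hxj y hy2, hτj, h1]
  · intro x hx y hy
    have hx1 := generic_minpoly hP hx
    have hy1 := generic_minpoly hP hy
    obtain ⟨σ, hσ⟩ := minpoly.exists_algEquiv_of_root' (K := ℚ) (x := y) (y := x)
      ⟨P.map (Int.castRingHom ℚ), (hmon.map _).ne_zero, (mem_rootSet.1 hx).2⟩ (by
        rw [hx1]
        exact (mem_rootSet.1 hy).2)
    exact ⟨σ, hσ⟩

/-- **Relations with foreign numbers.** -/
theorem generic_relation {q : ℕ} (hq : q ≠ 0) {P : ℤ[X]} (hP : P ∈ generic q) {R : ℚ[X]}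
    (hR : R = P.map (Int.castRingHom ℚ)) (s : Multiset ℂ)
    (halg : ∀ b ∈ s, IsAlgebraic ℚ b) (hs : ∀ b ∈ s, b ≠ 0 ∧ Foreign P b)
    (d : R.rootSet ℂ → ℕ) (m N : ℕ) (hm : m ≠ 0)
    (hrel : s.prod * (∏ x : R.rootSet ℂ, (x : ℂ) ^ (d x)) ^ m = (q : ℂ) ^ N)
    (x y : R.rootSet ℂ) (hxy : (x : ℂ) * y = q) : d x = d y := by
  classical
  have hmon : P.Monic := generic_monic hP
  have hRsep : R.Separable := by
    rw [hR]
    exact (generic_irreducible hP).separable
  have hR0 : R ≠ 0 := hRsep.ne_zero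
  have hRn : ∀ z : ℂ, aeval z R = 0 → ‖z‖ ^ 2 = q := by
    intro z hz
    rw [hR, aeval_map_int] at hz
    exact generic_norm hP hz
  set T : ℚ[X] := R * ∏ b ∈ s.toFinset, minpoly ℚ b with hT
  have hT0 : T ≠ 0 := by
    refine mul_ne_zero hR0 (Finset.prod_ne_zero_iff.2 fun b hb => ?_)
    exact minpoly.ne_zero (halg b (Multiset.mem_toFinset.1 hb)).isIntegral
  obtain ⟨S, _, _, hST⟩ := exists_nf T
  have hnormal : Normal ℚ S := Normal.of_isSplittingField T
  have hgal : IsGalois ℚ S := isGalois_iff.2 ⟨inferInstance, hnormal⟩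
  let e : S →ₐ[ℚ] ℂ := IsSplittingField.lift S T (IsAlgClosed.splits _)
  have heinj : Function.Injective e := e.toRingHom.injective
  have hTs : (T.map (algebraMap ℚ S)).Splits := IsSplittingField.splits S T
  have hsplit : (R.map (algebraMap ℚ S)).Splits := by
    refine Splits.of_dvd hTs (Polynomial.map_ne_zero hT0) ?_
    exact Polynomial.map_dvd _ (Dvd.intro _ hT.symm)
  obtain ⟨hsc, hnu, htr⟩ := generic_struct hP S (by rw [← hR]; exact hsplit) e
  rw [← hR] at hsc hnu htr
  -- the roots of polynomials that split in `S`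
  have himage : ∀ Q : ℚ[X], (Q.map (algebraMap ℚ S)).Splits → e '' Q.rootSet S = Q.rootSet ℂ :=
    fun Q hQ => hQ.image_rootSet e
  have hlift : ∀ b ∈ s, ∃ b' : S, e b' = b := by
    intro b hb
    have hb0 : minpoly ℚ b ≠ 0 := minpoly.ne_zero (halg b hb).isIntegral
    have h1 : b ∈ (minpoly ℚ b).rootSet ℂ := by
      rw [Polynomial.mem_rootSet]
      exact ⟨hb0, minpoly.aeval ℚ b⟩
    rw [← himage] at h1
    · obtain ⟨b', -, h2⟩ := h1
      exact ⟨b', h2⟩
    · refine Splits.of_dvd hTs (Polynomial.map_ne_zero hT0) ?_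
      refine Polynomial.map_dvd _ (Dvd.dvd.mul_left ?_ _)
      exact Finset.dvd_prod_of_mem _ (Multiset.mem_toFinset.2 hb)
  obtain ⟨s', hs'⟩ : ∃ s' : Multiset S, s'.map e = s := by
    have key : ∀ t : Multiset ℂ, (∀ b ∈ t, ∃ b' : S, e b' = b) → ∃ s' : Multiset S, s'.map e = t := by
      intro t
      induction t using Multiset.induction_on with
      | empty => intro _; exact ⟨0, rfl⟩
      | cons a t ih =>
        intro ht
        obtain ⟨t', ht'⟩ := ih fun b hb => ht b (Multiset.mem_cons_of_mem hb)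
        obtain ⟨a', ha'⟩ := ht a (Multiset.mem_cons_self a t)
        exact ⟨a' ::ₘ t', by rw [Multiset.map_cons, ht', ha']⟩
    exact key s hlift
  have hmem' : ∀ b' ∈ s', e b' ∈ s := fun b' hb' => by
    rw [← hs']
    exact Multiset.mem_map_of_mem e hb'
  have hncard : (R.rootSet S).ncard = P.natDegree := by
    rw [← hmon.natDegree_map (Int.castRingHom ℚ), ← hR, ← card_rootSet_eq_natDegree hRsep hsplit,
      ← Nat.card_eq_fintype_card, Nat.card_coe_set_eq]
  -- the embedding on the roots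
  let E : R.rootSet S → R.rootSet ℂ := fun z => ⟨e z, by
    rw [← himage R hsplit]
    exact ⟨z, z.2, rfl⟩⟩
  have hE : Function.Bijective E := by
    constructor
    · intro a b hab
      exact Subtype.ext (heinj (congrArg Subtype.val hab))
    · intro z
      have h1 : (z : ℂ) ∈ e '' R.rootSet S := by
        rw [himage R hsplit]
        exact z.2
      obtain ⟨w, hw, h2⟩ := h1
      exact ⟨⟨w, hw⟩, Subtype.ext h2⟩
  have hbarmem : ∀ z : R.rootSet S, (q : S) / z ∈ R.rootSet S := fun z =>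
    div_mem_rootSet hR0 hq hRn e z.2
  have hz0 : ∀ z : R.rootSet S, (z : S) ≠ 0 := fun z => root_ne_zero hq hRn e z.2
  let bar : R.rootSet S → R.rootSet S := fun z => ⟨(q : S) / z, hbarmem z⟩
  have hmul : ∀ z : R.rootSet S, (z : S) * (bar z : S) = q := fun z => mul_div_cancel₀ _ (hz0 z)
  have hflip : ∀ b ∈ s', ∀ z ∈ R.rootSet S, ∃ h : S ≃ₐ[ℚ] S, h b = b ∧ z * h z = q := by
    intro b hb z hz
    have hmin : minpoly ℚ (e b) = minpoly ℚ b := minpoly.algHom_eq e heinj b
    rcases (hs _ (hmem' b hb)).2.2 with hf | hf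
    · rw [hmin] at hf
      exact flip_of_degree hq (fun x hx => hx) hsc htr (by rw [hncard]; exact hf) hz
    · have hset : {z : ℂ | aeval z (minpoly ℚ (e b)) = 0} = (minpoly ℚ b).rootSet ℂ := by
        ext z
        rw [hmin, Polynomial.mem_rootSet]
        exact ⟨fun h1 => ⟨minpoly.ne_zero (IsIntegral.of_finite ℚ b), h1⟩, fun h1 => h1.2⟩
      obtain ⟨w, hw1, hw2⟩ : ∃ w : ℂ, aeval w P = 0 ∧
          w ∉ IntermediateField.adjoin ℚ ((minpoly ℚ b).rootSet ℂ) := by
        by_contra hcon
        push Not at hcon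
        apply hf
        rw [hset, rootField, IntermediateField.adjoin_le_iff]
        intro w hw
        exact hcon w hw
      have hw3 : w ∈ R.rootSet ℂ := by
        rw [hR]
        exact (mem_rootSet_map hmon w).2 hw1
      rw [← himage _ hsplit] at hw3
      obtain ⟨w', hw', rfl⟩ := hw3
      refine flip_of_normal hq (fun x hx => hx) hsc htr ⟨w', hw', fun hcon => hw2 ?_⟩ hz
      rw [← himage _ (hnormal.splits b), ← IntermediateField.adjoin_map]
      exact ⟨w', hcon, rfl⟩
  have hrel' : s'.prod * (∏ z : R.rootSet S, (z : S) ^ (d (E z))) ^ m = (q : S) ^ N := by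
    apply heinj
    rw [map_mul, map_pow, map_prod, map_pow, map_natCast, map_multiset_prod, hs', ← hrel]
    congr 2
    rw [← hE.prod_comp (fun z : R.rootSet ℂ => (z : ℂ) ^ (d z))]
    refine Finset.prod_congr rfl fun z _ => ?_
    rw [map_pow]
  have hmain := eq_of_relation hq bar hmul hsc hnu s' (fun b hb h0 => by
      apply (hs _ (hmem' b hb)).1
      rw [h0, map_zero]) hflip (fun z => d (E z)) m N hm hrel'
  obtain ⟨x', rfl⟩ := hE.surjective x
  have hy : y = E (bar x') := by
    apply Subtype.ext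
    have h1 : (E x' : ℂ) ≠ 0 := by
      intro h0
      apply hz0 x'
      apply heinj
      rw [map_zero]
      exact h0
    apply mul_left_cancel₀ h1
    rw [hxy]
    change (q : ℂ) = e x' * e (bar x')
    rw [← map_mul, hmul, map_natCast]
  rw [hy]
  exact hmain x'

theorem generic_pow_ne {q : ℕ} {P : ℤ[X]} (hP : P ∈ generic q) {z : ℂ} (hz : aeval z P = 0)
    {n : ℕ} (hn : n ≠ 0) : z ^ (2 * n) ≠ (q : ℂ) ^ n :=
  (hP.2.2 ⟨z, IntermediateField.subset_adjoin ℚ _ hz⟩ hz).1 n hn

/-- A product of roots in which `x` and `q / x` have the same exponent is a power of `q`. -/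
theorem generic_prod_eq {q : ℕ} (hq : q ≠ 0) {P : ℤ[X]} (hP : P ∈ generic q) {R : ℚ[X]}
    (hR : R = P.map (Int.castRingHom ℚ)) (d : R.rootSet ℂ → ℕ)
    (hd : ∀ x y : R.rootSet ℂ, (x : ℂ) * y = q → d x = d y) :
    ∃ a : ℕ, ∑ x, d x = 2 * a ∧ ∏ x : R.rootSet ℂ, (x : ℂ) ^ (d x) = (q : ℂ) ^ a := by
  classical
  have hmon : P.Monic := generic_monic hP
  have hR0 : R ≠ 0 := by
    rw [hR]
    exact (hmon.map _).ne_zero
  have hRn : ∀ z : ℂ, aeval z R = 0 → ‖z‖ ^ 2 = q := by
    intro z hz
    rw [hR, aeval_map_int] at hz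
    exact generic_norm hP hz
  have hq0 : (q : ℂ) ≠ 0 := by exact_mod_cast hq
  have hz0 : ∀ z : R.rootSet ℂ, (z : ℂ) ≠ 0 :=
    fun z => root_ne_zero hq hRn (AlgHom.id ℚ ℂ) z.2
  let bar : R.rootSet ℂ → R.rootSet ℂ := fun z =>
    ⟨(q : ℂ) / z, div_mem_rootSet hR0 hq hRn (AlgHom.id ℚ ℂ) z.2⟩
  have hmul : ∀ z : R.rootSet ℂ, (z : ℂ) * (bar z : ℂ) = q := fun z => mul_div_cancel₀ _ (hz0 z)
  have hbarne : ∀ z, bar z ≠ z := by
    intro z hz
    have hz1 : aeval (z : ℂ) P = 0 := by
      rw [← mem_rootSet_map hmon, ← hR]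
      exact z.2
    apply generic_pow_ne hP hz1 one_ne_zero
    have h2 := hmul z
    rw [hz] at h2
    rw [mul_one, pow_one, pow_two]
    exact h2
  have hbarbar : ∀ z, bar (bar z) = z := by
    intro z
    apply Subtype.ext
    apply mul_left_cancel₀ (hz0 (bar z))
    rw [hmul (bar z), mul_comm, hmul z]
  have hdd : ∀ z, d (bar z) = d z := fun z => (hd z (bar z) (hmul z)).symm
  have heven : (2 : ℕ) ∣ ∑ x, d x := by
    rw [← ZMod.natCast_eq_zero_iff, Nat.cast_sum]
    refine Finset.sum_involution (fun z _ => bar z) ?_ (fun z _ _ => hbarne z)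
      (fun z _ => Finset.mem_univ _) (fun z _ => hbarbar z)
    intro z _
    rw [hdd, ← two_mul]
    have h2 : (2 : ZMod 2) = 0 := rfl
    rw [h2, zero_mul]
  obtain ⟨a, ha⟩ := heven
  refine ⟨a, ha, ?_⟩
  obtain ⟨c, hc⟩ : ∃ c : ℂ, c ^ 2 = q := IsAlgClosed.exists_pow_nat_eq _ two_pos
  have hc0 : c ≠ 0 := by
    rintro rfl
    apply hq0
    rw [← hc]
    norm_num
  have h1 : ∏ x : R.rootSet ℂ, ((x : ℂ) ^ (d x) / c ^ (d x)) = 1 := by
    refine Finset.prod_involution (fun z _ => bar z) ?_ (fun z _ _ => hbarne z)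
      (fun z _ => Finset.mem_univ _) (fun z _ => hbarbar z)
    intro z _
    rw [hdd, ← div_pow, ← div_pow, ← mul_pow, div_mul_div_comm, hmul, ← hc, pow_two,
      div_self (mul_ne_zero hc0 hc0), one_pow]
  rw [Finset.prod_div_distrib, Finset.prod_pow_eq_pow_sum, div_eq_one_iff_eq
    (pow_ne_zero _ hc0)] at h1
  rw [h1, ha, pow_mul, hc]

theorem rootField_le {P Q : ℤ[X]} {q : ℕ} (hP : P ∈ generic q) {z : ℂ}
    (h1 : aeval z P = 0) (h2 : aeval z Q = 0) : rootField P ≤ rootField Q := by
  apply IntermediateField.adjoin.mono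
  intro w hw
  have hmon : P.Monic := generic_monic hP
  have h3 : minpoly ℚ z = minpoly ℚ w := by
    rw [generic_minpoly hP ((mem_rootSet_map hmon z).2 h1),
      generic_minpoly hP ((mem_rootSet_map hmon w).2 hw)]
  have h4 : minpoly ℚ z ∣ Q.map (Int.castRingHom ℚ) :=
    minpoly.dvd ℚ z (by rw [aeval_map_int]; exact h2)
  change aeval w Q = 0
  rw [← aeval_map_int]
  rw [h3] at h4
  obtain ⟨c, hc⟩ := h4
  rw [hc, map_mul, minpoly.aeval, zero_mul]

/-- The separability of the product. -/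
theorem sepCw {r q : ℕ} (w : Fin r → ℕ) (P : Fin r → ℤ[X]) (hP : ∀ k, P k ∈ generic (q ^ w k))
    (hne : ∀ k l, k ≠ l → rootField (P k) ≠ rootField (P l)) :
    (∏ k, (P k).map (Int.castRingHom ℚ)).Separable := by
  classical
  have hsep : ∀ k, ((P k).map (Int.castRingHom ℚ)).Separable := fun k =>
    (generic_irreducible (hP k)).separable
  refine separable_prod (fun k l hkl => ?_) hsep
  rw [Function.onFun, Polynomial.isCoprime_iff_aeval_ne_zero_of_isAlgClosed ℚ ℂ]
  intro z
  by_contra hcon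
  push Not at hcon
  obtain ⟨h1, h2⟩ := hcon
  rw [aeval_map_int] at h1 h2
  exact hne k l hkl (le_antisymm (rootField_le (hP k) h1 h2) (rootField_le (hP l) h2 h1))

theorem sepC {r q : ℕ} (P : Fin r → ℤ[X]) (hP : AllGeneric q P) :
    (∏ k, (P k).map (Int.castRingHom ℚ)).Separable := by
  refine sepCw (q := q) (fun _ => 1) P (fun k => ?_) hP.2
  rw [pow_one]
  exact hP.1 k

/-- The roots of a polynomial whose splitting field does not contain the one of `P` are
foreign. -/
theorem foreign_of_not_le {P Q : ℤ[X]} (hQ : Q ≠ 0) (h : ¬ rootField P ≤ rootField Q) {b : ℂ}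
    (hb : aeval b Q = 0) : Foreign P b := by
  have hb' : aeval b (Q.map (Int.castRingHom ℚ)) = 0 := by rw [aeval_map_int]; exact hb
  refine ⟨⟨Q.map (Int.castRingHom ℚ), ?_, hb'⟩, Or.inr fun hle => h (hle.trans ?_)⟩
  · rwa [Ne, Polynomial.map_eq_zero_iff Int.cast_injective]
  · apply IntermediateField.adjoin.mono
    intro z hz
    change aeval z (minpoly ℚ b) = 0 at hz
    change aeval z Q = 0
    rw [← aeval_map_int]
    obtain ⟨c, hc⟩ := minpoly.dvd ℚ b hb'
    rw [hc, map_mul, hz, zero_mul]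

/-- The power `q` is foreign. -/
theorem foreign_natCast {q q' : ℕ} (hq : q ≠ 0) {P : ℤ[X]} (hP : P ∈ generic q') :
    (q : ℂ) ≠ 0 ∧ Foreign P (q : ℂ) := by
  obtain ⟨⟨g, hg, hW⟩, -⟩ := hP
  refine ⟨by exact_mod_cast hq, isAlgebraic_algebraMap (R := ℚ) (A := ℂ) (q : ℚ), Or.inl ?_⟩
  have h1 : (q : ℂ) = algebraMap ℚ ℂ (q : ℚ) := by simp
  rw [h1, minpoly.eq_X_sub_C, natDegree_X_sub_C, hW.2.1]
  omega

/-- The complex zeros. -/
noncomputable def zeros (P : ℤ[X]) : Finset ℂ := (P.map (Int.castRingHom ℂ)).roots.toFinset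

theorem mem_zeros {P : ℤ[X]} (hP : P ≠ 0) {z : ℂ} : z ∈ zeros P ↔ aeval z P = 0 := by
  rw [zeros, Multiset.mem_toFinset, mem_roots', IsRoot.def, eval_map, aeval_def]
  have h1 : (algebraMap ℤ ℂ) = Int.castRingHom ℂ := Subsingleton.elim _ _
  rw [h1]
  refine ⟨fun h => h.2, fun h => ⟨?_, h⟩⟩
  rwa [Ne, Polynomial.map_eq_zero_iff Int.cast_injective]

/-- One polynomial. -/
theorem single {q : ℕ} (hq : q ≠ 0) {P : ℤ[X]} (hP : P ∈ generic q) (s : Multiset ℂ)
    (hs : ∀ b ∈ s, b ≠ 0 ∧ Foreign P b) (d : ℂ → ℕ) (m N : ℕ) (hm : m ≠ 0)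
    (hrel : s.prod * (∏ z ∈ zeros P, z ^ d z) ^ m = (q : ℂ) ^ N) :
    (∀ z w : ℂ, aeval z P = 0 → z * w = q → d z = d w) ∧
      ∃ a : ℕ, ∏ z ∈ zeros P, z ^ d z = (q : ℂ) ^ a := by
  classical
  have hmon : P.Monic := generic_monic hP
  have hset : ((P.map (Int.castRingHom ℚ)).rootSet ℂ).toFinset = zeros P := by
    ext z
    rw [Set.mem_toFinset, mem_zeros hmon.ne_zero, mem_rootSet_map hmon]
  have hprod : ∏ x : (P.map (Int.castRingHom ℚ)).rootSet ℂ, (x : ℂ) ^ (d x) =
      ∏ z ∈ zeros P, z ^ d z := by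
    rw [← hset, ← Finset.prod_set_coe]
  have hrel' := hrel
  rw [← hprod] at hrel'
  have h1 := generic_relation hq hP rfl s (fun b hb => (hs b hb).2.1)
    (fun b hb => ⟨(hs b hb).1, (hs b hb).2⟩) (fun x => d x) m N hm hrel'
  refine ⟨?_, ?_⟩
  · intro z w hz hzw
    have hz1 : z ∈ (P.map (Int.castRingHom ℚ)).rootSet ℂ := (mem_rootSet_map hmon z).2 hz
    have hRn : ∀ z : ℂ, aeval z (P.map (Int.castRingHom ℚ)) = 0 → ‖z‖ ^ 2 = q := by
      intro z hz
      rw [aeval_map_int] at hz
      exact generic_norm hP hz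
    have hz0 : z ≠ 0 := root_ne_zero hq hRn (AlgHom.id ℚ ℂ) hz1
    have hw : w = (q : ℂ) / z := by
      rw [eq_div_iff hz0, mul_comm, hzw]
    have hw1 : w ∈ (P.map (Int.castRingHom ℚ)).rootSet ℂ := by
      rw [hw]
      exact div_mem_rootSet (hmon.map _).ne_zero hq hRn (AlgHom.id ℚ ℂ) hz1
    exact h1 ⟨z, hz1⟩ ⟨w, hw1⟩ hzw
  · obtain ⟨a, -, ha⟩ := generic_prod_eq hq hP rfl (fun x => d x) h1
    exact ⟨a, by rw [← hprod]; exact ha⟩

/-- The weights may be different: the roots of `P k` have absolute value `q ^ (w k / 2)`. -/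
theorem relCw_aux {ι : Type*} [DecidableEq ι] {q : ℕ} (hq : q ≠ 0) (w : ι → ℕ)
    (hw : ∀ k, w k ≠ 0) (P : ι → ℤ[X]) (hG : ∀ k, P k ∈ generic (q ^ w k))
    (hne : ∀ k l, k ≠ l → rootField (P k) ≠ rootField (P l))
    (d : ℂ → ℕ) (m : ℕ) (hm : m ≠ 0) (I : Finset ι) :
    ∀ (s : Multiset ℂ) (N : ℕ), (∀ b ∈ s, b ≠ 0 ∧ ∀ k ∈ I, Foreign (P k) b) →
      s.prod * (∏ k ∈ I, ∏ z ∈ zeros (P k), z ^ d z) ^ m = (q : ℂ) ^ N →
      ∀ k ∈ I, ∀ x y : ℂ, aeval x (P k) = 0 → x * y = (q : ℂ) ^ w k → d x = d y := by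
  classical
  have hP0 : ∀ k, P k ≠ 0 := fun k => (generic_monic (hG k)).ne_zero
  have hqw : ∀ k, q ^ w k ≠ 0 := fun k => pow_ne_zero _ hq
  induction I using Finset.strongInduction with
  | H I ih =>
    intro s N hs hrel
    by_cases hI : I.Nonempty
    · obtain ⟨i, hi, himax⟩ := Finset.exists_maximalFor (fun k => rootField (P k)) I hI
      have hnle : ∀ j ∈ I, j ≠ i → ¬ rootField (P i) ≤ rootField (P j) := by
        intro j hj hji hle
        exact hne i j hji.symm (le_antisymm hle (himax hj hle))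
      set J := I.erase i with hJ
      set t : Multiset ℂ := ∑ k ∈ J, ∑ z ∈ zeros (P k), Multiset.replicate (d z * m) z with ht
      have htprod : t.prod = (∏ k ∈ J, ∏ z ∈ zeros (P k), z ^ d z) ^ m := by
        rw [ht, Multiset.prod_sum, ← Finset.prod_pow]
        refine Finset.prod_congr rfl fun k _ => ?_
        rw [Multiset.prod_sum, ← Finset.prod_pow]
        refine Finset.prod_congr rfl fun z _ => ?_
        rw [Multiset.prod_replicate, pow_mul]
      have htmem : ∀ b ∈ t, b ≠ 0 ∧ Foreign (P i) b := by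
        intro b hb
        rw [ht, Multiset.mem_sum] at hb
        obtain ⟨k, hk, hb⟩ := hb
        rw [Multiset.mem_sum] at hb
        obtain ⟨z, hz, hb⟩ := hb
        have hbz : b = z := Multiset.eq_of_mem_replicate hb
        rw [mem_zeros (hP0 k)] at hz
        rw [hbz]
        have hk1 := Finset.mem_erase.1 hk
        refine ⟨?_, foreign_of_not_le (hP0 k) (hnle k hk1.2 hk1.1) hz⟩
        rintro rfl
        have h2 := generic_norm (hG k) hz
        rw [norm_zero] at h2
        apply hqw k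
        have h3 : ((q ^ w k : ℕ) : ℝ) = 0 := by rw [← h2]; norm_num
        exact_mod_cast h3
      -- multiply with a power of `q`
      set M : ℕ := N * (w i - 1) with hM
      have hwi : w i = (w i - 1) + 1 := by
        have := hw i
        omega
      have hqM : (q : ℂ) ^ N * (q : ℂ) ^ M = ((q ^ w i : ℕ) : ℂ) ^ N := by
        rw [Nat.cast_pow, ← pow_mul, ← pow_add, hM]
        congr 1
        conv_rhs => rw [hwi]
        ring
      have hrel1 : (s + t + Multiset.replicate M (q : ℂ)).prod *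
          (∏ z ∈ zeros (P i), z ^ d z) ^ m = ((q ^ w i : ℕ) : ℂ) ^ N := by
        rw [Multiset.prod_add, Multiset.prod_add, htprod, Multiset.prod_replicate, ← hqM, ← hrel,
          ← Finset.mul_prod_erase I _ hi, mul_pow]
        ring
      obtain ⟨h1, a, ha⟩ := single (hqw i) (hG i) (s + t + Multiset.replicate M (q : ℂ)) (by
        intro b hb
        rcases Multiset.mem_add.1 hb with hb | hb
        · rcases Multiset.mem_add.1 hb with hb | hb
          · exact ⟨(hs b hb).1, (hs b hb).2 i hi⟩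
          · exact htmem b hb
        · rw [Multiset.eq_of_mem_replicate hb]
          exact foreign_natCast hq (hG i)) d m N hm hrel1
      have h2 := ih J (Finset.erase_ssubset hi)
        (s + Multiset.replicate (w i * a * m) (q : ℂ)) N (by
          intro b hb
          rcases Multiset.mem_add.1 hb with hb | hb
          · exact ⟨(hs b hb).1, fun k hk => (hs b hb).2 k (Finset.mem_of_mem_erase hk)⟩
          · rw [Multiset.eq_of_mem_replicate hb]
            exact ⟨by exact_mod_cast hq, fun k _ => (foreign_natCast hq (hG k)).2⟩) (by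
          rw [Multiset.prod_add, Multiset.prod_replicate, ← hrel, ← Finset.mul_prod_erase I _ hi,
            mul_pow, ha, Nat.cast_pow, ← pow_mul, ← pow_mul, mul_assoc, mul_assoc (w i)])
      intro k hk x y hx hxy
      by_cases hki : k = i
      · rw [hki] at hx hxy
        exact h1 x y hx (by rw [hxy, Nat.cast_pow])
      · exact h2 k (Finset.mem_erase.2 ⟨hki, hk⟩) x y hx hxy
    · intro k hk
      exact absurd ⟨k, hk⟩ hI

/-- **Relations between the roots of a generic family and foreign numbers are trivial.** -/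
theorem relC {r q : ℕ} (hq : q ≠ 0) (P : Fin r → ℤ[X]) (hP : AllGeneric q P)
    (s : Multiset ℂ) (hs : ∀ b ∈ s, b ≠ 0 ∧ ∀ k, Foreign (P k) b) (d : ℂ → ℕ) (m N : ℕ)
    (hm : m ≠ 0)
    (hrel : s.prod * (∏ z ∈ ((∏ k, P k).map (Int.castRingHom ℂ)).roots.toFinset, z ^ d z) ^ m =
      (q : ℂ) ^ N)
    (z w : ℂ) (hz : aeval z (∏ k, P k) = 0) (hzw : z * w = q) : d z = d w := by
  classical
  have hG : ∀ k, P k ∈ generic (q ^ (fun _ : Fin r => 1) k) := by
    intro k
    rw [pow_one]
    exact hP.1 k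
  have hP0 : ∀ k, P k ≠ 0 := fun k => (generic_monic (hP.1 k)).ne_zero
  have hR0 : (∏ k, P k) ≠ 0 := Finset.prod_ne_zero_iff.2 fun k _ => hP0 k
  have hU : ((∏ k, P k).map (Int.castRingHom ℂ)).roots.toFinset =
      Finset.univ.biUnion fun k => zeros (P k) := by
    ext z
    have h1 : z ∈ ((∏ k, P k).map (Int.castRingHom ℂ)).roots.toFinset ↔ _ :=
      mem_zeros (P := ∏ k, P k) hR0
    rw [h1, map_prod, Finset.prod_eq_zero_iff, Finset.mem_biUnion]
    exact exists_congr fun k => and_congr Iff.rfl (mem_zeros (hP0 k)).symm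
  rw [hU, Finset.prod_biUnion] at hrel
  · rw [map_prod, Finset.prod_eq_zero_iff] at hz
    obtain ⟨k, -, hz⟩ := hz
    exact relCw_aux hq (fun _ => 1) (fun _ => one_ne_zero) P hG hP.2 d m hm Finset.univ s N
      (fun b hb => ⟨(hs b hb).1, fun k _ => (hs b hb).2 k⟩) hrel k (Finset.mem_univ k) z w hz
      (by rw [pow_one]; exact hzw)
  · intro k _ l _ hkl
    rw [Function.onFun, Finset.disjoint_left]
    intro z h1 h2
    rw [mem_zeros (hP0 _)] at h1 h2
    exact hP.2 k l hkl (le_antisymm (rootField_le (hP.1 k) h1 h2) (rootField_le (hP.1 l) h2 h1))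

/-- The conditions at primes imply that a polynomial is generic. -/
theorem gen_generic {q : ℕ} (hq : q ≠ 0) {P : ℤ[X]} (hP : P ∈ gen q) : P ∈ generic q := by
  classical
  obtain ⟨g, hg⟩ := gen_regular hq hP
  have hmon : P.Monic := (hg.hP ()).1
  have hprod : (∏ i : Unit, (fun _ : Unit => P) i) = P := by
    rw [Fintype.prod_unique]
  have hsep : (P.map (Int.castRingHom ℚ)).Separable := by
    have h1 := hg.separable
    rwa [hprod] at h1
  have hspl := rootField_splitting hmon
  have hfin := rootField_finite hmon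
  have hnormal := rootField_normal hmon
  have : NumberField (rootField P) := { to_charZero := inferInstance, to_finiteDimensional := hfin }
  have hgal : IsGalois ℚ (rootField P) := isGalois_iff.2 ⟨inferInstance, hnormal⟩
  have hsplit : ((P.map (Int.castRingHom ℚ)).map (algebraMap ℚ (rootField P))).Splits :=
    IsSplittingField.splits _ _
  have hmm : (algebraMap ℚ (rootField P)).comp (Int.castRingHom ℚ) =
      Int.castRingHom (rootField P) := Subsingleton.elim _ _
  obtain ⟨hsc, hnu, htr⟩ := hg.struct (rootField P) (by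
    rw [hprod, ← hmm, ← Polynomial.map_map]
    exact hsplit) (rootField P).val
  rw [hprod] at hsc hnu
  have hroot : ∀ z : rootField P, aeval (z : ℂ) P = 0 →
      z ∈ (P.map (Int.castRingHom ℚ)).rootSet (rootField P) := by
    intro z hz
    rw [mem_rootSet_map hmon]
    apply (rootField P).val.toRingHom.injective
    rw [map_zero]
    have h1 : aeval ((rootField P).val z) (P.map (Int.castRingHom ℚ)) =
        (rootField P).val (aeval z (P.map (Int.castRingHom ℚ))) := aeval_algHom_apply _ _ _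
    have h2 : aeval z (P.map (Int.castRingHom ℚ)) = aeval z P := aeval_map_algebraMap ℚ z P
    rw [h2, aeval_map_int] at h1
    exact h1.symm.trans hz
  refine ⟨⟨g, hg.hg (), hg.hP ()⟩, ?_, ?_⟩
  · -- irreducibility
    have hdeg : 0 < (P.map (Int.castRingHom ℚ)).natDegree := by
      rw [hmon.natDegree_map, (hg.hP ()).2.1]
      have := hg.hg ()
      omega
    obtain ⟨x, hx⟩ : ∃ x : rootField P, x ∈ (P.map (Int.castRingHom ℚ)).rootSet (rootField P) := by
      obtain ⟨x, hx⟩ := hsplit.exists_eval_eq_zero (by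
        rw [degree_map]
        exact (natDegree_pos_iff_degree_pos.1 hdeg).ne')
      refine ⟨x, ?_⟩
      rw [Polynomial.mem_rootSet]
      refine ⟨hsep.ne_zero, ?_⟩
      rwa [eval_map_algebraMap] at hx
    have hint : IsIntegral ℚ x := IsIntegral.of_finite ℚ x
    have hall : ∀ y ∈ (P.map (Int.castRingHom ℚ)).rootSet (rootField P),
        y ∈ (minpoly ℚ x).rootSet (rootField P) := by
      intro y hy
      obtain ⟨γ, rfl⟩ := htr () x hx y hy
      rw [Polynomial.mem_rootSet]
      refine ⟨minpoly.ne_zero hint, ?_⟩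
      have h1 : aeval (γ x) (minpoly ℚ x) = γ (aeval x (minpoly ℚ x)) :=
        aeval_algHom_apply (γ : rootField P →ₐ[ℚ] rootField P) x _
      rw [h1, minpoly.aeval, map_zero]
    have hdvd : minpoly ℚ x ∣ P.map (Int.castRingHom ℚ) := minpoly.dvd ℚ x (mem_rootSet.1 hx).2
    have hle : (P.map (Int.castRingHom ℚ)).natDegree ≤ (minpoly ℚ x).natDegree := by
      rw [← card_rootSet_eq_natDegree hsep hsplit,
        ← card_rootSet_eq_natDegree (minpoly.irreducible hint).separable (hnormal.splits x)]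
      exact Fintype.card_le_of_injective (fun y => (⟨(y : rootField P), hall y y.2⟩ :
        (minpoly ℚ x).rootSet (rootField P)))
        fun y z h => Subtype.ext (congrArg (fun u : (minpoly ℚ x).rootSet (rootField P) =>
          (u : rootField P)) h)
    have heq : minpoly ℚ x = P.map (Int.castRingHom ℚ) :=
      (eq_of_monic_of_dvd_of_natDegree_le (minpoly.monic hint) (hmon.map _) hdvd hle).symm
    apply hmon.irreducible_of_irreducible_map (Int.castRingHom ℚ)
    rw [← heq]
    exact minpoly.irreducible hint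
  · intro z hz
    have hz1 := hroot z hz
    refine ⟨?_, ?_⟩
    · intro n hn h
      apply hnu z hz1 n hn
      apply Subtype.ext
      push_cast
      exact h
    · obtain ⟨σ, hσ1, hσ2, hσ3⟩ := hsc z hz1
      refine ⟨σ, ?_, ?_⟩
      · have h1 := congrArg (fun u : rootField P => (u : ℂ)) hσ1
        push_cast at h1
        exact h1
      · intro w hw hwz hzw
        apply hσ3 w (hroot w hw) hwz
        intro h
        apply hzw
        have h1 := congrArg (fun u : rootField P => (u : ℂ)) h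
        push_cast at h1
        exact h1

end Pool.Agent.Lib.MP_021685_agG
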