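import Mathlib
import Pool.Agent.Lib.MP_021685_agG.Setup
import Pool.Agent.Lib.MP_021685_agG.RelC
import Pool.Agent.Lib.MP_021685_agG.LinY

/-!
# Generic factors add nothing
-/

set_option autoImplicit false

open Polynomial NumberField Pool.Agent.Lib.MP_021685_ag Pool.Agent.Lib.MP_021685_agD

open scoped TensorProduct

namespace Pool.Agent.Lib.MP_021685_agG

theorem prod_balanced {Ω M : Type*} [Fintype Ω] [DecidableEq Ω] [CommMonoid M] (bar : Ω → Ω)
    (hbar : ∀ x, bar (bar x) = x) (hfix : ∀ x, bar x ≠ x) (f : Ω → M) (c : M)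
    (hf : ∀ x, f x * f (bar x) = c) : ∀ (N : ℕ) (d : Ω → ℕ), ∑ x, d x = N →
      (∀ x, d x = d (bar x)) → ∃ m, N = 2 * m ∧ ∏ x, f x ^ d x = c ^ m := by
  intro N
  induction N using Nat.strong_induction_on with
  | _ N ih =>
    intro d hd hb
    by_cases h0 : ∀ x, d x = 0
    · refine ⟨0, ?_, ?_⟩
      · rw [← hd]
        simp [h0]
      · simp [h0]
    · push Not at h0
      obtain ⟨x, hx⟩ := h0
      have hbx := hfix x
      set d' : Ω → ℕ := fun y => if y = x ∨ y = bar x then d y - 1 else d y with hd'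
      have h1 : ∀ y, d y = d' y + (if y = x then 1 else 0) + (if y = bar x then 1 else 0) := by
        intro y
        simp only [hd']
        by_cases h2 : y = x
        · subst h2
          simp only [true_or, if_true]
          rw [if_neg (Ne.symm hbx)]
          omega
        · by_cases h3 : y = bar x
          · subst h3
            have h4 := hb x
            simp only [or_true, if_true]
            rw [if_neg hbx]
            omega
          · simp [h2, h3]
      have h2 : ∑ y, d y = ∑ y, d' y + 1 + 1 := by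
        rw [Finset.sum_congr rfl fun y _ => h1 y, Finset.sum_add_distrib, Finset.sum_add_distrib]
        simp
      have h3 : ∀ y, d' y = d' (bar y) := by
        intro y
        simp only [hd']
        have h4 : (y = x ∨ y = bar x) ↔ (bar y = x ∨ bar y = bar x) := by
          constructor
          · rintro (h | h)
            · right; rw [h]
            · left; rw [h, hbar]
          · rintro (h | h)
            · right; rw [← h, hbar]
            · left
              have := congrArg bar h
              rwa [hbar, hbar] at this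
        by_cases h5 : y = x ∨ y = bar x
        · rw [if_pos h5, if_pos (h4.1 h5), hb y]
        · rw [if_neg h5, if_neg (fun h => h5 (h4.2 h)), hb y]
      obtain ⟨m, hm1, hm2⟩ := ih (∑ y, d' y) (by omega) d' rfl h3
      refine ⟨m + 1, by omega, ?_⟩
      have h4 : ∏ y, f y ^ d y = (∏ y, f y ^ d' y) * (f x * f (bar x)) := by
        rw [Finset.prod_congr rfl fun y _ => by rw [h1 y, pow_add, pow_add],
          Finset.prod_mul_distrib, Finset.prod_mul_distrib, mul_assoc]
        congr 1
        congr 1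
        · rw [Finset.prod_eq_single x]
          · simp
          · intro y _ hy
            rw [if_neg hy, pow_zero]
          · intro h; exact absurd (Finset.mem_univ x) h
        · rw [Finset.prod_eq_single (bar x)]
          · simp
          · intro y _ hy
            rw [if_neg hy, pow_zero]
          · intro h; exact absurd (Finset.mem_univ _) h
      rw [h4, hm2, hf, pow_succ]

theorem aeval_rTensor {K : Type*} [Field K] {V U : Type*} [AddCommGroup V] [Module K V]
    [AddCommGroup U] [Module K U] (f : Module.End K V) (p : K[X]) :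
    aeval (TensorProduct.map f (LinearMap.id : U →ₗ[K] U) : Module.End K (V ⊗[K] U)) p =
      TensorProduct.map (aeval f p) LinearMap.id := by
  induction p using Polynomial.induction_on' with
  | add p q hp hq => rw [map_add, map_add, hp, hq, TensorProduct.map_add_left]
  | monomial n a =>
    rw [aeval_monomial, aeval_monomial, Module.algebraMap_end_eq_smul_id,
      Module.algebraMap_end_eq_smul_id]
    apply TensorProduct.ext'
    intro v u
    have h1 : ∀ (k : ℕ) (v : V) (u : U),
        ((TensorProduct.map f (LinearMap.id : U →ₗ[K] U) : Module.End K (V ⊗[K] U)) ^ k)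
          (v ⊗ₜ[K] u) = ((f ^ k) v) ⊗ₜ[K] u := by
      intro k
      induction k with
      | zero => intro v u; simp
      | succ k ih =>
        intro v u
        rw [pow_succ, Module.End.mul_apply, TensorProduct.map_tmul, ih, pow_succ,
          Module.End.mul_apply]
        rfl
    rw [Module.End.mul_apply, h1, TensorProduct.map_tmul, Module.End.mul_apply]
    simp [TensorProduct.smul_tmul']

theorem aeval_lTensor {K : Type*} [Field K] {V U : Type*} [AddCommGroup V] [Module K V]
    [AddCommGroup U] [Module K U] (g : Module.End K U) (p : K[X]) :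
    aeval (TensorProduct.map (LinearMap.id : V →ₗ[K] V) g : Module.End K (V ⊗[K] U)) p =
      TensorProduct.map LinearMap.id (aeval g p) := by
  induction p using Polynomial.induction_on' with
  | add p q hp hq => rw [map_add, map_add, hp, hq, TensorProduct.map_add_right]
  | monomial n a =>
    rw [aeval_monomial, aeval_monomial, Module.algebraMap_end_eq_smul_id,
      Module.algebraMap_end_eq_smul_id]
    apply TensorProduct.ext'
    intro v u
    have h1 : ∀ (k : ℕ) (v : V) (u : U),
        ((TensorProduct.map (LinearMap.id : V →ₗ[K] V) g : Module.End K (V ⊗[K] U)) ^ k)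
          (v ⊗ₜ[K] u) = v ⊗ₜ[K] ((g ^ k) u) := by
      intro k
      induction k with
      | zero => intro v u; simp
      | succ k ih =>
        intro v u
        rw [pow_succ, Module.End.mul_apply, TensorProduct.map_tmul, ih, pow_succ,
          Module.End.mul_apply]
        rfl
    rw [Module.End.mul_apply, h1, TensorProduct.map_tmul, Module.End.mul_apply]
    simp

theorem tmulAux {K : Type} [Field K] {V U : Type} [AddCommGroup V] [Module K V] [AddCommGroup U]
    [Module K U] (f : Module.End K V) (g : Module.End K U) :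
    (TensorProduct.map f (LinearMap.id : U →ₗ[K] U) : Module.End K (V ⊗[K] U)) *
      (TensorProduct.map (LinearMap.id : V →ₗ[K] V) g) = TensorProduct.map f g ∧
    (TensorProduct.map (LinearMap.id : V →ₗ[K] V) g : Module.End K (V ⊗[K] U)) *
      (TensorProduct.map f (LinearMap.id : U →ₗ[K] U)) = TensorProduct.map f g := by
  constructor
  · apply TensorProduct.ext'
    intro v u
    simp
  · apply TensorProduct.ext'
    intro v u
    simp

theorem generic_sq_ne {q : ℕ} {P : ℤ[X]} (hP : P ∈ generic q) {z : ℂ}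
    (hz : aeval z P = 0) : z * z ≠ q := by
  obtain ⟨-, -, h⟩ := hP
  have h1 := (h ⟨z, IntermediateField.subset_adjoin ℚ _ hz⟩ hz).1 1 one_ne_zero
  intro h2
  apply h1
  rw [mul_one, pow_one, pow_two]
  exact h2

/-- The relations in a field `S`. -/
theorem relS {r : ℕ} {q : ℕ} (hq : q ≠ 0) (P : Fin r → ℤ[X]) (hP : AllGeneric q P)
    {P' : ℚ[X]} (hP' : P' = ∏ k, (P k).map (Int.castRingHom ℚ))
    {S : Type} [Field S] [Algebra ℚ S] (e₀ : S →ₐ[ℚ] ℂ)
    (hspl : (P'.map (algebraMap ℚ S)).Splits) (bar : P'.rootSet S → P'.rootSet S)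
    (hmul : ∀ x : P'.rootSet S, (x : S) * (bar x : S) = q) (α : S) (s : Multiset ℂ)
    (hsα : s.prod = e₀ α) (hs : ∀ b ∈ s, b ≠ 0 ∧ ∀ k, Foreign (P k) b)
    (d : P'.rootSet S → ℕ) (m N : ℕ) (hm : m ≠ 0)
    (hrel : α * (∏ x : P'.rootSet S, (x : S) ^ (d x)) ^ m = (q : S) ^ N) (x : P'.rootSet S) :
    d x = d (bar x) := by
  classical
  have hmon : ∀ k, (P k).Monic := fun k => by
    obtain ⟨⟨g, -, hW⟩, -⟩ := hP.1 k
    exact hW.1
  have hmonR : (∏ k, P k).Monic := monic_prod_of_monic _ _ fun i _ => hmon i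
  have hPR : P' = (∏ k, P k).map (Int.castRingHom ℚ) := by rw [hP', Polynomial.map_prod]
  have hinj : Function.Injective fun x : P'.rootSet S => e₀ (x : S) := by
    intro x y h
    exact Subtype.ext (e₀.toRingHom.injective h)
  let d' : ℂ → ℕ := fun z => if h : ∃ x : P'.rootSet S, e₀ (x : S) = z then d h.choose else 0
  have hd' : ∀ x : P'.rootSet S, d' (e₀ (x : S)) = d x := by
    intro x
    have h : ∃ y : P'.rootSet S, e₀ (y : S) = e₀ (x : S) := ⟨x, rfl⟩
    simp only [d']
    rw [dif_pos h]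
    congr 1
    exact hinj h.choose_spec
  have himg : ((∏ k, P k).map (Int.castRingHom ℂ)).roots.toFinset =
      Finset.univ.image fun x : P'.rootSet S => e₀ (x : S) := by
    ext z
    rw [Multiset.mem_toFinset, mem_roots (hmonR.map _).ne_zero, IsRoot.def, eval_map,
      Finset.mem_image]
    have h1 : z ∈ P'.rootSet ℂ ↔ eval₂ (Int.castRingHom ℂ) z (∏ k, P k) = 0 := by
      rw [hPR, mem_rootSet_iff hmonR.ne_zero]
      rfl
    rw [← h1, ← hspl.image_rootSet e₀]
    constructor
    · rintro ⟨x, hx, rfl⟩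
      exact ⟨⟨x, hx⟩, Finset.mem_univ _, rfl⟩
    · rintro ⟨x, -, rfl⟩
      exact ⟨x, x.2, rfl⟩
  have h1 := relC hq P hP s hs d' m N hm (by
    rw [himg, Finset.prod_image (fun x _ y _ h => hinj h), hsα]
    have h2 := congrArg e₀ hrel
    simp only [map_mul, map_pow, map_prod, map_natCast] at h2
    rw [← h2]
    congr 2
    refine Finset.prod_congr rfl fun x _ => ?_
    rw [hd']) (e₀ (x : S)) (e₀ (bar x : S)) (by
    have h2 : aeval (x : S) P' = 0 := (mem_rootSet.1 x.2).2
    rw [← haev, ← hPR, aeval_algHom_apply, h2, map_zero]) (by rw [← map_mul, hmul, map_natCast])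
  rwa [hd', hd'] at h1

/-- The basic facts on a splitting field. -/
theorem baseC {r : ℕ} {q : ℕ} (hq : q ≠ 0) (P : Fin r → ℤ[X]) (hP : AllGeneric q P)
    {P' : ℚ[X]} (hP' : P' = ∏ k, (P k).map (Int.castRingHom ℚ))
    {S : Type} [Field S] [Algebra ℚ S] (e₀ : S →ₐ[ℚ] ℂ) :
    P' ≠ 0 ∧ (∀ x : P'.rootSet S, (x : S) ≠ 0) ∧
    ∃ bar : P'.rootSet S → P'.rootSet S, (∀ x, bar (bar x) = x) ∧
      (∀ x, bar x ≠ x) ∧ (∀ x : P'.rootSet S, (x : S) * (bar x : S) = q) := by
  have hmon : ∀ k, (P k).Monic := fun k => by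
    obtain ⟨⟨g, -, hW⟩, -⟩ := hP.1 k
    exact hW.1
  have hP0 : P' ≠ 0 := by
    rw [hP']
    exact Finset.prod_ne_zero_iff.2 fun i _ => ((hmon i).map _).ne_zero
  have hW : ∀ z : ℂ, aeval z P' = 0 → ‖z‖ ^ 2 = q := by
    intro z hz
    rw [hP', map_prod, Finset.prod_eq_zero_iff] at hz
    obtain ⟨i, -, hi⟩ := hz
    rw [haev] at hi
    obtain ⟨⟨g, -, hW⟩, -⟩ := hP.1 i
    exact hW.2.2.2 z hi
  obtain ⟨bar, hbar, hmul, hcomm⟩ := exists_bar hP0 hq hW e₀
  refine ⟨hP0, fun x => root_ne_zero hq hW e₀ x.2, bar, hbar, ?_, hmul⟩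
  intro x hx
  have h1 := hmul x
  rw [hx] at h1
  have h2 : aeval (x : S) (∏ k, (P k).map (Int.castRingHom ℚ)) = 0 := by
    rw [← hP']
    exact (mem_rootSet.1 x.2).2
  rw [map_prod, Finset.prod_eq_zero_iff] at h2
  obtain ⟨k, -, hk⟩ := h2
  apply generic_sq_ne (hP.1 k) (z := e₀ (x : S))
  · rw [← haev, aeval_algHom_apply, hk, map_zero]
  · rw [← map_mul, h1, map_natCast]

theorem tateC {r : ℕ} {q : ℕ} (hq : q ≠ 0) (P : Fin r → ℤ[X]) (hP : AllGeneric q P) :
    TateGenerated q (∏ k, P k) := by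
  classical
  obtain ⟨S, _, _, hS⟩ := exists_nf (∏ k, (P k).map (Int.castRingHom ℚ))
  let e₀ : S →ₐ[ℚ] ℂ := IsSplittingField.lift S (∏ k, (P k).map (Int.castRingHom ℚ))
    (IsAlgClosed.splits _)
  obtain ⟨hP0, hne, bar, hbar, hfix, hmul⟩ := baseC hq P hP rfl e₀
  intro K _ _ H _ _ F hF m j hm ω hωT
  obtain ⟨hω, hω2⟩ := hωT
  have hset : tateClasses q F 1 1 =
      {η | η ∈ ⋀[K]^2 H ∧ ExteriorAlgebra.map F η = (q : K) • η} := by
    simp only [tateClasses, mul_one, pow_one]
  rw [hset]
  have hFK : aeval F ((∏ k, (P k).map (Int.castRingHom ℚ)).map (algebraMap ℚ K)) = 0 := by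
    have h2 : (∏ k, (P k).map (Int.castRingHom ℚ)).map (algebraMap ℚ K) =
        (∏ k, P k).map (Int.castRingHom K) := by
      rw [← Polynomial.map_prod, Polynomial.map_map]
      congr 1
      exact Subsingleton.elim _ _
    rw [h2]
    exact hF
  refine tate_of_relations_sep (sepC P hP) q bar hbar hfix hmul m j ?_ F hFK ω hω hω2
  intro d _ hrel x
  refine relS hq P hP rfl e₀ (IsSplittingField.splits S _) bar hmul 1 0 ?_ ?_ d m (m * j) hm ?_ x
  · rw [Multiset.prod_zero, map_one]
  · intro b hb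
    exact absurd hb (Multiset.notMem_zero b)
  · rw [one_mul, hrel]

theorem addsNothing {r : ℕ} {q : ℕ} (hq : q ≠ 0) (P : Fin r → ℤ[X])
    (hP : AllGeneric q P) : AddsNothing q P := by
  classical
  intro n i R hn ⟨hR, hfor⟩ K _ _ V _ _ H _ _ FY F hFY hF e j ω hij hω
  have hTate : TateGenerated q (∏ k, P k) := tateC hq P hP
  have hsep := sepC P hP
  set P' : ℚ[X] := ∏ k, (P k).map (Int.castRingHom ℚ) with hP'
  set R' : ℚ[X] := R.map (Int.castRingHom ℚ) with hR'
  have hR0 : R' ≠ 0 := by
    rw [hR', Ne, Polynomial.map_eq_zero_iff Int.cast_injective]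
    exact hR
  obtain ⟨S, _, _, hS⟩ := exists_nf (P' * R')
  have hnormal : Normal ℚ S := Normal.of_isSplittingField (P' * R')
  let e₀ : S →ₐ[ℚ] ℂ := IsSplittingField.lift S (P' * R') (IsAlgClosed.splits _)
  obtain ⟨hP0, hne, bar, hbar, hfix, hmul⟩ := baseC hq P hP rfl e₀
  have hT0 : P' * R' ≠ 0 := mul_ne_zero hP0 hR0
  have hsplT := IsSplittingField.splits S (P' * R')
  have hsplP : (P'.map (algebraMap ℚ S)).Splits :=
    Splits.of_dvd hsplT (Polynomial.map_ne_zero hT0) (Polynomial.map_dvd _ (dvd_mul_right _ _))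
  have hsplR : (R'.map (algebraMap ℚ S)).Splits :=
    Splits.of_dvd hsplT (Polynomial.map_ne_zero hT0) (Polynomial.map_dvd _ (dvd_mul_left _ _))
  have hqS : (q : S) ≠ 0 := by exact_mod_cast hq
  -- the relations
  have hkey : ∀ α : S, aeval α R = 0 → ∀ d : P'.rootSet S → ℕ, ∑ x, d x = e →
      α * (∏ x : P'.rootSet S, (x : S) ^ (d x)) ^ n = (q : S) ^ (n * j) →
      ∃ m, e = 2 * m ∧ α * (q : S) ^ (n * m) = (q : S) ^ (n * j) := by
    intro α hα d hd hrel
    have hα0 : α ≠ 0 := by
      rintro rfl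
      rw [zero_mul] at hrel
      exact pow_ne_zero _ hqS hrel.symm
    obtain ⟨s, hs1, hs2⟩ := hfor (e₀ α) (by
      rw [← haev] at hα ⊢
      rw [aeval_algHom_apply, hα, map_zero])
    have hs0 : ∀ b ∈ s, b ≠ 0 := by
      rintro b hb rfl
      have h2 := Multiset.prod_eq_zero hb
      rw [h2] at hs1
      exact hα0 ((map_eq_zero e₀).1 hs1.symm)
    have h2 : ∀ x, d x = d (bar x) := fun x =>
      relS hq P hP rfl e₀ hsplP bar hmul α s hs1 (fun b hb => ⟨hs0 b hb, hs2 b hb⟩) d n (n * j) hn
        hrel x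
    obtain ⟨m, hm1, hm2⟩ := prod_balanced bar hbar hfix (fun x : P'.rootSet S => (x : S)) (q : S)
      hmul e d hd h2
    refine ⟨m, hm1, ?_⟩
    rw [← hrel, hm2, ← pow_mul, mul_comm n m]
  -- linear algebra
  obtain ⟨G, hGsep, hGspl, hGroots⟩ := linC (S := S) hP0 n e
  have hFK : aeval F (P'.map (algebraMap ℚ K)) = 0 := by
    have h2 : P'.map (algebraMap ℚ K) = (∏ k, P k).map (Int.castRingHom K) := by
      rw [hP', ← Polynomial.map_prod, Polynomial.map_map]
      congr 1
      exact Subsingleton.elim _ _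
    rw [h2]
    exact hF
  have hGkill := linD (S := S) (T := P' * R') hsep (dvd_mul_right _ _) hT0 n e G
    (fun l hl => (hGroots l).2 hl) F hFK
  set gg : Module.End K (⋀[K]^e H) := exteriorPower.map e (F ^ n) with hgg
  set A : Module.End K (V ⊗[K] (⋀[K]^e H)) := TensorProduct.map FY LinearMap.id with hA
  set Z : Module.End K (V ⊗[K] (⋀[K]^e H)) := TensorProduct.map LinearMap.id gg with hZ
  have hAZ := tmulAux FY gg
  rw [← hA, ← hZ] at hAZ
  have hcommAZ : Commute A Z := by
    rw [Commute, SemiconjBy, hAZ.1, hAZ.2]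
  have hAZω : A (Z ω) = (q : K) ^ (n * j) • ω := by
    rw [← Module.End.mul_apply, hAZ.1]
    exact hω
  have hqK : (q : K) ≠ 0 := by exact_mod_cast hq
  have hc0 : (q : K) ^ (n * j) ≠ 0 := pow_ne_zero _ hqK
  have hRK : aeval A (R.map (Int.castRingHom K)) ω = 0 := by
    rw [hA, aeval_rTensor, hFY, TensorProduct.map_zero_left, LinearMap.zero_apply]
  have hGK : aeval Z (G.map (algebraMap ℚ K)) ω = 0 := by
    rw [hZ, aeval_lTensor, hGkill, TensorProduct.map_zero_right, LinearMap.zero_apply]
  have hRK0 : R.map (Int.castRingHom K) ≠ 0 := by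
    rw [Ne, Polynomial.map_eq_zero_iff Int.cast_injective]
    exact hR
  have hRR' : R.map (Int.castRingHom K) = R'.map (algebraMap ℚ K) := by
    rw [hR', Polynomial.map_map]
    congr 1
    exact Subsingleton.elim _ _
  have hG0 : (G.map (algebraMap ℚ K)).coeff 0 ≠ 0 := by
    rw [coeff_map, Ne, map_eq_zero]
    intro h0
    have h2 : aeval (0 : S) G = 0 := by
      rw [← coeff_zero_eq_aeval_zero', h0, map_zero]
    obtain ⟨d, -, hd⟩ := (hGroots 0).1 h2
    refine absurd hd.symm (pow_ne_zero _ (Finset.prod_ne_zero_iff.2 fun x _ => ?_))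
    exact pow_ne_zero _ (hne x)
  -- the roots in the algebraic closure
  have hchar : CharZero (AlgebraicClosure K) :=
    charZero_of_injective_algebraMap (algebraMap K (AlgebraicClosure K)).injective
  let ι' : S →ₐ[ℚ] AlgebraicClosure K := IsSplittingField.lift S (P' * R') (IsAlgClosed.splits _)
  have htrans : ∀ (p : ℚ[X]), p ≠ 0 → (p.map (algebraMap ℚ S)).Splits →
      ∀ α : AlgebraicClosure K, aeval α (p.map (algebraMap ℚ K)) = 0 →
      ∃ α₀ : S, aeval α₀ p = 0 ∧ ι' α₀ = α := by
    intro p hp hspl α hα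
    have h2 : α ∈ p.rootSet (AlgebraicClosure K) := by
      rw [mem_rootSet]
      refine ⟨hp, ?_⟩
      rw [← hα, aeval_def, aeval_def, eval₂_map]
      congr 1
    rw [← hspl.image_rootSet ι'] at h2
    obtain ⟨x, hx, hxα⟩ := h2
    exact ⟨x, (mem_rootSet.1 hx).2, hxα⟩
  have hpair : ∀ α l : AlgebraicClosure K, aeval α (R.map (Int.castRingHom K)) = 0 →
      aeval l (G.map (algebraMap ℚ K)) = 0 →
      α * l = algebraMap K (AlgebraicClosure K) ((q : K) ^ (n * j)) →
      ∃ m, e = 2 * m ∧ α * (q : AlgebraicClosure K) ^ (n * m) =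
        (q : AlgebraicClosure K) ^ (n * j) := by
    intro α l hα hl hal
    rw [hRR'] at hα
    obtain ⟨α₀, hα₀, rfl⟩ := htrans R' hR0 hsplR α hα
    obtain ⟨l₀, hl₀, rfl⟩ := htrans G hGsep.ne_zero hGspl l hl
    obtain ⟨d, hd, rfl⟩ := (hGroots l₀).1 hl₀
    rw [hR', haev] at hα₀
    obtain ⟨m, hm1, hm2⟩ := hkey α₀ hα₀ d hd (by
      apply ι'.toRingHom.injective
      change ι' _ = ι' _
      rw [map_mul, hal, map_pow, map_pow, map_natCast, map_natCast])
    refine ⟨m, hm1, ?_⟩
    have h3 := congrArg ι' hm2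
    simpa only [map_mul, map_pow, map_natCast] using h3
  by_cases he : ∃ m, e = 2 * m
  · obtain ⟨m, hm⟩ := he
    obtain ⟨a, ha⟩ : ∃ a, j = a + m := ⟨j - m, by omega⟩
    have hia : i = 2 * a := by omega
    have h2 : A ω = (q : K) ^ (n * a) • ω := by
      refine linB A Z hcommAZ _ hc0 ω hAZω _ _ hRK hGK hRK0 hGsep.map hG0 _ ?_
      intro α l hα hl hal
      obtain ⟨m', hm1, hm2⟩ := hpair α l hα hl hal
      have hmm : m' = m := by omega
      subst hmm
      have hqA : (q : AlgebraicClosure K) ≠ 0 := by exact_mod_cast hq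
      apply mul_right_cancel₀ (pow_ne_zero (n * m') hqA)
      rw [hm2, map_pow, map_natCast, ← pow_add, ha, mul_add]
    have h3 : Z ω = (q : K) ^ (n * m) • ω := by
      have h4 : Z (A ω) = (q : K) ^ (n * j) • ω := by
        rw [← hAZω, ← Module.End.mul_apply, ← Module.End.mul_apply, hcommAZ.eq]
      rw [h2, map_smul, ha, mul_add, pow_add, mul_smul] at h4
      exact smul_right_injective _ (pow_ne_zero (n * a) hqK) h4
    have h4 := linA FY gg _ _ ω h2 h3
    refine Submodule.span_mono ?_ h4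
    rintro _ ⟨v, u, hv, hu, rfl⟩
    refine ⟨v, u, a, hia, ?_, ?_, rfl⟩
    · rw [hv, Nat.cast_pow, ← pow_mul]
    · subst hm
      refine hTate K H F hF n m hn u ⟨u.2, ?_⟩
      rw [← linE, ← hgg, hu]
      rfl
  · have h2 : A ω = (0 : K) • ω := by
      refine linB A Z hcommAZ _ hc0 ω hAZω _ _ hRK hGK hRK0 hGsep.map hG0 _ ?_
      intro α l hα hl hal
      obtain ⟨m, hm1, -⟩ := hpair α l hα hl hal
      exact absurd ⟨m, hm1⟩ he
    rw [zero_smul] at h2
    have h3 : (q : K) ^ (n * j) • ω = 0 := by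
      rw [← hAZω, ← Module.End.mul_apply, hcommAZ.eq, Module.End.mul_apply, h2, map_zero]
    have h4 : ω = 0 := (smul_eq_zero.1 h3).resolve_left hc0
    rw [h4]
    exact Submodule.zero_mem _
  
end Pool.Agent.Lib.MP_021685_agG
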