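import Mathlib

/-!
# The number of Weil numbers in a fixed number field
-/

set_option autoImplicit false

open Polynomial NumberField UniqueFactorizationMonoid

namespace Pool.Agent.Lib.MP_021685_agG

section divisors

variable {A : Type*} [CommRing A] [IsDedekindDomain A]

/-- The number of divisors of a power of an ideal. -/
theorem card_divisors_pow {I : Ideal A} (hI : I ≠ 0) (n : ℕ) :
    {J : Ideal A | J ∣ I ^ n}.Finite ∧ {J : Ideal A | J ∣ I ^ n}.ncard ≤
      (n * Multiset.card (normalizedFactors I) + 1) ^ (Multiset.card (normalizedFactors I)) := by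
  classical
  set s := normalizedFactors I with hs
  set c := Multiset.card s with hc
  have hIn : I ^ n ≠ 0 := pow_ne_zero n hI
  have hle : ∀ J : Ideal A, J ∣ I ^ n → normalizedFactors J ≤ n • s := by
    intro J hJ
    have hJ0 : J ≠ 0 := ne_zero_of_dvd_ne_zero hIn hJ
    rw [hs, ← normalizedFactors_pow]
    exact (dvd_iff_normalizedFactors_le_normalizedFactors hJ0 hIn).1 hJ
  have hcount : ∀ J : Ideal A, J ∣ I ^ n → ∀ P, (normalizedFactors J).count P ≤ n * c := by
    intro J hJ P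
    refine (Multiset.count_le_of_le P (hle J hJ)).trans ?_
    rw [Multiset.count_nsmul]
    exact Nat.mul_le_mul_left n (Multiset.count_le_card P s)
  let f : Ideal A → (s.toFinset → Fin (n * c + 1)) := fun J P =>
    Fin.ofNat (n * c + 1) ((normalizedFactors J).count (P : Ideal A))
  have hinj : Set.InjOn f {J : Ideal A | J ∣ I ^ n} := by
    intro J hJ J' hJ' h
    have hJ0 : J ≠ 0 := ne_zero_of_dvd_ne_zero hIn hJ
    have hJ'0 : J' ≠ 0 := ne_zero_of_dvd_ne_zero hIn hJ'
    have h1 : normalizedFactors J = normalizedFactors J' := by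
      ext P
      by_cases hP : P ∈ s.toFinset
      · have h2 := congrArg Fin.val (congrFun h ⟨P, hP⟩)
        simp only [f, Fin.ofNat, Fin.val_mk] at h2
        rwa [Nat.mod_eq_of_lt (Nat.lt_succ_of_le (hcount J hJ P)),
          Nat.mod_eq_of_lt (Nat.lt_succ_of_le (hcount J' hJ' P))] at h2
      · have h3 : ∀ J : Ideal A, J ∣ I ^ n → (normalizedFactors J).count P = 0 := by
          intro J hJ
          rw [Multiset.count_eq_zero]
          intro hmem
          apply hP
          rw [Multiset.mem_toFinset]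
          exact Multiset.mem_of_mem_nsmul (Multiset.mem_of_le (hle J hJ) hmem)
        rw [h3 J hJ, h3 J' hJ']
    exact associated_iff_eq.1
      ((associated_iff_normalizedFactors_eq_normalizedFactors hJ0 hJ'0).2 h1)
  refine ⟨Set.Finite.of_injOn (Set.mapsTo_univ f _) hinj Set.finite_univ, ?_⟩
  refine (Set.ncard_le_ncard_of_injOn f (fun J _ => Set.mem_univ (f J)) hinj).trans ?_
  rw [Set.ncard_univ, Nat.card_fun, Nat.card_fin, Nat.card_eq_fintype_card, Fintype.card_coe]
  exact Nat.pow_le_pow_right (Nat.succ_pos _) (Multiset.toFinset_card_le s)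

end divisors

section

variable (K : Type*) [Field K] [NumberField K]

/-- The number of prime factors of a prime number. -/
theorem card_factors_le {p : ℕ} (hp : p.Prime) :
    Multiset.card (normalizedFactors (Ideal.span {(p : 𝓞 K)})) ≤ Module.finrank ℚ K := by
  classical
  set I : Ideal (𝓞 K) := Ideal.span {(p : 𝓞 K)} with hI
  have hp0 : (p : 𝓞 K) ≠ 0 := by exact_mod_cast hp.ne_zero
  have hI0 : I ≠ 0 := by
    rw [hI, Ne, Ideal.zero_eq_bot, Ideal.span_singleton_eq_bot]
    exact hp0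
  have hnorm : Ideal.absNorm I = p ^ Module.finrank ℚ K := by
    rw [hI, Ideal.absNorm_span_singleton]
    have h1 : (p : 𝓞 K) = algebraMap ℤ (𝓞 K) p := by simp
    rw [h1, Algebra.norm_algebraMap, Int.natAbs_pow, Int.natAbs_natCast]
    congr 1
    exact RingOfIntegers.rank K
  have hprod : ((normalizedFactors I).map Ideal.absNorm).prod = p ^ Module.finrank ℚ K := by
    rw [← hnorm, ← map_multiset_prod, Ideal.prod_normalizedFactors_eq_self hI0]
  have hdvd : ∀ P ∈ normalizedFactors I, p ∣ Ideal.absNorm P := by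
    intro P hP
    have h1 : Ideal.absNorm P ∣ p ^ Module.finrank ℚ K := by
      rw [← hprod]
      exact Multiset.dvd_prod (Multiset.mem_map_of_mem _ hP)
    obtain ⟨k, -, hk⟩ := (Nat.dvd_prime_pow hp).1 h1
    rw [hk]
    apply dvd_pow_self
    rintro rfl
    rw [pow_zero, Ideal.absNorm_eq_one_iff] at hk
    exact (Ideal.isPrime_of_prime (prime_of_normalized_factor P hP)).ne_top hk
  have hpow : ∀ t : Multiset (Ideal (𝓞 K)), (∀ P ∈ t, p ∣ Ideal.absNorm P) →
      p ^ Multiset.card t ∣ (t.map Ideal.absNorm).prod := by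
    intro t
    induction t using Multiset.induction_on with
    | empty => intro _; simp
    | cons a t ih =>
      intro h
      rw [Multiset.card_cons, Multiset.map_cons, Multiset.prod_cons, pow_succ, mul_comm]
      exact mul_dvd_mul (h a (Multiset.mem_cons_self a t))
        (ih fun P hP => h P (Multiset.mem_cons_of_mem hP))
  have h2 := hpow _ hdvd
  rw [hprod] at h2
  exact (Nat.pow_dvd_pow_iff_le_right hp.one_lt).1 h2

/-- The integers all of whose conjugates have absolute value `√q`. -/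
def weilSet (q : ℕ) : Set (𝓞 K) :=
  {x | ∀ φ : K →+* ℂ, ‖φ (algebraMap (𝓞 K) K x)‖ ^ 2 = q}

theorem weilSet_dvd {q : ℕ} (hq : q ≠ 0) {x : 𝓞 K} (hx : x ∈ weilSet K q) : x ∣ (q : 𝓞 K) := by
  obtain ⟨φ⟩ : Nonempty (K →+* ℂ) := inferInstance
  have h1 : φ (algebraMap (𝓞 K) K x) * (starRingEnd ℂ) (φ (algebraMap (𝓞 K) K x)) = (q : ℂ) := by
    rw [Complex.mul_conj, Complex.normSq_eq_norm_sq, hx φ]
    norm_cast
  have hq0 : (q : ℂ) ≠ 0 := by exact_mod_cast hq
  have hx0 : φ (algebraMap (𝓞 K) K x) ≠ 0 := by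
    intro h
    rw [h, zero_mul] at h1
    exact hq0 h1.symm
  have hxK : (algebraMap (𝓞 K) K x) ≠ 0 := by
    intro h
    rw [h, map_zero] at hx0
    exact hx0 rfl
  have hint : IsIntegral ℤ ((q : K) / (algebraMap (𝓞 K) K x)) := by
    have h2 : IsIntegral ℤ (φ ((q : K) / (algebraMap (𝓞 K) K x))) := by
      have h3 : φ ((q : K) / (algebraMap (𝓞 K) K x)) = (starRingEnd ℂ) (φ (algebraMap (𝓞 K) K x)) := by
        rw [map_div₀, map_natCast, div_eq_iff hx0, mul_comm, h1]
      rw [h3]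
      have h4 : IsIntegral ℤ (φ (algebraMap (𝓞 K) K x)) := (RingOfIntegers.isIntegral_coe x).map φ.toIntAlgHom
      exact h4.map (starRingEnd ℂ).toIntAlgHom
    exact (isIntegral_algHom_iff φ.toIntAlgHom φ.injective).1 h2
  obtain ⟨y, hy⟩ : ∃ y : 𝓞 K, algebraMap (𝓞 K) K y = (q : K) / (algebraMap (𝓞 K) K x) :=
    ⟨⟨_, hint⟩, rfl⟩
  refine ⟨y, ?_⟩
  apply RingOfIntegers.coe_injective
  rw [map_mul, hy, mul_div_cancel₀ _ hxK, map_natCast]

open Classical in
theorem weilSet_card {p n q : ℕ} (hp : p.Prime) (hq : q = p ^ n) :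
    (weilSet K q).Finite ∧ (weilSet K q).ncard ≤
      (n * Module.finrank ℚ K + 1) ^ Module.finrank ℚ K *
        Nat.card (NumberField.Units.torsion K) := by
  have hp0 : (p : 𝓞 K) ≠ 0 := by exact_mod_cast hp.ne_zero
  have hq0 : q ≠ 0 := by rw [hq]; exact pow_ne_zero _ hp.ne_zero
  set I : Ideal (𝓞 K) := Ideal.span {(p : 𝓞 K)} with hI
  have hI0 : I ≠ 0 := by
    rw [hI, Ne, Ideal.zero_eq_bot, Ideal.span_singleton_eq_bot]
    exact hp0
  obtain ⟨hfin, hcard⟩ := card_divisors_pow hI0 n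
  have hcf := card_factors_le K hp
  rw [← hI] at hcf
  -- the representatives
  have hrep : ∀ J : Ideal (𝓞 K), ∃ y : 𝓞 K,
      (∃ x ∈ weilSet K q, Ideal.span {x} = J) → y ∈ weilSet K q ∧ Ideal.span {y} = J := by
    intro J
    by_cases h : ∃ x ∈ weilSet K q, Ideal.span {x} = J
    · obtain ⟨x, hx⟩ := h
      exact ⟨x, fun _ => hx⟩
    · exact ⟨0, fun h' => absurd h' h⟩
  choose rep hrep using hrep
  have hunit : ∀ x : 𝓞 K, ∃ u : (𝓞 K)ˣ, x ∈ weilSet K q →
      u ∈ NumberField.Units.torsion K ∧ x = rep (Ideal.span {x}) * u := by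
    intro x
    by_cases hx : x ∈ weilSet K q
    · obtain ⟨h1, h2⟩ := hrep (Ideal.span {x}) ⟨x, hx, rfl⟩
      obtain ⟨u, hu⟩ := Ideal.span_singleton_eq_span_singleton.1 h2
      refine ⟨u, fun _ => ⟨?_, hu.symm⟩⟩
      rw [NumberField.Units.mem_torsion]
      intro w
      rw [← InfinitePlace.norm_embedding_eq]
      have h3 := hx w.embedding
      have h4 := h1 w.embedding
      rw [← hu, map_mul, map_mul, norm_mul, mul_pow, h4] at h3
      have hq' : (q : ℝ) ≠ 0 := by exact_mod_cast hq0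
      have h5 : ‖w.embedding (algebraMap (𝓞 K) K (u : 𝓞 K))‖ ^ 2 = 1 := by
        apply mul_left_cancel₀ hq'
        rw [mul_one]
        exact h3
      exact (pow_eq_one_iff_of_nonneg (norm_nonneg _) two_ne_zero).1 h5
    · exact ⟨1, fun h => absurd h hx⟩
  choose un hun using hunit
  set t : Set (Ideal (𝓞 K) × (𝓞 K)ˣ) :=
    {J : Ideal (𝓞 K) | J ∣ I ^ n} ×ˢ (NumberField.Units.torsion K : Set (𝓞 K)ˣ) with ht
  have hT : Finite (NumberField.Units.torsion K) := inferInstance
  have htf : t.Finite := hfin.prod (Set.finite_coe_iff.1 hT)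
  have hmaps : ∀ x ∈ weilSet K q, (Ideal.span {x}, un x) ∈ t := by
    intro x hx
    refine ⟨?_, (hun x hx).1⟩
    change Ideal.span {x} ∣ I ^ n
    rw [hI, Ideal.span_singleton_pow, Ideal.dvd_span_singleton, Ideal.mem_span_singleton]
    have := weilSet_dvd K hq0 hx
    rw [hq] at this
    exact_mod_cast this
  have hinj : Set.InjOn (fun x : 𝓞 K => (Ideal.span {x}, un x)) (weilSet K q) := by
    intro x hx y hy h
    have h1 := congrArg Prod.fst h
    have h2 := congrArg Prod.snd h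
    simp only at h1 h2
    rw [(hun x hx).2, (hun y hy).2, h1, h2]
  refine ⟨Set.Finite.of_injOn hmaps hinj htf, ?_⟩
  refine (Set.ncard_le_ncard_of_injOn _ hmaps hinj htf).trans ?_
  rw [ht, Set.ncard_prod]
  refine Nat.mul_le_mul ?_ ?_
  · refine hcard.trans ?_
    exact (Nat.pow_le_pow_left (Nat.succ_le_succ (Nat.mul_le_mul_left n hcf)) _).trans
      (Nat.pow_le_pow_right (Nat.succ_pos _) hcf)
  · exact le_of_eq (Nat.card_coe_set_eq _).symm

end

/-- The `q`-Weil numbers in `L`. -/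
def weilIn (L : IntermediateField ℚ ℂ) (q : ℕ) : Set ℂ :=
  {z | z ∈ L ∧ IsIntegral ℤ z ∧ ∀ w : ℂ, aeval w (minpoly ℚ z) = 0 → ‖w‖ ^ 2 = q}

/-- A number field contains at most `C (log q) ^ d` Weil numbers for `q`. -/
theorem weil_count (L : IntermediateField ℚ ℂ) [FiniteDimensional ℚ L] :
    ∃ C : ℝ, 0 ≤ C ∧ ∃ d : ℕ, ∀ p n q : ℕ, p.Prime → n ≠ 0 → q = p ^ n →
      (weilIn L q).Finite ∧ ((weilIn L q).ncard : ℝ) ≤ C * Real.log q ^ d := by
  classical
  have hNF : NumberField L := { to_charZero := inferInstance, to_finiteDimensional := inferInstance }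
  set D := Module.finrank ℚ L with hD
  set T := Nat.card (NumberField.Units.torsion L) with hT
  refine ⟨(2 * D + 2) ^ D * T, by positivity, D, fun p n q hp hn hq => ?_⟩
  obtain ⟨hfin, hcard⟩ := weilSet_card L hp hq
  have hsub : weilIn L q ⊆ (fun x : 𝓞 L => ((x : L) : ℂ)) '' weilSet L q := by
    rintro z ⟨hzL, hzint, hz⟩
    have hint : IsIntegral ℤ (⟨z, hzL⟩ : L) := by
      rw [← isIntegral_algHom_iff (L.val.restrictScalars ℤ) L.val.injective]
      exact hzint
    refine ⟨⟨⟨z, hzL⟩, hint⟩, ?_, rfl⟩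
    intro φ
    apply hz
    have h1 : minpoly ℚ z = minpoly ℚ (⟨z, hzL⟩ : L) :=
      minpoly.algebraMap_eq (A := ℚ) (B := L) (B' := ℂ) (algebraMap L ℂ).injective ⟨z, hzL⟩
    rw [h1]
    have h2 : aeval (φ.toRatAlgHom (⟨z, hzL⟩ : L)) (minpoly ℚ (⟨z, hzL⟩ : L)) = 0 := by
      rw [aeval_algHom_apply, minpoly.aeval, map_zero]
    exact h2
  have hfin2 := (hfin.image (fun x : 𝓞 L => ((x : L) : ℂ))).subset hsub
  refine ⟨hfin2, ?_⟩
  have h1 : (weilIn L q).ncard ≤ (n * D + 1) ^ D * T :=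
    (Set.ncard_le_ncard hsub (hfin.image _)).trans ((Set.ncard_image_le hfin).trans hcard)
  have h2 : ((weilIn L q).ncard : ℝ) ≤ (n * D + 1) ^ D * T := by exact_mod_cast h1
  refine h2.trans ?_
  have hlog2 : (1 : ℝ) / 2 < Real.log 2 := by
    have := Real.log_two_gt_d9
    linarith
  have hlogp : Real.log 2 ≤ Real.log p :=
    Real.log_le_log (by norm_num) (by exact_mod_cast hp.two_le)
  have hlogq : Real.log q = n * Real.log p := by
    rw [hq, Nat.cast_pow, Real.log_pow]
  have hn1 : (1 : ℝ) ≤ n := by exact_mod_cast Nat.one_le_iff_ne_zero.2 hn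
  have h3 : (n : ℝ) ≤ 2 * Real.log q := by
    rw [hlogq]
    nlinarith
  have h4 : (n : ℝ) * D + 1 ≤ (2 * D + 2) * Real.log q := by
    have hD0 : (0 : ℝ) ≤ D := Nat.cast_nonneg D
    nlinarith
  have h5 : ((n : ℝ) * D + 1) ^ D ≤ ((2 * D + 2) * Real.log q) ^ D :=
    pow_le_pow_left₀ (by positivity) h4 D
  calc ((n : ℝ) * D + 1) ^ D * T ≤ ((2 * D + 2) * Real.log q) ^ D * T :=
        mul_le_mul_of_nonneg_right h5 (Nat.cast_nonneg _)
    _ = (2 * D + 2) ^ D * T * Real.log q ^ D := by rw [mul_pow]; ring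

end Pool.Agent.Lib.MP_021685_agG
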