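import Mathlib
import Pool.Agent.Lib.MP_021685_agD.Final
import Pool.Agent.Lib.MP_021685_agG.Defs
import Pool.Agent.Lib.MP_021685_agG.WCount

/-!
# Weil polynomials which split over a fixed number field
-/

set_option autoImplicit false

open Polynomial Pool.Agent.Lib.MP_021685_agD

namespace Pool.Agent.Lib.MP_021685_agG

theorem split_ncard {g q : ℕ} (hq : q ≠ 0) (L : IntermediateField ℚ ℂ)
    (hfin : (weilIn L q).Finite) :
    {P | P ∈ weilPolys g q ∧ rootField P ≤ L}.ncard ≤ (weilIn L q).ncard ^ (2 * g) := by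
  classical
  set W := weilIn L q with hW
  let Φ : (Fin (2 * g) → ℂ) → ℂ[X] := fun f => ∏ i, (X - C (f i))
  set B : Set (Fin (2 * g) → ℂ) := {f | ∀ i, f i ∈ W} with hB
  have hBfin : B.Finite := Set.Finite.pi' fun _ => hfin
  have hBcard : B.ncard = W.ncard ^ (2 * g) := by
    rw [hB, ncard_pi_set _ fun _ => hfin, Finset.prod_const, Finset.card_univ, Fintype.card_fin]
  rw [← hBcard]
  have hinj : Function.Injective (Polynomial.map (Int.castRingHom ℂ)) :=
    Polynomial.map_injective _ (Int.castRingHom ℂ).injective_int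
  rw [← Set.ncard_image_of_injective _ hinj]
  refine (Set.ncard_le_ncard ?_ (hBfin.image Φ)).trans (Set.ncard_image_le hBfin)
  rintro _ ⟨P, ⟨hP, hPL⟩, rfl⟩
  have hmon : (P.map (Int.castRingHom ℂ)).Monic := hP.1.map _
  have hsplit := (IsAlgClosed.splits (P.map (Int.castRingHom ℂ))).eq_prod_roots
  rw [hmon.leadingCoeff, C_1, one_mul] at hsplit
  have hcard : (P.map (Int.castRingHom ℂ)).roots.card = 2 * g := by
    rw [← (IsAlgClosed.splits (P.map (Int.castRingHom ℂ))).natDegree_eq_card_roots,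
      hP.1.natDegree_map, hP.2.1]
  obtain ⟨l, hl⟩ := Quot.exists_rep (P.map (Int.castRingHom ℂ)).roots
  have hl' : (l : Multiset ℂ) = (P.map (Int.castRingHom ℂ)).roots := hl
  have hlen : l.length = 2 * g := by
    rw [← hcard, ← hl', Multiset.coe_card]
  refine ⟨fun i => l.get (i.cast hlen.symm), ?_, ?_⟩
  · intro i
    set z := l.get (i.cast hlen.symm) with hz
    have h1 : z ∈ (P.map (Int.castRingHom ℂ)).roots := by
      rw [← hl', Multiset.mem_coe]
      exact List.get_mem _ _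
    rw [mem_roots hmon.ne_zero, IsRoot.def, eval_map] at h1
    have h2 : aeval z P = 0 := h1
    refine ⟨hPL (IntermediateField.subset_adjoin ℚ _ h2), ⟨P, hP.1, h1⟩, fun w hw => ?_⟩
    apply hP.2.2.2
    have h3 : aeval z (P.map (Int.castRingHom ℚ)) = 0 := by
      rw [← h2]
      exact aeval_map_algebraMap ℚ z P
    have h4 : aeval w (P.map (Int.castRingHom ℚ)) = aeval w P := aeval_map_algebraMap ℚ w P
    rw [← h4]
    obtain ⟨c, hc⟩ := minpoly.dvd ℚ z h3
    rw [hc, map_mul, hw, zero_mul]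
  · rw [hsplit, ← hl', Multiset.map_coe, Multiset.prod_coe]
    simp only [Φ]
    have h1 : (l.map fun a => X - C a).length = 2 * g := by rw [List.length_map, hlen]
    rw [← List.ofFn_get (l.map fun a => X - C a), List.prod_ofFn]
    refine Fintype.prod_equiv (finCongr h1.symm) _ _ fun i => ?_
    simp

theorem split_card (g : ℕ) (hg : g ≠ 0) {δ : ℝ} (hδ : 0 < δ) (L : IntermediateField ℚ ℂ)
    [FiniteDimensional ℚ L] :
    ∃ q₀ : ℕ, ∀ p q : ℕ, p.Prime → q₀ ≤ q → p ∣ q → IsPrimePow q →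
      ∀ E : Fin g → ℕ, Small p g q δ E →
      ({P | P ∈ closedStratum p g q E ∧ rootField P ≤ L}.ncard : ℝ) ≤
        (Real.log q * (q : ℝ) ^ (-(δ / 3))) * vol p g q E := by
  obtain ⟨C, hC0, d, hC⟩ := weil_count L
  -- the asymptotic inequality
  have hlim : ∀ᶠ x : ℝ in Filter.atTop,
      (C * Real.log x ^ d) ^ (2 * g) ≤ x ^ (2 * δ / 3) := by
    have h1 := (isLittleO_log_rpow_rpow_atTop (s := 2 * δ / 3) ((d * (2 * g) : ℕ) : ℝ)
      (by positivity)).def (c := 1 / (C ^ (2 * g) + 1)) (by positivity)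
    filter_upwards [h1, Filter.eventually_ge_atTop (1 : ℝ)] with x hx hx1
    have hlog : 0 ≤ Real.log x := Real.log_nonneg hx1
    rw [Real.rpow_natCast, Real.norm_of_nonneg (by positivity),
      Real.norm_of_nonneg (by positivity)] at hx
    have hC1 : 0 ≤ C ^ (2 * g) := by positivity
    have h2 : (C * Real.log x ^ d) ^ (2 * g) = C ^ (2 * g) * Real.log x ^ (d * (2 * g)) := by
      rw [mul_pow, ← pow_mul]
    rw [h2]
    have h3 : (C ^ (2 * g) + 1) * Real.log x ^ (d * (2 * g)) ≤ x ^ (2 * δ / 3) := by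
      rw [one_div, ← div_eq_inv_mul, le_div_iff₀ (by positivity)] at hx
      linarith
    have h4 : 0 ≤ Real.log x ^ (d * (2 * g)) := by positivity
    nlinarith
  obtain ⟨x₀, hx₀⟩ := Filter.eventually_atTop.1 hlim
  refine ⟨max 3 ⌈x₀⌉₊, fun p q hp hq hpq hqp E hE => ?_⟩
  have hq3 : 3 ≤ q := le_trans (le_max_left _ _) hq
  have hq0 : q ≠ 0 := by omega
  have hq1 : (1 : ℝ) ≤ q := by exact_mod_cast (by omega : 1 ≤ q)
  have hqx : x₀ ≤ q := (Nat.le_ceil x₀).trans (by exact_mod_cast le_trans (le_max_right _ _) hq)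
  obtain ⟨n, hn, hqn⟩ : ∃ n, n ≠ 0 ∧ q = p ^ n := by
    obtain ⟨p', k, hp', hk, rfl⟩ := (isPrimePow_nat_iff q).1 hqp
    have h1 := hp.dvd_of_dvd_pow hpq
    have h2 := (Nat.prime_dvd_prime_iff_eq hp hp').1 h1
    exact ⟨k, hk.ne', by rw [h2]⟩
  obtain ⟨hfin, hcard⟩ := hC p n q hp hn hqn
  have h1 : ({P | P ∈ closedStratum p g q E ∧ rootField P ≤ L}.ncard : ℝ) ≤
      ((weilIn L q).ncard : ℝ) ^ (2 * g) := by
    have h2 : {P | P ∈ closedStratum p g q E ∧ rootField P ≤ L}.ncard ≤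
        {P | P ∈ weilPolys g q ∧ rootField P ≤ L}.ncard := by
      apply Set.ncard_le_ncard
      · rintro P ⟨h3, h4⟩
        exact ⟨h3.1, h4⟩
      · exact (weil_finite g hq0).subset fun _ h => h.1
    exact_mod_cast h2.trans (split_ncard hq0 L hfin)
  have hlog : 1 ≤ Real.log q := by
    rw [Real.le_log_iff_exp_le (by positivity)]
    have h1 := Real.exp_one_lt_d9
    have h2 : (3 : ℝ) ≤ q := by exact_mod_cast hq3
    linarith
  have h2 : ((weilIn L q).ncard : ℝ) ^ (2 * g) ≤ (q : ℝ) ^ (2 * δ / 3) :=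
    (pow_le_pow_left₀ (Nat.cast_nonneg _) hcard _).trans (hx₀ q hqx)
  have hvol : (q : ℝ) ^ δ ≤ vol p g q E := by
    have hk : ∀ k : Fin g, (q : ℝ) ^ δ ≤ Real.sqrt q ^ ((k : ℕ) + 1) / (p : ℝ) ^ E k := by
      intro k
      have hp0 : (0 : ℝ) < p := by exact_mod_cast hp.pos
      rw [le_div_iff₀ (by positivity), mul_comm]
      exact hE k
    have h1 : ∏ _k : Fin g, (q : ℝ) ^ δ ≤ vol p g q E := by
      rw [vol]
      exact Finset.prod_le_prod (fun _ _ => by positivity) fun k _ => hk k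
    rw [Finset.prod_const, Finset.card_univ, Fintype.card_fin] at h1
    refine le_trans ?_ h1
    exact le_self_pow₀ (Real.one_le_rpow hq1 hδ.le) hg
  have h3 : (q : ℝ) ^ (2 * δ / 3) ≤ (Real.log q * (q : ℝ) ^ (-(δ / 3))) * vol p g q E := by
    have h4 : (q : ℝ) ^ (2 * δ / 3) = (q : ℝ) ^ (-(δ / 3)) * (q : ℝ) ^ δ := by
      rw [← Real.rpow_add (by positivity)]
      congr 1
      ring
    rw [h4, mul_assoc]
    have h5 : (q : ℝ) ^ (-(δ / 3)) * (q : ℝ) ^ δ ≤ (q : ℝ) ^ (-(δ / 3)) * vol p g q E :=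
      mul_le_mul_of_nonneg_left hvol (by positivity)
    have h6 : 0 ≤ (q : ℝ) ^ (-(δ / 3)) * vol p g q E := le_trans (by positivity) h5
    nlinarith
  exact h1.trans (h2.trans h3)

end Pool.Agent.Lib.MP_021685_agG
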