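import Mathlib
import Pool.Agent.Lib.MP_021685_agD.Final
import Pool.Agent.Lib.MP_021685_agG.SplitCount
import Pool.Agent.Lib.MP_021685_agG.RelC

/-!
# Generic families in the strata
-/

set_option autoImplicit false

open Polynomial Pool.Agent.Lib.MP_021685_agD

namespace Pool.Agent.Lib.MP_021685_agG

theorem density_gen {r : ℕ} (g : Fin r → ℕ) (hg : ∀ i, g i ≠ 0) {δ : ℝ} (hδ : 0 < δ) (hδ1 : δ ≤ 1) :
    ∃ C : ℝ, ∀ L : IntermediateField ℚ ℂ, FiniteDimensional ℚ L → ∃ q₀ : ℕ,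
      ∀ p q : ℕ, p.Prime → q₀ ≤ q → p ∣ q → IsPrimePow q →
      ∀ E : ∀ i, Fin (g i) → ℕ, (∀ i, Small p (g i) q δ (E i)) →
      {P : Fin r → ℤ[X] | ∀ i, P i ∈ closedStratum p (g i) q (E i)}.Finite ∧
      ({P : Fin r → ℤ[X] | (∀ i, P i ∈ closedStratum p (g i) q (E i)) ∧
        ¬ (AllGeneric q P ∧ ∀ k, ¬ rootField (P k) ≤ L)}.ncard : ℝ) ≤
      C * (Real.log q * (q : ℝ) ^ (-(δ / 3))) *
        ({P : Fin r → ℤ[X] | ∀ i, P i ∈ openStratum p (g i) q (E i)}.ncard : ℝ) := by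
  classical
  have hcy := fun i => noCycle_card (g i) (hg i) hδ hδ1
  choose C₁ hC₁0 q₁ hC₁ using hcy
  have hav := fun i => noGood_card g hg i hδ hδ1
  choose C₂ hC₂0 q₂ hC₂ using hav
  have hlow := fun i => open_card_ge (g i) (hg i) hδ
  choose c hc0 q₃ hc using hlow
  set K : ℝ := ∏ i, wK (g i) with hK
  have hKpos : 0 < K := Finset.prod_pos fun i _ => lt_of_lt_of_le one_pos (one_le_wK (g i))
  have hcpos : 0 < ∏ i, c i := Finset.prod_pos fun i _ => hc0 i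
  refine ⟨(∑ i, (C₁ i * K + 11 * K + C₂ i)) / ∏ i, c i, fun L hL => ?_⟩
  have hsp := fun i => split_card (g i) (hg i) hδ L
  choose q₄ hq₄ using hsp
  refine ⟨3 + ∑ i, (q₁ i + q₂ i + q₃ i + q₄ i), fun p q hp hq hpq hqp E hE => ?_⟩
  have hq3 : 3 ≤ q := by omega
  have hq0 : q ≠ 0 := by omega
  have hqi : ∀ i, q₁ i + q₂ i + q₃ i + q₄ i ≤ q := by
    intro i
    have h1 : q₁ i + q₂ i + q₃ i + q₄ i ≤ ∑ i, (q₁ i + q₂ i + q₃ i + q₄ i) :=
      Finset.single_le_sum (f := fun i => q₁ i + q₂ i + q₃ i + q₄ i) (fun _ _ => Nat.zero_le _)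
        (Finset.mem_univ i)
    omega
  have hWfin : {P : Fin r → ℤ[X] | ∀ i, P i ∈ closedStratum p (g i) q (E i)}.Finite :=
    Set.Finite.pi' fun i => closed_finite hq0
  refine ⟨hWfin, ?_⟩
  have hq1 : (1 : ℝ) ≤ q := by exact_mod_cast (by omega : 1 ≤ q)
  set t : ℝ := (q : ℝ) ^ (-(δ / 3)) with ht
  have ht0 : 0 ≤ t := Real.rpow_nonneg (Nat.cast_nonneg _) _
  have hlog : 1 ≤ Real.log q := by
    rw [Real.le_log_iff_exp_le (by positivity)]
    have h1 := Real.exp_one_lt_d9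
    have h2 : (3 : ℝ) ≤ q := by exact_mod_cast hq3
    linarith
  set η : ℝ := Real.log q * t with hη
  have hη0 : 0 ≤ η := by positivity
  have hqδ : (q : ℝ) ^ (-δ) ≤ η := by
    have h2 : (q : ℝ) ^ (-δ) ≤ t := by
      rw [ht]
      exact Real.rpow_le_rpow_of_exponent_le hq1 (by linarith)
    nlinarith
  set V : ℝ := ∏ i, vol p (g i) q (E i) with hV
  have hVpos : 0 < V := Finset.prod_pos fun i _ => vol_pos hp hq0
  -- the families in the open strata
  have hord : (∏ i, c i) * V ≤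
      ({P : Fin r → ℤ[X] | ∀ i, P i ∈ openStratum p (g i) q (E i)}.ncard : ℝ) := by
    rw [ncard_pi_set _ fun i => (weil_finite (g i) hq0).subset fun _ h => h.1, Nat.cast_prod,
      hV, ← Finset.prod_mul_distrib]
    apply Finset.prod_le_prod
    · intro i _
      exact mul_nonneg (hc0 i).le (vol_pos hp hq0).le
    · intro i _
      exact hc i p q hp hpq (by have := hqi i; omega) hqp (E i) (hE i)
  -- the three exceptional sets
  let E₁ : Fin r → Set (Fin r → ℤ[X]) := fun i =>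
    {P | (∀ i, P i ∈ closedStratum p (g i) q (E i)) ∧ P i ∈ {P | P ∈ closedStratum p (g i) q (E i) ∧
      ∀ l : ℕ, l.Prime → ¬ l ∣ q → ¬ CycleAt q (g i) P l}}
  let E₂ : Fin r → Set (Fin r → ℤ[X]) := fun i =>
    {P | (∀ i, P i ∈ closedStratum p (g i) q (E i)) ∧ P i ∈ {P | P ∈ closedStratum p (g i) q (E i) ∧
      g i = 1 ∧ ∃ k : ℕ, k ≤ 4 ∧ P.coeff 1 ^ 2 = (k : ℤ) * q}}
  let E₄ : Fin r → Set (Fin r → ℤ[X]) := fun i =>
    {P | (∀ i, P i ∈ closedStratum p (g i) q (E i)) ∧ P i ∈ {P | P ∈ closedStratum p (g i) q (E i) ∧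
      rootField P ≤ L}}
  let E₃ : Fin r → Set (Fin r → ℤ[X]) := fun i =>
    {P | (∀ i, P i ∈ closedStratum p (g i) q (E i)) ∧
        ∀ l : ℕ, l.Prime → l ≠ 2 → ¬ l ∣ q → ¬ GoodAt q P i l}
  have hE₁ : ∀ i, ((E₁ i).ncard : ℝ) ≤ C₁ i * K * η * V := by
    intro i
    refine (slice_card g hg hp hq0 hδ E hE i (mul_nonneg (hC₁0 i) hη0) _ (fun _ h => h.1)
      (hC₁ i p q hp (by have := hqi i; omega) hpq hqp (E i) (hE i))).trans (le_of_eq ?_)
    rw [← hK, ← hV]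
    ring
  have hE₂ : ∀ i, ((E₂ i).ncard : ℝ) ≤ 10 * K * η * V := by
    intro i
    have h0 : ({P | P ∈ closedStratum p (g i) q (E i) ∧ g i = 1 ∧
      ∃ k : ℕ, k ≤ 4 ∧ P.coeff 1 ^ 2 = (k : ℤ) * q}.ncard : ℝ) ≤
        (10 * η) * vol p (g i) q (E i) := by
      by_cases hgi : g i = 1
      · have hvol : (q : ℝ) ^ δ ≤ vol p (g i) q (E i) := by
          have hk : ∀ k : Fin (g i), (q : ℝ) ^ δ ≤
              Real.sqrt q ^ ((k : ℕ) + 1) / (p : ℝ) ^ E i k := by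
            intro k
            have hp0 : (0 : ℝ) < p := by exact_mod_cast hp.pos
            rw [le_div_iff₀ (by positivity), mul_comm]
            exact hE i k
          have h1 : ∏ _k : Fin (g i), (q : ℝ) ^ δ ≤ vol p (g i) q (E i) := by
            rw [vol]
            exact Finset.prod_le_prod (fun _ _ => by positivity) fun k _ => hk k
          rw [Finset.prod_const, Finset.card_univ, Fintype.card_fin] at h1
          have h7 : ((q : ℝ) ^ δ) ^ g i = (q : ℝ) ^ δ := by rw [hgi, pow_one]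
          rw [h7] at h1
          exact h1
        have h2 : ({P | P ∈ closedStratum p (g i) q (E i) ∧ g i = 1 ∧
            ∃ k : ℕ, k ≤ 4 ∧ P.coeff 1 ^ 2 = (k : ℤ) * q}.ncard : ℝ) ≤ 10 := by
          have h3 : {P | P ∈ closedStratum p (g i) q (E i) ∧ g i = 1 ∧
              ∃ k : ℕ, k ≤ 4 ∧ P.coeff 1 ^ 2 = (k : ℤ) * q}.ncard ≤
              {P | P ∈ weilPolys 1 q ∧ ∃ k : ℕ, k ≤ 4 ∧ P.coeff 1 ^ 2 = (k : ℤ) * q}.ncard := by
            apply Set.ncard_le_ncard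
            · rintro P ⟨h4, -, h5⟩
              refine ⟨?_, h5⟩
              have h6 := h4.1
              rwa [hgi] at h6
            · exact (weil_finite 1 hq0).subset fun _ h => h.1
          exact_mod_cast h3.trans (special_card_le (q := q))
        refine h2.trans ?_
        have h3 : 1 ≤ η * vol p (g i) q (E i) := by
          have h4 : (q : ℝ) ^ (-δ) * (q : ℝ) ^ δ = 1 := by
            rw [← Real.rpow_add (by positivity), neg_add_cancel, Real.rpow_zero]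
          rw [← h4]
          exact mul_le_mul hqδ hvol (by positivity) hη0
        linarith
      · have h1 : {P | P ∈ closedStratum p (g i) q (E i) ∧ g i = 1 ∧
            ∃ k : ℕ, k ≤ 4 ∧ P.coeff 1 ^ 2 = (k : ℤ) * q} = ∅ := by
          ext P
          simp [hgi]
        rw [h1, Set.ncard_empty, Nat.cast_zero]
        have := vol_pos (p := p) (g := g i) (q := q) (E := E i) hp hq0
        positivity
    refine (slice_card g hg hp hq0 hδ E hE i (by positivity : 0 ≤ 10 * η) _ (fun _ h => h.1)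
      h0).trans (le_of_eq ?_)
    rw [← hK, ← hV]
    ring
  have hE₄ : ∀ i, ((E₄ i).ncard : ℝ) ≤ K * η * V := by
    intro i
    refine (slice_card g hg hp hq0 hδ E hE i hη0 _ (fun _ h => h.1)
      (hq₄ i p q hp (by have := hqi i; omega) hpq hqp (E i) (hE i))).trans (le_of_eq ?_)
    rw [← hK, ← hV]
    ring
  have hE₃ : ∀ i, ((E₃ i).ncard : ℝ) ≤ C₂ i * η * V := by
    intro i
    exact hC₂ i p q hp (by have := hqi i; omega) hpq hqp E hE
  -- the union
  have hsub : {P : Fin r → ℤ[X] | (∀ i, P i ∈ closedStratum p (g i) q (E i)) ∧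
      ¬ (AllGeneric q P ∧ ∀ k, ¬ rootField (P k) ≤ L)} ⊆
      ⋃ i ∈ (Finset.univ : Finset (Fin r)), (E₁ i ∪ E₂ i ∪ E₃ i ∪ E₄ i) := by
    rintro P ⟨hP, hT⟩
    by_contra hcon
    simp only [Finset.mem_univ, Set.iUnion_true, Set.mem_iUnion, not_exists, Set.mem_union,
      not_or] at hcon
    apply hT
    have hc1 : ∀ i, ∃ l : ℕ, l.Prime ∧ ¬ l ∣ q ∧ CycleAt q (g i) (P i) l := by
      intro i
      by_contra hi
      push Not at hi
      exact (hcon i).1.1.1 ⟨hP, hP i, hi⟩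
    have hc2 : ∀ i, g i = 1 → ∀ k : ℕ, k ≤ 4 → (P i).coeff 1 ^ 2 ≠ k * q := by
      intro i hgi k hk heq
      exact (hcon i).1.1.2 ⟨hP, hP i, hgi, k, hk, heq⟩
    have hc3 : ∀ i, ∃ l : ℕ, l.Prime ∧ l ≠ 2 ∧ ¬ l ∣ q ∧ GoodAt q P i l := by
      intro i
      by_contra hi
      push Not at hi
      exact (hcon i).1.2 ⟨hP, hi⟩
    refine ⟨⟨fun k => gen_generic hq0 ⟨g k, hg k, (hP k).1, hc1 k, hc2 k, ?_⟩, fun k l hkl =>
      rootField_ne hq0 g hg P (fun i => (hP i).1) hc1 hc2 hc3 k l hkl⟩, fun k hk =>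
        (hcon k).2 ⟨hP, hP k, hk⟩⟩
    obtain ⟨l, hl, hl2, hlq, hgood⟩ := hc3 k
    exact ⟨l, hl, hl2, hlq, goodAt_single hgood⟩
  have hfinE : ∀ i, (E₁ i ∪ E₂ i ∪ E₃ i ∪ E₄ i).Finite := by
    intro i
    refine hWfin.subset ?_
    rintro P (((h | h) | h) | h)
    · exact h.1
    · exact h.1
    · exact h.1
    · exact h.1
  have hcard : ({P : Fin r → ℤ[X] | (∀ i, P i ∈ closedStratum p (g i) q (E i)) ∧
      ¬ (AllGeneric q P ∧ ∀ k, ¬ rootField (P k) ≤ L)}.ncard : ℝ) ≤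
      ∑ i, (C₁ i * K + 11 * K + C₂ i) * η * V := by
    have h1 : {P : Fin r → ℤ[X] | (∀ i, P i ∈ closedStratum p (g i) q (E i)) ∧
        ¬ (AllGeneric q P ∧ ∀ k, ¬ rootField (P k) ≤ L)}.ncard ≤ ∑ i, (E₁ i ∪ E₂ i ∪ E₃ i ∪ E₄ i).ncard := by
      refine (Set.ncard_le_ncard hsub ?_).trans (Finset.set_ncard_biUnion_le _ _)
      exact Set.Finite.biUnion (Finset.finite_toSet _) fun i _ => hfinE i
    have h2 : ({P : Fin r → ℤ[X] | (∀ i, P i ∈ closedStratum p (g i) q (E i)) ∧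
        ¬ (AllGeneric q P ∧ ∀ k, ¬ rootField (P k) ≤ L)}.ncard : ℝ) ≤ ∑ i, ((E₁ i ∪ E₂ i ∪ E₃ i ∪ E₄ i).ncard : ℝ) := by
      exact_mod_cast h1
    refine h2.trans (Finset.sum_le_sum fun i _ => ?_)
    have h3 : ((E₁ i ∪ E₂ i ∪ E₃ i ∪ E₄ i).ncard : ℝ) ≤
        (E₁ i).ncard + (E₂ i).ncard + (E₃ i).ncard + (E₄ i).ncard := by
      exact_mod_cast (Set.ncard_union_le _ _).trans
        (Nat.add_le_add_right ((Set.ncard_union_le _ _).trans
          (Nat.add_le_add_right (Set.ncard_union_le _ _) _)) _)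
    have h4 := hE₁ i
    have h5 := hE₂ i
    have h6 := hE₃ i
    have h7 := hE₄ i
    calc ((E₁ i ∪ E₂ i ∪ E₃ i ∪ E₄ i).ncard : ℝ) ≤
        (E₁ i).ncard + (E₂ i).ncard + (E₃ i).ncard + (E₄ i).ncard := h3
      _ ≤ C₁ i * K * η * V + 10 * K * η * V + C₂ i * η * V + K * η * V :=
        add_le_add (add_le_add (add_le_add h4 h5) h6) h7
      _ = (C₁ i * K + 11 * K + C₂ i) * η * V := by ring
  refine hcard.trans ?_
  rw [← Finset.sum_mul, ← Finset.sum_mul]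
  have hsum : 0 ≤ ∑ i, (C₁ i * K + 11 * K + C₂ i) :=
    Finset.sum_nonneg fun i _ => by
      have := hC₁0 i
      have := hC₂0 i
      positivity
  calc (∑ i, (C₁ i * K + 11 * K + C₂ i)) * η * V
      = (∑ i, (C₁ i * K + 11 * K + C₂ i)) / (∏ i, c i) * η * ((∏ i, c i) * V) := by
        field_simp
    _ ≤ _ := mul_le_mul_of_nonneg_left hord (mul_nonneg (div_nonneg hsum hcpos.le) hη0)

end Pool.Agent.Lib.MP_021685_agG
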